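import Pool.Agent.Q44.BS.Fin
import Pool.Agent.Q44.BN.Bal

/-!
# The balanced local classes: rank zero and trivial two-primary part
-/

set_option autoImplicit false
set_option linter.unusedSectionVars false
set_option linter.unusedVariables false

open scoped Classical

namespace Q44.BS

open Finset Module Filter Topology
open Pool.Agent.Y703.CQ (nr)
open Q44.BC (lm lam)
open Q44.TK (Fm hF hF_pos hF_mul hF_sum hF_eq hF_one Fm_two fin_Fm)
open Q44.BM (vm Fam RC Sys SS Ok HM GT Rch mem_SS t_DQ t_BX pos_prop law_pos hm_cls BX NdC)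
open Q44.TI (pd SelS cop_mod cardf ratio)
open Pool.Agent.W262.SH (Sha)
open Pool.Agent.TH841.SH Pool.Agent.Y668
open Q44.BN

/-- between two sets with the same proportion, a finite set of exceptions -/
theorem between' (S : ℕ → Finset ℤ) {G P Q R : ℤ → Prop} {iG : DecidablePred G}
    {iP : DecidablePred P} {iQ : DecidablePred Q} {iR : DecidablePred R} {c : ℝ} (E : Finset ℤ)
    (hG : Tendsto (fun X : ℕ => (((S X).filter G).card : ℝ)) atTop atTop)
    (h1 : Tendsto (fun X : ℕ => (((S X).filter P).card : ℝ) / (((S X).filter G).card : ℝ)) atTop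
      (𝓝 c))
    (h2 : Tendsto (fun X : ℕ => (((S X).filter R).card : ℝ) / (((S X).filter G).card : ℝ)) atTop
      (𝓝 c))
    (hPQ : ∀ X, ∀ D ∈ S X, P D → Q D) (hQR : ∀ X, ∀ D ∈ S X, Q D → R D ∨ D ∈ E) :
    Tendsto (fun X : ℕ => (((S X).filter Q).card : ℝ) / (((S X).filter G).card : ℝ)) atTop
      (𝓝 c) := by
  have h3 : Tendsto (fun X : ℕ => (((S X).filter R).card : ℝ) / (((S X).filter G).card : ℝ) +
      (E.card : ℝ) / (((S X).filter G).card : ℝ)) atTop (𝓝 c) := by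
    have := h2.add (hG.const_div_atTop (E.card : ℝ))
    rwa [add_zero] at this
  refine tendsto_of_tendsto_of_tendsto_of_le_of_le h1 h3 (fun X => ?_) fun X => ?_
  · refine div_le_div_of_nonneg_right ?_ (Nat.cast_nonneg _)
    refine Nat.cast_le.2 (card_le_card fun D hD => ?_)
    rw [mem_filter] at hD ⊢
    exact ⟨hD.1, hPQ X D hD.1 hD.2⟩
  · show (((S X).filter Q).card : ℝ) / (((S X).filter G).card : ℝ) ≤
      (((S X).filter R).card : ℝ) / (((S X).filter G).card : ℝ) +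
      (E.card : ℝ) / (((S X).filter G).card : ℝ)
    rw [← add_div]
    refine div_le_div_of_nonneg_right ?_ (Nat.cast_nonneg _)
    have h4 : (S X).filter Q ⊆ (S X).filter R ∪ E := by
      intro D hD
      rw [mem_filter] at hD
      rw [mem_union, mem_filter]
      rcases hQR X D hD.1 hD.2 with h | h
      · exact Or.inl ⟨hD.1, h⟩
      · exact Or.inr h
    exact_mod_cast (card_le_card h4).trans (card_union_le _ _)

namespace Cq

variable (c : Cq)

theorem hm_i (i : c.I) : HM (c.cl i) := by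
  have h1 := hm_cls (Nat.pos_of_ne_zero c.hm.nz) {(i : ℕ)} (fun a ha => by
    rw [mem_singleton.1 ha]
    exact ⟨mem_range.1 (mem_filter.1 i.2).1, (mem_filter.1 i.2).2⟩) (singleton_nonempty _)
  obtain ⟨θ, C, hθ, h2⟩ := h1
  refine ⟨θ, C, hθ, fun y hy => (h2 y hy).trans (le_of_eq ?_)⟩
  refine sum_congr ?_ fun _ _ => rfl
  ext p
  simp only [mem_filter, mem_singleton]
  unfold cl
  tauto

/-- the full sets have density one -/
theorem full_one :
    Tendsto (fun X : ℕ => (((SS c.rc.Φ X).filter fun S => GT (hF c.m) (hF c.m c.d) S ∧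
        c.Full S).card : ℝ) /
      (((SS c.rc.Φ X).filter (GT (hF c.m) (hF c.m c.d))).card : ℝ)) atTop (𝓝 1) := by
  have hnz : NeZero c.m := ⟨c.hm.nz⟩
  refine law_pos c.rc.ok (pos_prop Fm_two c.rc.ok (hF c.m) c.reach) ?_
  refine t_DQ c.rc.ok c.cl (fun i p h => (c.P_iff p).2 ⟨h.1, cl_cop h⟩) c.hm_i _ _ _ 1 fun ε hε =>
    ⟨1, ?_⟩
  intro ι _ _ J1 C X κ S₀ hκ h1 h2 h3 h4 h5
  have key : (Fintype.piFinset C).filter (fun p => (NdC c.rc.Φ c.cl 1 S₀ (univ.image p) ∧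
      GT (hF c.m) (hF c.m c.d) (S₀ ∪ univ.image p)) ∧ c.Full (S₀ ∪ univ.image p)) =
      (Fintype.piFinset C).filter (fun p => NdC c.rc.Φ c.cl 1 S₀ (univ.image p) ∧
      GT (hF c.m) (hF c.m c.d) (S₀ ∪ univ.image p)) := by
    refine filter_congr fun p _ => ?_
    constructor
    · intro h
      exact h.1
    · intro h
      refine ⟨h, fun i => ?_⟩
      have h6 := h.1.2 i
      have h7 : 0 < ((univ.image p).filter fun q => c.cl i q).card := by omega
      obtain ⟨q, hq⟩ := card_pos.1 h7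
      obtain ⟨h8, h9⟩ := mem_filter.1 hq
      exact ⟨q, mem_union_right _ h8, h9⟩
  rw [key, one_mul, sub_self, abs_zero]
  have : (0 : ℝ) ≤ ∏ j, (X j : ℝ) := prod_nonneg fun _ _ => Nat.cast_nonneg _
  positivity

/-- the smallest Selmer group together with the full sets -/
theorem law_full (r : ℕ) :
    Tendsto (fun X : ℕ => (((SS c.rc.Φ X).filter fun S => GT (hF c.m) (hF c.m c.d) S ∧
        c.Dr r S ∧ c.Full S).card : ℝ) /
      (((SS c.rc.Φ X).filter (GT (hF c.m) (hF c.m c.d))).card : ℝ)) atTop (𝓝 (lam c.t r)) :=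
  squeeze (SS c.rc.Φ) (fun _ h => h.1) (fun _ h => h.1) (fun _ h h' => ⟨h.1, h.2, h'.2⟩)
    (fun _ h => ⟨h.1, h.2.1⟩) (c.law0 r) c.full_one

/-- the order of the dual Selmer group -/
noncomputable def nD (D : ℕ) : ℕ :=
  (SelS (-2 * (c.A * D)) ((c.A * D) ^ 2 - 4 * (c.B * (D : ℤ) ^ 2))).ncard

/-- the order of the Selmer group -/
noncomputable def nD0 (D : ℕ) : ℕ := (SelS (c.A * D) (c.B * (D : ℤ) ^ 2)).ncard

/-- both Selmer groups are as small as possible -/
def Sm (D : ℕ) : Prop := c.nD0 D = 2 ∧ c.nD D ≤ 2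

/-- the sufficient condition -/
def Sf (D : ℕ) : Prop := c.Dr 0 D.primeFactors ∧ c.Full D.primeFactors

theorem Sf_Sm (ht : c.t = 1) {D : ℕ} (hG : c.Dm D) (hP : c.Sf D) : c.Sm D := by
  obtain ⟨⟨k1, k2⟩, k3⟩ := (c.Dm_iff D).1 hG
  have k4 := (c.GT_iff k2).1 k3
  have e : pd D.primeFactors = (D : ℤ) := by
    unfold pd
    rw [Nat.prod_primeFactors_of_squarefree k1]
  have k5 := (c.ncard_SelS k2 k4).2
  obtain ⟨z₀, k6⟩ := c.dual_small k2 k4 hP.2 ht hP.1
  have k7 : finrank (ZMod 2) ((c.sy c.LL).Sel D.primeFactors) = 0 + 1 := hP.1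
  rw [e, k7] at k5
  refine ⟨k5, ?_⟩
  unfold DS at k6
  rw [e] at k6
  refine (Set.ncard_le_ncard k6 (Set.toFinite _)).trans ((Set.ncard_insert_le _ _).trans ?_)
  rw [Set.ncard_singleton]

/-- the law of the sufficient condition -/
theorem law_Sf :
    Tendsto (fun X : ℕ => (((Icc 1 X).filter fun D : ℕ => c.Dm D ∧ c.Sf D).card : ℝ) /
      (((Icc 1 X).filter fun D : ℕ => c.Dm D).card : ℝ)) atTop (𝓝 (lam c.t 0)) := by
  refine (c.law_full 0).congr fun X => ?_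
  rw [← card_nat c.rc.Φ X (fun S => GT (hF c.m) (hF c.m c.d) S ∧ c.Dr 0 S ∧ c.Full S),
    ← card_nat c.rc.Φ X (GT (hF c.m) (hF c.m c.d))]
  refine ratio (fun D => ?_) (fun D => ?_) _
  · rw [c.Dm_iff, and_assoc (b := GT (hF c.m) (hF c.m c.d) D.primeFactors)]
    rfl
  · exact (c.Dm_iff D).symm

/-- **both Selmer groups are as small as possible** -/
theorem law_small (ht : c.t = 1) :
    Tendsto (fun X : ℕ => (((Icc 1 X).filter fun D : ℕ => c.Dm D ∧ c.Sm D).card : ℝ) /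
      (((Icc 1 X).filter fun D : ℕ => c.Dm D).card : ℝ)) atTop (𝓝 (lam 1 0)) := by
  have h1 := c.law 0
  have h2 := c.law_Sf
  rw [ht] at h1 h2
  refine between (fun X => Icc 1 X) h2 h1 (fun X D _ h => ⟨h.1, c.Sf_Sm ht h.1 h.2⟩)
    fun X D _ h => ⟨h.1, ?_⟩
  exact h.2.1

end Cq

namespace Cz

variable (e : Cz)

/-- both Selmer groups are as small as possible -/
def SmD (D : ℤ) : Prop := e.nS D = 2 ∧ e.nS' D ≤ 2

theorem law_sm (g : GG e.m.primeFactors) {d₀ : ℕ} (hd₀ : d₀.Coprime e.m) (hs₀ : Squarefree d₀)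
    (ht : (e.cu g hd₀).t = 1) :
    Tendsto (fun X : ℕ => (((Sq X).filter fun D => Same e.a e.b (UU g * d₀) D ∧ e.SmD D).card : ℝ) /
      (((Sq X).filter fun D => Same e.a e.b (UU g * d₀) D).card : ℝ)) atTop (𝓝 (lam 1 0)) := by
  refine (((e.cu g hd₀).law_small ht).comp (e.tend_div g)).congr fun X => ?_
  refine congrArg₂ (fun x y : ℕ => (x : ℝ) / (y : ℝ)) ?_ ?_
  · refine (e.card_cls g hd₀ hs₀ X _ _ fun d => ?_).symm
    have e1 : (e.cu g hd₀).A * (d : ℤ) = e.a * (UU g * d) := by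
      show e.a * UU g * d = _
      ring
    have e2 : (e.cu g hd₀).B * (d : ℤ) ^ 2 = e.b * (UU g * d) ^ 2 := by
      show e.b * UU g ^ 2 * d ^ 2 = _
      ring
    unfold Cq.Sm SmD Cq.nD0 Cq.nD nS nS'
    rw [e1, e2]
  · exact (e.card_cls' g hd₀ hs₀ X).symm

theorem rs_pos {D : ℤ} (hD : Squarefree D) : 0 < e.rs D := by
  have hf := (e.rs_le hD).1
  have h1 : 0 < Nat.card {x : Sha (e.Ed D) // x + x = 0} := by
    have : Nonempty {x : Sha (e.Ed D) // x + x = 0} := ⟨⟨0, add_zero 0⟩⟩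
    exact Nat.card_pos
  unfold rs
  positivity

/-- rank `0` and trivial `2`-torsion of the Tate-Shafarevich group -/
def Rs1 (D : ℤ) : Prop := e.rs D = 1

/-- a root -/
theorem ex_root : ∃ x₁ : ℤ, x₁ ≠ 0 ∧ x₁ ^ 2 + e.a * x₁ + e.b = 0 := by
  obtain ⟨x, h1, h2⟩ := (e.cu 0 (Nat.coprime_one_left e.m)).ex_root
  refine ⟨x, h1, ?_⟩
  have e1 : (e.cu 0 (Nat.coprime_one_left e.m)).A = e.a := by
    show e.a * UU 0 = _
    rw [UU_zero, mul_one]
  have e2 : (e.cu 0 (Nat.coprime_one_left e.m)).B = e.b := by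
    show e.b * UU 0 ^ 2 = _
    rw [UU_zero]
    ring
  rw [e1, e2] at h2
  exact h2

/-- **the balanced classes** -/
theorem law_rs (g : GG e.m.primeFactors) {d₀ : ℕ} (hd₀ : d₀.Coprime e.m) (hs₀ : Squarefree d₀)
    (ht : (e.cu g hd₀).t = 1) (ht' : (e.cud g hd₀).t = 1) :
    Tendsto (fun X : ℕ => (((Sq X).filter fun D => Same e.a e.b (UU g * d₀) D ∧ e.Rs1 D).card : ℝ) /
      (((Sq X).filter fun D => Same e.a e.b (UU g * d₀) D).card : ℝ)) atTop (𝓝 (lam 1 0)) := by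
  have h1 := e.law_sm g hd₀ hs₀ ht
  have h2 := e.law_dual g hd₀ hs₀ 0
  rw [ht'] at h2
  obtain ⟨x₁, hx0, hx⟩ := e.ex_root
  obtain ⟨η, X₀, hη, hX₀⟩ := e.density (D₀ := UU g * d₀) (e.sqf_mul hd₀ hs₀)
  have hG : Tendsto (fun X : ℕ => (((Sq X).filter fun D => Same e.a e.b (UU g * d₀) D).card : ℝ))
      atTop atTop := by
    refine tendsto_atTop_mono' atTop ?_ (tendsto_natCast_atTop_atTop.const_mul_atTop hη)
    filter_upwards [eventually_ge_atTop X₀] with X hX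
    exact hX₀ X hX
  refine between' Sq (Icc (-(e.P + x₁.natAbs : ℤ)) (e.P + x₁.natAbs)) hG h1 h2
    (fun X D hD h => ⟨h.1, ?_⟩) fun X D hD h => ?_
  · have hsq := (mem_Sq.1 hD).2
    have k1 := e.rs_pos hsq
    have k2 := (e.rs_le hsq).2
    have k3 := h.2.1
    have k4 := h.2.2
    rw [k3] at k2
    show e.rs D = 1
    omega
  · by_cases hE : D ∈ Icc (-(e.P + x₁.natAbs : ℤ)) (e.P + x₁.natAbs)
    · exact Or.inr hE
    left
    refine ⟨h.1, ?_⟩
    have hsq := (mem_Sq.1 hD).2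
    have hbig : e.P + x₁.natAbs < D.natAbs := by
      rw [mem_Icc] at hE
      omega
    have k2 : e.rs D = 1 := h.2
    have k1 := e.nS'_le hsq hx (by
      rintro ⟨s, hs⟩
      have j1 : D ∣ s := (hsq.dvd_pow_iff_dvd two_ne_zero).1 ⟨x₁, by rw [sq, ← hs]; ring⟩
      obtain ⟨t, rfl⟩ := j1
      have j2 : x₁ = D * (t * t) := by
        apply mul_right_cancel₀ hsq.ne_zero
        rw [hs]
        ring
      have j3 : D.natAbs ∣ x₁.natAbs := by
        rw [j2, Int.natAbs_mul]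
        exact Dvd.intro _ rfl
      have j4 := Nat.le_of_dvd (Int.natAbs_pos.2 hx0) j3
      omega)
    obtain ⟨r, hr⟩ := ((e.pow_nS hsq).2.2 (by omega)).2
    rw [k2, hr] at k1
    have k3 : r = 0 := by
      by_contra h0
      have : 2 ^ 2 ≤ 2 ^ (r + 1) := Nat.pow_le_pow_right (by norm_num) (by omega)
      omega
    rw [k3] at hr
    exact hr

/-- **all the facts on a local class** -/
theorem facts {D₀ : ℤ} (h : Squarefree D₀) :
    (0 < e.tau D₀ ∧ 0 < e.tau' D₀) ∧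
    (∀ r, e.Prp D₀ (fun D => e.nS D = 2 ^ (r + 1)) (lam (e.tau D₀) r)) ∧
    (∀ r, e.Prp D₀ (fun D => e.nS' D = 2 ^ (r + 1)) (lam (e.tau' D₀) r)) ∧
    (e.tau D₀ = 1 → e.tau' D₀ = 1 → e.Prp D₀ (fun D => e.rs D = 1) (lam 1 0)) := by
  obtain ⟨g, d, h1, h2, rfl⟩ := e.dec h
  rw [← e.t_cu g h2, ← e.t_cud g h2]
  exact ⟨⟨(e.cu g h2).t_pos, (e.cud g h2).t_pos⟩, fun r => e.prp_mk (e.law g h2 h1 r),
    fun r => e.prp_mk (e.law_dual g h2 h1 r), fun k1 k2 => e.prp_mk (e.law_rs g h2 h1 k1 k2)⟩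

end Cz

end Q44.BS
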