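import Pool.Agent.Q44.BS.Bal
import Pool.Agent.Q44.BN.Pub

/-!
# Complements for the final statements
-/

set_option autoImplicit false

open scoped Classical

namespace Q44.BS

open Finset Module Filter Topology
open Q44.BC (lam)
open Q44.BN

namespace Cz

variable (e : Cz)

/-- a root times a squarefree integer of large absolute value is not a square -/
theorem nsq_big {x₁ D : ℤ} (hx0 : x₁ ≠ 0) (hsq : Squarefree D) (h : x₁.natAbs < D.natAbs) :
    ¬ IsSquare (x₁ * D) := by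
  rintro ⟨s, hs⟩
  have j1 : D ∣ s := (hsq.dvd_pow_iff_dvd two_ne_zero).1 ⟨x₁, by rw [sq, ← hs]; ring⟩
  obtain ⟨t, rfl⟩ := j1
  have j2 : x₁ = D * (t * t) := by
    apply mul_right_cancel₀ hsq.ne_zero
    rw [hs]
    ring
  have j3 : D.natAbs ∣ x₁.natAbs := by
    rw [j2, Int.natAbs_mul]
    exact Dvd.intro _ rfl
  have j4 := Nat.le_of_dvd (Int.natAbs_pos.2 hx0) j3
  omega

/-- large values -/
theorem large {D₀ : ℤ} (h : Squarefree D₀) (T : ℕ) : ∃ η : ℝ, 0 < η ∧ ∀ᶠ X : ℕ in atTop,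
    η * (X : ℝ) ≤ (((Sq X).filter fun D => Same e.a e.b D₀ D ∧ 2 ^ T ≤ e.rs D).card : ℝ) := by
  obtain ⟨⟨-, ht⟩, -, hl, -⟩ := e.facts h
  obtain ⟨r, hr, hrT⟩ := ((lam_pos_ev ht).and (eventually_ge_atTop T)).exists
  obtain ⟨η, X₀, hη, hX₀⟩ := e.density h
  obtain ⟨x₁, hx0, hx⟩ := e.ex_root
  set E : Finset ℤ := Icc (-(x₁.natAbs : ℤ)) x₁.natAbs with hE
  set θ : ℝ := η * (lam (e.tau' D₀) r / 2) with hθ
  have hθ0 : 0 < θ := by positivity
  refine ⟨θ / 2, by positivity, ?_⟩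
  have hbig : ∀ᶠ X : ℕ in atTop, (E.card : ℝ) ≤ θ / 2 * X :=
    (tendsto_natCast_atTop_atTop.const_mul_atTop (half_pos hθ0)).eventually_ge_atTop _
  filter_upwards [(hl r).eventually (lt_mem_nhds (show lam (e.tau' D₀) r / 2 < lam (e.tau' D₀) r by
    linarith)), eventually_ge_atTop X₀, eventually_ge_atTop 1, hbig] with X hX hX0 hX1 hXE
  have h1 := hX₀ X hX0
  have hX1' : (1 : ℝ) ≤ X := by exact_mod_cast hX1
  have hN : (0 : ℝ) < (((Sq X).filter fun D => Same e.a e.b D₀ D).card : ℝ) := by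
    refine lt_of_lt_of_le ?_ h1
    positivity
  rw [lt_div_iff₀ hN] at hX
  have h2 : (((Sq X).filter fun D => Same e.a e.b D₀ D ∧ e.nS' D = 2 ^ (r + 1)).card : ℝ) ≤
      (((Sq X).filter fun D => Same e.a e.b D₀ D ∧ 2 ^ T ≤ e.rs D).card : ℝ) + E.card := by
    have h2' : (Sq X).filter (fun D => Same e.a e.b D₀ D ∧ e.nS' D = 2 ^ (r + 1)) ⊆
        (Sq X).filter (fun D => Same e.a e.b D₀ D ∧ 2 ^ T ≤ e.rs D) ∪ E := by
      intro D hD
      rw [mem_filter] at hD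
      rw [mem_union, mem_filter]
      by_cases hDE : D ∈ E
      · exact Or.inr hDE
      left
      refine ⟨hD.1, hD.2.1, ?_⟩
      have hDsq := (mem_Sq.1 hD.1).2
      have h3 := e.nS'_le hDsq hx (nsq_big hx0 hDsq (by
        rw [hE, mem_Icc] at hDE
        omega))
      rw [hD.2.2, pow_succ] at h3
      have h4 : 2 ^ T ≤ 2 ^ r := Nat.pow_le_pow_right (by norm_num) hrT
      omega
    exact_mod_cast (card_le_card h2').trans (card_union_le _ _)
  have h4 : lam (e.tau' D₀) r / 2 * (η * X) ≤ lam (e.tau' D₀) r / 2 *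
      (((Sq X).filter fun D => Same e.a e.b D₀ D).card : ℝ) :=
    mul_le_mul_of_nonneg_left h1 (by positivity)
  have h5 : θ * X = lam (e.tau' D₀) r / 2 * (η * X) := by
    rw [hθ]
    ring
  have h6 : lam (e.tau' D₀) r / 2 * (((Sq X).filter fun D => Same e.a e.b D₀ D).card : ℝ) ≤
      (((Sq X).filter fun D => Same e.a e.b D₀ D ∧ e.nS' D = 2 ^ (r + 1)).card : ℝ) := by
    refine hX.le.trans (le_of_eq ?_)
    exact congrArg Nat.cast (cardS (fun D => Iff.rfl) _)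
  linarith

end Cz

end Q44.BS
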