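import Pool.Agent.Q44.BS.Two
import Pool.Agent.Q44.BS.Pub

/-!
# Every curve has balanced local classes
-/

set_option autoImplicit false

open scoped Classical

namespace Q44.BS

open Finset Filter Topology
open Q44.BC (lam)
open Q44.TI (Loc padic_sq padic_sq2 Loc_of_sq Loc_real nz_of)
open Q44.BN Q44.BP

theorem tm_of {S : Finset ℕ} (h2S : 2 ∈ S) {A B : ℤ} {u v : ℕ} (h2 : imc A B 2 = u)
    (hp : ∀ p ∈ S, p ≠ 2 → imc A B p = 2) (hr : Nat.card (im ℝ A B) = v) (huv : u * v = 4) :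
    tm S A B = 1 := by
  unfold tm
  rw [← mul_prod_erase S _ h2S, h2, hr, prod_congr rfl fun p hp' =>
    hp p (mem_of_mem_erase hp') (ne_of_mem_erase hp'), prod_const, card_erase_of_mem h2S]
  have h3 : 1 ≤ S.card := card_pos.2 ⟨2, h2S⟩
  obtain ⟨n, hn⟩ : ∃ n, S.card = n + 1 := ⟨S.card - 1, by omega⟩
  rw [hn, Nat.add_sub_cancel]
  have h4 : u * 2 ^ n * v = 2 ^ (n + 1 + 1) := by
    rw [pow_succ, pow_succ]
    calc u * 2 ^ n * v = (u * v) * 2 ^ n := by ring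
      _ = _ := by rw [huv]; ring
  rw [h4]
  push_cast
  exact div_self (by positivity)

section

variable {r s δ : ℤ}

theorem neg_ne {A B : ℤ} (_h : A ^ 2 - 4 * B ≠ 0) (hB : B ≠ 0) :
    (-2 * A) ^ 2 - 4 * (A ^ 2 - 4 * B) ≠ 0 := by
  have e : (-2 * A) ^ 2 - 4 * (A ^ 2 - 4 * B) = 16 * B := by ring
  rw [e]
  exact mul_ne_zero (by norm_num) hB

/-- the curve and its constants are not zero -/
theorem rs_ne (hr : r ≠ 0) (hs : s ≠ 0) (h1 : r + s ≠ 0) (h2 : r - s ≠ 0) (hδ : δ ≠ 0) :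
    (r * s * δ) ^ 2 ≠ 0 ∧ ((r ^ 2 + s ^ 2) * δ) ^ 2 - 4 * (r * s * δ) ^ 2 ≠ 0 := by
  refine ⟨pow_ne_zero 2 (mul_ne_zero (mul_ne_zero hr hs) hδ), ?_⟩
  have e : ((r ^ 2 + s ^ 2) * δ) ^ 2 - 4 * (r * s * δ) ^ 2 = ((r + s) * (r - s) * δ) ^ 2 := by ring
  rw [e]
  exact pow_ne_zero 2 (mul_ne_zero (mul_ne_zero h1 h2) hδ)

/-- the odd primes -/
theorem imc_odd (hr : r ≠ 0) (hs : s ≠ 0) (h1 : r + s ≠ 0) (h2 : r - s ≠ 0) (hδ : Squarefree δ)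
    {p : ℕ} (hp : p.Prime) (hp2 : p ≠ 2) (hd : (p : ℤ) ∣ δ) :
    imc ((r ^ 2 + s ^ 2) * δ) ((r * s * δ) ^ 2) p = 2 ∧
    imc (-2 * ((r ^ 2 + s ^ 2) * δ)) (((r ^ 2 + s ^ 2) * δ) ^ 2 - 4 * (r * s * δ) ^ 2) p = 2 := by
  have : Fact p.Prime := ⟨hp⟩
  have hδ0 := hδ.ne_zero
  obtain ⟨hB, hC⟩ := rs_ne hr hs h1 h2 hδ0
  have hδK : ((δ : ℤ) : ℚ_[p]) ≠ 0 := by exact_mod_cast hδ0
  obtain ⟨m, hm⟩ := hd
  have hpm : ¬ (p : ℤ) ∣ m := by
    rintro ⟨w, rfl⟩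
    have h3 : (p : ℤ) * p ∣ δ := ⟨w, by rw [hm]; ring⟩
    have h4 := hδ _ h3
    rw [Int.isUnit_iff] at h4
    have := hp.one_lt
    omega
  have n1 : ¬ IsSquare ((δ : ℤ) : ℚ_[p]) := by
    rw [hm]
    exact nsq_p hpm
  have n2 : ¬ IsSquare ((-δ : ℤ) : ℚ_[p]) := by
    have e : -δ = (p : ℤ) * -m := by rw [hm]; ring
    rw [e]
    exact nsq_p (by rwa [dvd_neg])
  have l1 : Loc ℚ_[p] ((r ^ 2 + s ^ 2) * δ) ((r * s * δ) ^ 2) (-δ) :=
    loc_a hδK (by exact_mod_cast hr)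
  have l2 : Loc ℚ_[p] (-2 * ((r ^ 2 + s ^ 2) * δ))
      (((r ^ 2 + s ^ 2) * δ) ^ 2 - 4 * (r * s * δ) ^ 2) δ := loc_d hδK (by exact_mod_cast h1)
  rw [imc_pos, imc_pos]
  exact ⟨card_two_p hp2 hB hC (neg_ne_zero.2 hδ0) hδ0 l1 l2 n2 n1,
    card_two_p' hp2 hB hC (neg_ne_zero.2 hδ0) hδ0 l1 l2 n2 n1⟩

/-- **balanced classes** -/
theorem bal {S : Finset ℕ} (h2S : 2 ∈ S) (hr : r ≠ 0) (hs : s ≠ 0) (h1 : r + s ≠ 0)
    (h2 : r - s ≠ 0) (hrs : r % 2 = 1 ∨ s % 2 = 1) (hδ : Squarefree δ)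
    (hS : ∀ p ∈ S, p.Prime ∧ (p : ℤ) ∣ δ) (hpos : (r + s) % 2 = 0 → 0 < δ)
    (hneg : (r + s) % 2 = 1 → δ < 0) :
    tm S ((r ^ 2 + s ^ 2) * δ) ((r * s * δ) ^ 2) = 1 ∧
    tm S (-2 * ((r ^ 2 + s ^ 2) * δ)) (((r ^ 2 + s ^ 2) * δ) ^ 2 - 4 * (r * s * δ) ^ 2) = 1 := by
  have hδ0 := hδ.ne_zero
  have : Fact (2 : ℕ).Prime := ⟨Nat.prime_two⟩
  obtain ⟨hB, hC⟩ := rs_ne hr hs h1 h2 hδ0
  have hC' := neg_ne hC hB
  have hB0 : 0 < (r * s * δ) ^ 2 := lt_of_le_of_ne (sq_nonneg _) hB.symm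
  have hC0 : 0 < ((r ^ 2 + s ^ 2) * δ) ^ 2 - 4 * (r * s * δ) ^ 2 := by
    have e : ((r ^ 2 + s ^ 2) * δ) ^ 2 - 4 * (r * s * δ) ^ 2 = ((r + s) * (r - s) * δ) ^ 2 := by
      ring
    rw [e] at hC ⊢
    exact lt_of_le_of_ne (sq_nonneg _) hC.symm
  have hr2 : 0 < r ^ 2 + s ^ 2 := by positivity
  have hd2 : (2 : ℤ) ∣ δ := (hS 2 h2S).2
  have hδ4 : δ % 4 = 2 := by
    by_contra h
    have h3 : (2 : ℤ) * 2 ∣ δ := by
      obtain ⟨w, hw⟩ := hd2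
      omega
    have h4 := hδ _ h3
    rw [Int.isUnit_iff] at h4
    omega
  have hodd := fun p (hp : p ∈ S) (hp2 : p ≠ 2) =>
    imc_odd hr hs h1 h2 hδ (hS p hp).1 hp2 (hS p hp).2
  have hroot : ((-((r : ℝ) ^ 2 * δ)) ^ 3 + (((r ^ 2 + s ^ 2) * δ : ℤ) : ℝ) * (-((r : ℝ) ^ 2 * δ)) ^ 2 +
      (((r * s * δ) ^ 2 : ℤ) : ℝ) * (-((r : ℝ) ^ 2 * δ))) = 0 := by
    push_cast
    ring
  have hroot' : ((((r : ℝ) + s) ^ 2 * δ) ^ 3 + ((-2 * ((r ^ 2 + s ^ 2) * δ) : ℤ) : ℝ) *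
      (((r : ℝ) + s) ^ 2 * δ) ^ 2 +
      ((((r ^ 2 + s ^ 2) * δ) ^ 2 - 4 * (r * s * δ) ^ 2 : ℤ) : ℝ) * (((r : ℝ) + s) ^ 2 * δ)) = 0 := by
    push_cast
    ring
  have hrR : (0 : ℝ) < (r : ℝ) ^ 2 := by
    have : (r : ℝ) ≠ 0 := by exact_mod_cast hr
    positivity
  have hrsR : (0 : ℝ) < ((r : ℝ) + s) ^ 2 := by
    have : (r : ℝ) + s ≠ 0 := by exact_mod_cast h1
    positivity
  rcases Int.emod_two_eq_zero_or_one (r + s) with hpar | hpar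
  · -- both odd
    have hδp := hpos hpar
    obtain ⟨ρ, hρ⟩ : ∃ ρ, r + s = 2 * ρ := ⟨(r + s) / 2, by omega⟩
    obtain ⟨σ, hσ⟩ : ∃ σ, r - s = 2 * σ := ⟨(r - s) / 2, by omega⟩
    have er : r = ρ + σ := by linarith
    have es : s = ρ - σ := by linarith
    have hρ0 : ρ ≠ 0 := by
      rintro rfl
      exact h1 (by rw [hρ]; ring)
    have hσ0 : σ ≠ 0 := by
      rintro rfl
      exact h2 (by rw [hσ]; ring)
    have hpar' : (ρ + σ) % 2 = 1 := by omega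
    have hδ' : (-δ) % 4 = 2 := by omega
    have k1 := im_two (δ := -δ) hδ' hpar' hρ0 hσ0
    have k2 := im_two' (δ := -δ) hδ' hpar' hρ0 hσ0
    have e1 : -2 * ((ρ ^ 2 + σ ^ 2) * -δ) = (r ^ 2 + s ^ 2) * δ := by rw [er, es]; ring
    have e2 : ((ρ ^ 2 + σ ^ 2) * -δ) ^ 2 - 4 * (ρ * σ * -δ) ^ 2 = (r * s * δ) ^ 2 := by
      rw [er, es]; ring
    have e3 : ((ρ ^ 2 + σ ^ 2) * -δ) * 2 ^ 2 = -2 * ((r ^ 2 + s ^ 2) * δ) := by rw [er, es]; ring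
    have e4 : (ρ * σ * -δ) ^ 2 * 2 ^ 4 = ((r ^ 2 + s ^ 2) * δ) ^ 2 - 4 * (r * s * δ) ^ 2 := by
      rw [er, es]; ring
    rw [e1, e2] at k2
    have k3 := im_scale (K := ℚ_[2]) (A := (ρ ^ 2 + σ ^ 2) * -δ) (B := (ρ * σ * -δ) ^ 2) (s := 2)
      (by norm_num)
    rw [e3, e4] at k3
    rw [← k3] at k1
    have hδR : (0 : ℝ) < δ := by exact_mod_cast hδp
    constructor
    · refine tm_of h2S (u := 2) (v := 2) ?_ (fun p hp hp2 => (hodd p hp hp2).1) ?_ (by norm_num)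
      · rw [imc_pos]
        exact k2
      · refine card_real_two hB hC ⟨-((r : ℝ) ^ 2 * δ), ?_, hroot.ge⟩
        nlinarith
    · refine tm_of h2S (u := 4) (v := 1) ?_ (fun p hp hp2 => (hodd p hp hp2).2) ?_ (by norm_num)
      · rw [imc_pos]
        exact k1
      · refine card_real_one ?_ hC0 hC'
        nlinarith
  · -- opposite parity
    have hδn := hneg hpar
    have k1 := im_two (δ := δ) hδ4 hpar hr hs
    have k2 := im_two' (δ := δ) hδ4 hpar hr hs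
    have hδR : (δ : ℝ) < 0 := by exact_mod_cast hδn
    constructor
    · refine tm_of h2S (u := 4) (v := 1) ?_ (fun p hp hp2 => (hodd p hp hp2).1) ?_ (by norm_num)
      · rw [imc_pos]
        exact k1
      · refine card_real_one ?_ hB0 hC
        nlinarith
    · refine tm_of h2S (u := 2) (v := 2) ?_ (fun p hp hp2 => (hodd p hp hp2).2) ?_ (by norm_num)
      · rw [imc_pos]
        exact k2
      · refine card_real_two hC hC' ⟨((r : ℝ) + s) ^ 2 * δ, ?_, hroot'.ge⟩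
        nlinarith

end

/-- the parameters of a curve -/
theorem param {a b : ℤ} (hb0 : b ≠ 0) (hb : IsSquare b) (hc : a ^ 2 - 4 * b ≠ 0) {x₁ : ℤ}
    (hx : x₁ ^ 2 + a * x₁ + b = 0) : ∃ k g r s : ℤ, Squarefree k ∧ g ≠ 0 ∧ r ≠ 0 ∧ s ≠ 0 ∧
      r + s ≠ 0 ∧ r - s ≠ 0 ∧ (r % 2 = 1 ∨ s % 2 = 1) ∧ a = k * g ^ 2 * (r ^ 2 + s ^ 2) ∧
      b = (k * g ^ 2 * (r * s)) ^ 2 := by
  obtain ⟨β, hβ⟩ := hb
  have hx0 : x₁ ≠ 0 := by
    rintro rfl
    apply hb0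
    linear_combination hx
  set y : ℤ := a + x₁ with hy
  have hxy : -x₁ * y = b := by rw [hy]; linear_combination -hx
  have hay : a = -x₁ + y := by rw [hy]; ring
  have hy0 : y ≠ 0 := by
    intro h
    rw [h, mul_zero] at hxy
    exact hb0 hxy.symm
  -- the squarefree part
  obtain ⟨k, r₀, hk, hr₀, hkr⟩ : ∃ k r₀ : ℤ, Squarefree k ∧ r₀ ≠ 0 ∧ -x₁ = k * r₀ ^ 2 := by
    obtain ⟨u, v, huv, hu⟩ := Nat.sq_mul_squarefree (-x₁).natAbs
    have hv0 : v ≠ 0 := by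
      rintro rfl
      rw [zero_pow two_ne_zero, zero_mul] at huv
      exact neg_ne_zero.2 hx0 (Int.natAbs_eq_zero.1 huv.symm)
    have hv0' : ((v : ℕ) : ℤ) ≠ 0 := by exact_mod_cast hv0
    rcases Int.natAbs_eq (-x₁) with h | h
    · refine ⟨u, v, Int.squarefree_natCast.2 hu, hv0', ?_⟩
      rw [h, ← huv]
      push_cast
      ring
    · refine ⟨-u, v, ?_, hv0', ?_⟩
      · rw [← Int.squarefree_natAbs, Int.natAbs_neg, Int.natAbs_natCast]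
        exact hu
      · rw [h, ← huv]
        push_cast
        ring
  have h1 : r₀ ∣ β := by
    have : r₀ ^ 2 ∣ β ^ 2 := ⟨k * y, by rw [sq β, ← hβ, ← hxy, hkr]; ring⟩
    exact (Int.pow_dvd_pow_iff two_ne_zero).1 this
  obtain ⟨γ, rfl⟩ := h1
  have h2 : k * y = γ ^ 2 := by
    have h3 : r₀ ^ 2 ≠ 0 := pow_ne_zero 2 hr₀
    apply mul_left_cancel₀ h3
    linear_combination hxy + hβ - y * hkr
  have h3 : k ∣ γ := (hk.dvd_pow_iff_dvd two_ne_zero).1 ⟨y, h2.symm⟩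
  obtain ⟨s₀, rfl⟩ := h3
  have h4 : y = k * s₀ ^ 2 := by
    apply mul_left_cancel₀ hk.ne_zero
    rw [h2]
    ring
  have hs₀ : s₀ ≠ 0 := by
    rintro rfl
    exact hy0 (by rw [h4]; ring)
  -- the common divisor
  have hg0 : (Int.gcd r₀ s₀ : ℤ) ≠ 0 := by
    have : Int.gcd r₀ s₀ ≠ 0 := fun h => hr₀ (Int.gcd_eq_zero_iff.1 h).1
    exact_mod_cast this
  obtain ⟨r, hr⟩ := Int.gcd_dvd_left r₀ s₀
  obtain ⟨s, hs⟩ := Int.gcd_dvd_right r₀ s₀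
  set g : ℤ := (Int.gcd r₀ s₀ : ℤ) with hg
  have hcop : Int.gcd r s = 1 := by
    have h5 : Int.gcd (g * r) (g * s) = g.natAbs * Int.gcd r s := Int.gcd_mul_left _ _ _
    rw [← hr, ← hs, hg, Int.natAbs_natCast] at h5
    have h6 : 0 < Int.gcd r₀ s₀ := Nat.pos_of_ne_zero (by
      rw [hg] at hg0
      exact_mod_cast hg0)
    nlinarith
  have ha : a = k * g ^ 2 * (r ^ 2 + s ^ 2) := by
    rw [hay, hkr, h4, hr, hs]
    ring
  have hb' : b = (k * g ^ 2 * (r * s)) ^ 2 := by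
    rw [← hxy, hkr, h4, hr, hs]
    ring
  have hrs2 : (k * g ^ 2 * ((r + s) * (r - s))) ^ 2 ≠ 0 := by
    intro h
    apply hc
    rw [ha, hb', ← h]
    ring
  have hrs3 : (r + s) * (r - s) ≠ 0 := by
    intro h
    apply hrs2
    rw [h]
    ring
  refine ⟨k, g, r, s, hk, hg0, ?_, ?_, left_ne_zero_of_mul hrs3, right_ne_zero_of_mul hrs3, ?_, ha,
    hb'⟩
  · rintro rfl
    exact hr₀ (by rw [hr]; ring)
  · rintro rfl
    exact hs₀ (by rw [hs]; ring)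
  · by_contra h
    have h5 : (2 : ℤ) ∣ r := by omega
    have h6 : (2 : ℤ) ∣ s := by omega
    have h7 := Int.dvd_coe_gcd h5 h6
    rw [hcop] at h7
    omega

namespace Cz

variable (e : Cz)

theorem bad_prime {p : ℕ} (hp : p ∈ e.bad) : p.Prime := Nat.prime_of_mem_primeFactors hp

theorem two_bad : 2 ∈ e.bad := by
  refine Nat.mem_primeFactors.2 ⟨Nat.prime_two, ?_, Int.natAbs_ne_zero.2 e.N0⟩
  unfold N2
  rw [Int.natAbs_mul]
  exact Dvd.intro _ rfl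

/-- **every curve has balanced classes** -/
theorem ex_bal : ∃ D₀ : ℤ, Squarefree D₀ ∧ e.tau D₀ = 1 ∧ e.tau' D₀ = 1 := by
  obtain ⟨x₁, -, hx⟩ := e.ex_root
  obtain ⟨k, g, r, s, hk, hg, hr, hs, h1, h2, hrs, ha, hb⟩ := param e.hb0 e.hb e.hc hx
  set n : ℕ := ∏ p ∈ e.bad, p with hn
  have hnp : ∀ p ∈ e.bad, p.Prime := fun p hp => e.bad_prime hp
  have hnsq : Squarefree n := Q44.TI.sqf_prod hnp
  have hkn : k.natAbs ∣ n := by
    have hks : Squarefree k.natAbs := Int.squarefree_natAbs.2 hk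
    rw [← Nat.prod_primeFactors_of_squarefree hks]
    refine Finset.prod_dvd_prod_of_subset _ _ _ fun p hp => ?_
    have hpp := Nat.prime_of_mem_primeFactors hp
    refine Nat.mem_primeFactors.2 ⟨hpp, ?_, Int.natAbs_ne_zero.2 e.N0⟩
    rw [← Int.natCast_dvd]
    have h3 : (p : ℤ) ∣ k := Int.natCast_dvd.2 (Nat.dvd_of_mem_primeFactors hp)
    have h4 : (p : ℤ) ∣ e.b := by
      rw [hb, sq]
      exact ((h3.mul_right _).mul_right _).mul_right _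
    unfold N2
    exact (h4.mul_right _).mul_left _
  obtain ⟨n', hn'⟩ := hkn
  obtain ⟨ε, hε1, hε2⟩ : ∃ ε : ℤ, (ε = 1 ∨ ε = -1) ∧ (((r + s) % 2 = 0 → ε = 1) ∧
      ((r + s) % 2 = 1 → ε = -1)) := by
    rcases Int.emod_two_eq_zero_or_one (r + s) with h | h
    · exact ⟨1, Or.inl rfl, fun _ => rfl, fun h' => by omega⟩
    · exact ⟨-1, Or.inr rfl, fun h' => by omega, fun _ => rfl⟩
  have hεu : IsUnit ε := Int.isUnit_iff.2 hε1
  set D₀ : ℤ := ε * Int.sign k * n' with hD₀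
  set δ : ℤ := ε * n with hδ
  have hn0 : (0 : ℤ) < n := by exact_mod_cast Nat.pos_of_ne_zero hnsq.ne_zero
  have hkD : k * D₀ = δ := by
    rw [hD₀, hδ, hn']
    push_cast
    rw [← Int.sign_mul_self_eq_abs, Int.sign_mul_self_eq_abs]
    have h3 : k * Int.sign k = |k| := by rw [mul_comm]; exact Int.sign_mul_self_eq_abs k
    linear_combination ε * n' * h3
  have hδsq : Squarefree δ := by
    rw [← Int.squarefree_natAbs, hδ, Int.natAbs_mul, Int.natAbs_natCast]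
    have : ε.natAbs = 1 := Int.isUnit_iff_natAbs_eq.1 hεu
    rw [this, one_mul]
    exact hnsq
  have hDsq : Squarefree D₀ := hδsq.squarefree_of_dvd ⟨k, by rw [← hkD]; ring⟩
  have hB := bal e.two_bad hr hs h1 h2 hrs hδsq (fun p hp => ⟨hnp p hp, by
    rw [hδ]
    exact (Int.natCast_dvd_natCast.2 (Finset.dvd_prod_of_mem _ hp)).mul_left _⟩)
    (fun h => by rw [hδ, hε2.1 h, one_mul]; exact hn0) (fun h => by
      rw [hδ, hε2.2 h, neg_one_mul]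
      linarith)
  have e1 : e.a * D₀ = ((r ^ 2 + s ^ 2) * δ) * g ^ 2 := by
    rw [ha, ← hkD]
    ring
  have e2 : e.b * D₀ ^ 2 = (r * s * δ) ^ 2 * g ^ 4 := by
    rw [hb, ← hkD]
    ring
  have e3 : -2 * (e.a * D₀) = (-2 * ((r ^ 2 + s ^ 2) * δ)) * g ^ 2 := by
    rw [e1]
    ring
  have e4 : (e.a * D₀) ^ 2 - 4 * (e.b * D₀ ^ 2) =
      (((r ^ 2 + s ^ 2) * δ) ^ 2 - 4 * (r * s * δ) ^ 2) * g ^ 4 := by
    rw [e1, e2]
    ring
  refine ⟨D₀, hDsq, ?_, ?_⟩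
  · unfold tau
    rw [e1, e2, tm_scale _ hg]
    exact hB.1
  · unfold tau'
    rw [e4, e3, tm_scale _ hg]
    exact hB.2

/-- **a positive proportion of the twists is trivial** -/
theorem pos_triv : ∃ η : ℝ, 0 < η ∧ ∀ᶠ X : ℕ in atTop,
    η * (X : ℝ) ≤ (((Sq X).filter fun D => e.rs D = 1).card : ℝ) := by
  obtain ⟨D₀, hD, t1, t2⟩ := e.ex_bal
  obtain ⟨-, -, -, h⟩ := e.facts hD
  have h1 := h t1 t2
  obtain ⟨η, X₀, hη, hX₀⟩ := e.density hD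
  have hl : 0 < lam 1 0 := by
    have := lam_one.1
    linarith
  refine ⟨lam 1 0 / 2 * η, by positivity, ?_⟩
  filter_upwards [h1.eventually (lt_mem_nhds (half_lt_self hl)), eventually_ge_atTop X₀,
    eventually_ge_atTop 1] with X hX hX0 hX1
  have h2 := hX₀ X hX0
  have hX1' : (1 : ℝ) ≤ X := by exact_mod_cast hX1
  have hN : (0 : ℝ) < (((Sq X).filter fun D => Same e.a e.b D₀ D).card : ℝ) := by
    refine lt_of_lt_of_le ?_ h2
    positivity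
  rw [lt_div_iff₀ hN] at hX
  have h3 : (((Sq X).filter fun D => Same e.a e.b D₀ D ∧ e.rs D = 1).card : ℝ) ≤
      (((Sq X).filter fun D => e.rs D = 1).card : ℝ) := by
    refine Nat.cast_le.2 (card_le_card fun D hD => ?_)
    rw [mem_filter] at hD ⊢
    exact ⟨hD.1, hD.2.2⟩
  calc lam 1 0 / 2 * η * (X : ℝ) = lam 1 0 / 2 * (η * X) := by ring
    _ ≤ lam 1 0 / 2 * (((Sq X).filter fun D => Same e.a e.b D₀ D).card : ℝ) :=
        mul_le_mul_of_nonneg_left h2 (by positivity)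
    _ ≤ _ := hX.le.trans (le_trans (le_of_eq (congrArg Nat.cast (cardS (fun D => Iff.rfl) _))) h3)

end Cz

end Q44.BS
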