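import Pool.Agent.Q44.BS.Sy

/-!
# The Selmer group and the solutions of the system
-/

set_option autoImplicit false
set_option linter.unusedSectionVars false
set_option linter.unusedVariables false

open scoped Classical

namespace Q44.BS

open Finset Module
open Pool.Agent.Y703.CQ (nr)
open Q44.TK (Fm hF hF_pos hF_mul hF_sum hF_eq hF_one Fm_two)
open Q44.BM (vm Fam RC Sys)
open Q44.TI (Loc pd ch ch_zero ch_mul ch_pd nr_ch dvd_pd_iff pd_pos not_dvd_pd nz_of cop_mod jac_mod fd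
  SelS)
open Q44.BN


namespace Cq

variable (c : Cq)

/-- the rows -/
theorem row_iff {S J : Finset ℕ} (hJ : ∀ q ∈ J, q ∈ S ∧ Ac c.A c.B q)
    (g : GG c.T) (L : Submodule (ZMod 2) (GG c.T × c.FA)) :
    (∀ p ∈ S, c.rc.Φ.A p → ∑ q ∈ S, nr p q * (ind J q + ind J p) + (c.sy L).f p * ind J p +
      (c.sy L).χ g ((c.sy L).h p) = 0) ↔ Row c.A c.B S J (UU g) := by
  have hJS : J ⊆ S := fun q hq => (hJ q hq).1
  have k1 : ∀ p, Ac c.A c.B p → p ∉ J →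
      ∑ q ∈ S, nr p q * (ind J q + ind J p) + (c.sy L).f p * ind J p +
      (c.sy L).χ g ((c.sy L).h p) = ch ((UU g : ℤ) : ZMod p) + ∑ j ∈ J, nr p j := by
    intro p hp hpJ
    have h1 : (c.sy L).χ g ((c.sy L).h p) = ch ((UU g : ℤ) : ZMod p) := c.chi_hA g hp
    have h2 : ind J p = 0 := if_neg hpJ
    rw [h1, h2]
    have h3 : ∑ q ∈ S, nr p q * (ind J q + 0) = ∑ j ∈ J, nr p j := by
      rw [← sum_ind hJS fun q => nr p q]
      refine sum_congr rfl fun q _ => ?_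
      rw [smul_eq_mul]
      ring
    rw [h3]
    ring
  have k2 : ∀ p ∈ J,
      ∑ q ∈ S, nr p q * (ind J q + ind J p) + (c.sy L).f p * ind J p +
      (c.sy L).χ g ((c.sy L).h p) = fd c.A c.B p + ch ((UU g : ℤ) : ZMod p) +
        ∑ q ∈ S \ J, nr p q := by
    intro p hp
    have h1 : (c.sy L).χ g ((c.sy L).h p) = ch ((UU g : ℤ) : ZMod p) := c.chi_hA g (hJ p hp).2
    have h2 : ind J p = 1 := if_pos hp
    have h0 : (c.sy L).f p = fd c.A c.B p := rfl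
    rw [h1, h2, h0]
    have h3 : ∑ q ∈ S, nr p q * (ind J q + 1) = ∑ q ∈ S \ J, nr p q := by
      rw [← sum_sdiff hJS]
      have e1 : ∑ q ∈ J, nr p q * (ind J q + 1) = 0 := by
        refine sum_eq_zero fun q hq => ?_
        have : ind J q = 1 := if_pos hq
        rw [this, CharTwo.add_self_eq_zero, mul_zero]
      have e2 : ∑ q ∈ S \ J, nr p q * (ind J q + 1) = ∑ q ∈ S \ J, nr p q := by
        refine sum_congr rfl fun q hq => ?_
        have : ind J q = 0 := if_neg (mem_sdiff.1 hq).2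
        rw [this, zero_add, mul_one]
      rw [e1, e2, add_zero]
    rw [h3]
    ring
  constructor
  · intro h
    refine ⟨fun i hi ha hiJ => ?_, fun i hi => ?_⟩
    · rw [← k1 i ha hiJ]
      exact h i hi ((c.A_iff i).2 ha)
    · rw [← k2 i hi]
      exact h i (hJS hi) ((c.A_iff i).2 (hJ i hi).2)
  · intro h p hp ha
    have ha' := (c.A_iff p).1 ha
    by_cases hpJ : p ∈ J
    · rw [k2 p hpJ]
      exact h.2 p hpJ
    · rw [k1 p ha' hpJ]
      exact h.1 p hp ha' hpJ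

theorem prod_cop {S : Finset ℕ} (hS : ∀ p ∈ S, p.Coprime c.m) : (∏ p ∈ S, p).Coprime c.m :=
  Nat.Coprime.prod_left hS

/-- the class -/
theorem cls_iff {S J : Finset ℕ} (hS : ∀ p ∈ S, c.rc.Φ.P p)
    (hG : hF c.m (∏ p ∈ S, p) = hF c.m c.d) (hJ : ∀ q ∈ J, q ∈ S ∧ Ac c.A c.B q)
    (g : GG c.T) : (g, ∑ q ∈ S, ind J q • c.hA q) ∈ c.LL ↔ Lb c.A c.B (pd S) (UU g * pd J) := by
  have hJS : J ⊆ S := fun q hq => (hJ q hq).1
  have hSp : ∀ p ∈ S, p.Prime := fun p hp => ((c.P_iff p).1 (hS p hp)).1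
  have hSc : ∀ p ∈ S, p.Coprime c.m := fun p hp => ((c.P_iff p).1 (hS p hp)).2
  have hJp : ∀ p ∈ J, p.Prime := fun p hp => hSp p (hJS hp)
  have hJc : ∀ p ∈ J, p.Coprime c.m := fun p hp => hSc p (hJS hp)
  have hn := c.prod_cop hJc
  have hSn := c.prod_cop hSc
  rw [sum_ind hJS]
  have h1 : hF c.m (∏ p ∈ J, p) = ((∑ q ∈ J, c.hA q : c.FA) : Fm c.m) := by
    rw [← hF_sum J hJc, AddSubmonoidClass.coe_finsetSum]
    exact sum_congr rfl fun q hq => (c.hA_coe (hJ q hq).2).symm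
  rw [c.mem_LL (w := (g, ∑ q ∈ J, c.hA q)) hn h1]
  have hd0 : ((c.d : ℕ) : ℤ) ≠ 0 := by exact_mod_cast c.d0
  have hdp : (0 : ℤ) < c.d := by exact_mod_cast Nat.pos_of_ne_zero c.d0
  have hz : UU g * ((∏ p ∈ J, p : ℕ) : ℤ) ≠ 0 := mul_ne_zero (UU_ne c.hT g) (pd_pos hJp).ne'
  have key : ∀ (p : ℕ) [Fact p.Prime], (p : ℤ) ∣ N2 c.A c.B →
      IsSquare ((c.d * pd S : ℤ) : ℚ_[p]) := by
    intro p hp hd
    exact sq_of_hF c.hm.eight c.hd hSn hG.symm p ((c.hm.prime_iff hp.out).2 hd)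
  have key' : ∀ (p : ℕ) [Fact p.Prime], (p : ℤ) ∣ N2 c.A c.B →
      IsSquare ((pd S * c.d : ℤ) : ℚ_[p]) := by
    intro p hp hd
    rw [mul_comm]
    exact key p hd
  have key2 : ∀ (p : ℕ) [Fact p.Prime], (p : ℤ) ∣ N2 c.A c.B →
      IsSquare ((UU g * ((∏ p ∈ J, p : ℕ) : ℤ) * (UU g * ((∏ p ∈ J, p : ℕ) : ℤ)) : ℤ) : ℚ_[p]) := by
    intro p hp hd
    exact ⟨((UU g * ((∏ p ∈ J, p : ℕ) : ℤ) : ℤ) : ℚ_[p]), by rw [← Int.cast_mul]⟩
  constructor
  · intro h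
    exact Lb_cls hd0 (pd_pos hSp).ne' hz hz (mul_pos hdp (pd_pos hSp)) (mul_self_pos.2 hz) key key2 h
  · intro h
    exact Lb_cls (pd_pos hSp).ne' hd0 hz hz (mul_pos (pd_pos hSp) hdp) (mul_self_pos.2 hz) key'
      key2 h

/-- the integer of a vector -/
noncomputable def zz (S : Finset ℕ) (w : (ℕ → ZMod 2) × GG c.T) : ℤ :=
  UU w.2 * pd (S.filter fun p => w.1 p ≠ 0)

theorem ind_filter {S : Finset ℕ} {x : ℕ → ZMod 2} (h : ∀ p, p ∉ S → x p = 0) :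
    ind (S.filter fun p => x p ≠ 0) = x := by
  funext p
  unfold ind
  by_cases hp : p ∈ S.filter fun p => x p ≠ 0
  · rw [if_pos hp]
    rcases two_cases (x p) with h1 | h1
    · exact absurd h1 (mem_filter.1 hp).2
    · exact h1.symm
  · rw [if_neg hp]
    by_cases hS : p ∈ S
    · by_contra h1
      exact hp (mem_filter.2 ⟨hS, fun h2 => h1 h2.symm⟩)
    · exact (h p hS).symm

theorem filter_ind {S J : Finset ℕ} (hJ : J ⊆ S) : (S.filter fun p => ind J p ≠ 0) = J := by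
  ext p
  rw [mem_filter]
  unfold ind
  constructor
  · rintro ⟨-, h⟩
    by_contra h1
    rw [if_neg h1] at h
    exact h rfl
  · intro h
    rw [if_pos h]
    exact ⟨hJ h, one_ne_zero⟩

/-- the vectors of the system -/
theorem mem_Sel' {S : Finset ℕ} (L : Submodule (ZMod 2) (GG c.T × c.FA))
    {w : (ℕ → ZMod 2) × GG c.T} (hw : w ∈ (c.sy L).Sel S) :
    (∀ q ∈ S.filter (fun p => w.1 p ≠ 0), q ∈ S ∧ Ac c.A c.B q) ∧
      ind (S.filter fun p => w.1 p ≠ 0) = w.1 := by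
  have h1 := (Sys.mem_Sel.1 hw).1
  refine ⟨fun q hq => ?_, ind_filter fun p hp => h1 p fun h => hp h.1⟩
  obtain ⟨h2, h3⟩ := mem_filter.1 hq
  refine ⟨h2, ?_⟩
  by_contra h4
  exact h3 (h1 q fun h => h4 ((c.A_iff q).1 h.2))

/-- **the Selmer group and the system** -/
theorem SelS_eq {S : Finset ℕ} (hS : ∀ p ∈ S, c.rc.Φ.P p)
    (hG : hF c.m (∏ p ∈ S, p) = hF c.m c.d) :
    SelS (c.A * pd S) (c.B * pd S ^ 2) = c.zz S '' ((c.sy c.LL).Sel S : Set _) := by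
  have hCl : Cl c.A c.B S := fun p hp => by
    obtain ⟨h1, h2⟩ := (c.P_iff p).1 (hS p hp)
    exact ac_or_pa c.hs h1 ((c.hm.cop_iff h1).1 h2)
  ext z
  constructor
  · intro hz
    obtain ⟨u, J, hu, hJ, hR, hL, rfl⟩ := nec c.B0 c.hC hCl hz
    obtain ⟨g, rfl⟩ := c.ex_UU hu
    have hJS : J ⊆ S := fun q hq => (hJ q hq).1
    refine ⟨(ind J, g), ?_, ?_⟩
    · refine Sys.mem_Sel.2 ⟨fun p hp => ?_, (c.row_iff hJ g c.LL).2 hR,
        (c.cls_iff hS hG hJ g).2 hL⟩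
      refine if_neg fun h => hp ?_
      exact ⟨(hJ p h).1, (c.A_iff p).2 (hJ p h).2⟩
    · unfold zz
      simp only
      rw [filter_ind hJS]
  · rintro ⟨w, hw, rfl⟩
    obtain ⟨h1, h2⟩ := c.mem_Sel' c.LL hw
    obtain ⟨-, h4, h5⟩ := Sys.mem_Sel.1 hw
    rw [← h2] at h4 h5
    exact suf c.B0 c.hC hCl (c.Sup_UU w.2) h1 ((c.row_iff h1 w.2 c.LL).1 h4)
      ((c.cls_iff hS hG h1 w.2).1 h5)

theorem zz_inj {S : Finset ℕ} : Set.InjOn (c.zz S) ((c.sy c.LL).Sel S : Set _) := by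
  intro w hw w' hw' h
  obtain ⟨h1, h2⟩ := c.mem_Sel' c.LL hw
  obtain ⟨h1', h2'⟩ := c.mem_Sel' c.LL hw'
  obtain ⟨h3, h4⟩ := uniq (c.Sup_UU w.2) (c.Sup_UU w'.2) (fun q hq => (h1 q hq).2)
    (fun q hq => (h1' q hq).2) h
  refine Prod.ext ?_ (UU_inj c.hT h3)
  rw [← h2, ← h2', h4]

/-- the solutions are finite in number -/
theorem fin_Sel (S : Finset ℕ) (L : Submodule (ZMod 2) (GG c.T × c.FA)) :
    Finite ((c.sy L).Sel S) := by
  refine Finite.of_injective (β := (S → ZMod 2) × GG c.T)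
    (fun w => (fun p : S => w.1.1 p, w.1.2)) fun w w' h => ?_
  have h1 : (fun p : S => w.1.1 p) = fun p : S => w'.1.1 p := (Prod.mk.inj h).1
  have h2 : w.1.2 = w'.1.2 := (Prod.mk.inj h).2
  refine Subtype.ext (Prod.ext (funext fun p => ?_) h2)
  by_cases hp : p ∈ S
  · exact congrFun h1 ⟨p, hp⟩
  · rw [(Sys.mem_Sel.1 w.2).1 p fun h => hp h.1, (Sys.mem_Sel.1 w'.2).1 p fun h => hp h.1]

/-- **the order of the Selmer group** -/
theorem card_SelS {S : Finset ℕ} (hS : ∀ p ∈ S, c.rc.Φ.P p)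
    (hG : hF c.m (∏ p ∈ S, p) = hF c.m c.d) :
    (SelS (c.A * pd S) (c.B * pd S ^ 2)).Finite ∧
      (SelS (c.A * pd S) (c.B * pd S ^ 2)).ncard = Nat.card ((c.sy c.LL).Sel S) := by
  have hf := c.fin_Sel S c.LL
  rw [c.SelS_eq hS hG]
  refine ⟨(Set.toFinite _).image _, ?_⟩
  rw [Set.InjOn.ncard_image c.zz_inj]
  rfl

end Cq

end Q44.BS
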