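import Pool.Agent.Q44.BS.Row

/-!
# The count in a box when all the primes are active
-/

set_option autoImplicit false
set_option linter.unusedSectionVars false

open scoped Classical

namespace Q44.BS

open Finset Module
open Pool.Agent.Y703.CQ (nr sg prs HB ext)
open Pool.Agent.Y657.CQ (HB_sub)
open Q44.BC Q44.BM

variable {Φ : Fam} {G F : Type} [AddCommGroup G] [Module (ZMod 2) G] [AddCommGroup F]
    [Module (ZMod 2) F]

/-- the system is not degenerate, all the primes are active -/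
structure Good (σ : Sys Φ G F) {I : Type} (cl : I → ℕ → Prop) : Prop where
  all : ∀ p, Φ.P p → Φ.A p
  E0 : ∀ p, Φ.E p → σ.h p = 0
  span : ∀ l : F →ₗ[ZMod 2] ZMod 2, l ≠ 0 → ∃ i, ∀ p, cl i p → Φ.A p ∧ l (σ.h p) ≠ 0
  lg : ∀ g e, (g, e) ∈ σ.𝓛 → σ.χ g = 0 → g = 0
  neg : ∃ i, ∀ p, cl i p → Φ.A p ∧ σ.v (σ.h p) ≠ 0

/-- the number of the pairs -/
theorem card_prs {ι : Type} [Fintype ι] [LinearOrder ι] (k0 : ι) :
    (prs (univ.erase k0 : Finset ι)).card ≤ (prs (univ : Finset ι)).card := by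
  refine Finset.card_le_card_of_injOn (fun e => if e.1 < e.2 then e else e.swap) ?_ ?_
  · rintro ⟨k, l⟩ he
    obtain ⟨h1, h2, h3⟩ := (Pool.Agent.Y219.CQ.mem_prs _ k l).1 he
    rw [Finset.mem_coe]
    show (if k < l then (k, l) else (l, k)) ∈ prs univ
    by_cases h : k < l
    · rw [if_pos h]
      exact (Pool.Agent.Y219.CQ.mem_prs _ k l).2 ⟨mem_univ _, h2, fun _ => h⟩
    · rw [if_neg h]
      refine (Pool.Agent.Y219.CQ.mem_prs _ l k).2 ⟨mem_univ _, h2.symm, fun _ => ?_⟩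
      exact lt_of_le_of_ne (not_lt.1 h) h2
  · rintro ⟨k, l⟩ he ⟨k', l'⟩ he' h
    obtain ⟨h1, h2, h3⟩ := (Pool.Agent.Y219.CQ.mem_prs _ k l).1 he
    obtain ⟨g1, g2, g3⟩ := (Pool.Agent.Y219.CQ.mem_prs _ k' l').1 he'
    simp only at h
    split_ifs at h with a b b
    · exact h
    · -- (k, l) = (l', k')
      obtain ⟨e1, e2⟩ := Prod.mk.inj h
      exfalso
      subst e1 e2
      exact b (g3 h1)
    · obtain ⟨e1, e2⟩ := Prod.mk.inj h
      exfalso
      subst e1 e2
      exact a (h3 g1)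
    · obtain ⟨e1, e2⟩ := Prod.mk.inj h
      exact Prod.ext e2 e1

section one

variable {ι : Type} [Fintype ι] [LinearOrder ι] {I : Type} {cl : I → ℕ → Prop}
  {S₀ : Finset ℕ} {p : ι → ℕ} {R : ℕ}

/-- the nondegeneracy -/
theorem inj_all (σ : Sys Φ G F) (hσ : Good σ cl) (hp : Function.Injective p)
    (h : NdC Φ cl (R + 1) S₀ (univ.image p))
    (μ : UU Φ S₀ → ZMod 2) (l : F →ₗ[ZMod 2] ZMod 2)
    (hμ : ∀ k, ∑ u : UU Φ S₀, μ u * nr (p k) u + l (σ.h (p k)) = 0) : μ = 0 ∧ l = 0 := by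
  have h1 : μ = 0 := by
    by_contra hne
    obtain ⟨u, hu⟩ := Function.ne_iff.1 hne
    set w : ℕ → ZMod 2 := fun n => if h : n ∈ S₀.filter (fun u => Φ.A u) then μ ⟨n, h⟩ else 0
      with hw
    have hwu : ∀ u : UU Φ S₀, w u = μ u := by
      intro u
      simp only [hw]
      rw [dif_pos u.2]
    obtain ⟨q, hq, hqE, hq2⟩ := h.1 w ⟨u, (mem_filter.1 u.2).1, (mem_filter.1 u.2).2, by
      rw [hwu]
      exact hu⟩
    obtain ⟨k, -, rfl⟩ := Finset.mem_image.1 hq
    apply hq2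
    have h2 := hμ k
    rw [hσ.E0 _ hqE, map_zero, add_zero] at h2
    rw [← h2, ← Finset.sum_coe_sort (S₀.filter fun u => Φ.A u)]
    exact sum_congr rfl fun u _ => by rw [hwu]
  refine ⟨h1, ?_⟩
  by_contra hne
  obtain ⟨i, hi⟩ := hσ.span l hne
  have h2 := h.2 i
  rw [card_im hp] at h2
  have h3 : 0 < (univ.filter fun k => cl i (p k)).card := by omega
  obtain ⟨k, hk⟩ := Finset.card_pos.1 h3
  obtain ⟨h4, h5⟩ := hi _ (mem_filter.1 hk).2
  apply h5
  have h6 := hμ k
  rw [h1] at h6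
  simpa using h6

/-- the large primes are many -/
theorem many (σ : Sys Φ G F) (hσ : Good σ cl) (hp : Function.Injective p)
    (h : NdC Φ cl (R + 1) S₀ (univ.image p)) :
    2 * Fintype.card (UU Φ S₀) + (R + 1) ≤ (univ.filter fun k => σ.v (σ.h (p k)) ≠ 0).card := by
  obtain ⟨i, hi⟩ := hσ.neg
  have h2 := h.2 i
  rw [card_im hp] at h2
  have h3 : (univ.filter fun k => cl i (p k)) ⊆ (univ.filter fun k => σ.v (σ.h (p k)) ≠ 0) := by
    intro k hk
    obtain ⟨h4, h5⟩ := hi _ (mem_filter.1 hk).2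
    exact mem_filter.2 ⟨mem_univ _, h5⟩
  have h4 := Finset.card_le_card h3
  have h5 : Fintype.card (UU Φ S₀) ≤ S₀.card := by
    rw [Fintype.card_coe]
    exact Finset.card_filter_le _ _
  omega

/-- the choice of the large prime -/
theorem ex_k0 [Finite F] (σ : Sys Φ G F) (hσ : Good σ cl)
    (hpr : ∀ i, (p i).Prime ∧ p i ≠ 2) (hp : Function.Injective p) (hd : ∀ i, p i ∉ S₀)
    (hA : ∀ i, Φ.A (p i)) (hR : finrank (ZMod 2) F ≤ R)
    (h : NdC Φ cl (R + 1) S₀ (univ.image p)) :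
    ∃ k0 : ι, (σ.D S₀ (univ.erase k0) p).Ok ∧
      2 * Fintype.card (UU Φ S₀) + R ≤ (σ.D S₀ (univ.erase k0) p).J3.card := by
  have hf2 : Module.Finite (ZMod 2) F := Module.Finite.of_finite
  set Θ : ((UU Φ S₀ → ZMod 2) × (F →ₗ[ZMod 2] ZMod 2)) →ₗ[ZMod 2] (ι → ZMod 2) :=
    lm (fun x k => ∑ u : UU Φ S₀, x.1 u * nr (p k) u + x.2 (σ.h (p k))) (by
      intro a b
      funext k
      simp only [Prod.fst_add, Prod.snd_add, Pi.add_apply, LinearMap.add_apply, add_mul,
        sum_add_distrib]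
      ring) with hΘ
  have hinj : ∀ x, Θ x = 0 → x = 0 := by
    rintro ⟨μ, l⟩ hx
    obtain ⟨h1, h2⟩ := inj_all σ hσ hp h μ l fun k => congrFun hx k
    rw [h1, h2]
    rfl
  have hm := many σ hσ hp h
  have hcard : Fintype.card (UU Φ S₀) + finrank (ZMod 2) F < Fintype.card ι := by
    have h1 : (univ.filter fun k => σ.v (σ.h (p k)) ≠ 0).card ≤ Fintype.card ι := by
      rw [← Finset.card_univ]
      exact Finset.card_filter_le _ _
    omega
  have hk0 : ∃ k0 : ι, Pi.single k0 1 ∉ LinearMap.range Θ := by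
    by_contra hall
    push Not at hall
    have h1 : LinearMap.range Θ = ⊤ := by
      rw [eq_top_iff]
      intro y _
      have h2 : y = ∑ k, y k • (Pi.single k 1 : ι → ZMod 2) := by
        funext j
        rw [Finset.sum_apply, Finset.sum_eq_single j]
        · rw [Pi.smul_apply, Pi.single_eq_same, smul_eq_mul, mul_one]
        · intro b _ hb
          rw [Pi.smul_apply, Pi.single_eq_of_ne hb.symm, smul_zero]
        · intro h
          exact absurd (mem_univ j) h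
      rw [h2]
      exact Submodule.sum_mem _ fun k _ => Submodule.smul_mem _ _ (hall k)
    have h2 := LinearMap.finrank_range_le Θ
    rw [h1, finrank_top, finrank_fintype_fun_eq_card, finrank_prod, finrank_fintype_fun_eq_card,
      Subspace.dual_finrank_eq] at h2
    omega
  obtain ⟨k0, hk0⟩ := hk0
  refine ⟨k0, ⟨fun u k hk => ?_, fun μ l hμ => ?_, hσ.lg⟩, ?_⟩
  · have hu := mem_filter.1 u.2
    show nr u (p k) = nr (p k) u + σ.v (σ.h u) * σ.v (σ.h (p k))
    rw [σ.hv _ hu.2, σ.hv _ (hA k)]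
    exact nr_rec (Φ.hA _ hu.2).1 (Φ.hA _ hu.2).2 (hpr k).1 (hpr k).2 fun he => hd k (he ▸ hu.1)
  · have h1 : ∀ k, k ≠ k0 → Θ (μ, l) k = 0 := fun k hk => hμ k (Finset.mem_erase.2 ⟨hk, mem_univ _⟩)
    have h2 : Θ (μ, l) = Θ (μ, l) k0 • (Pi.single k0 1 : ι → ZMod 2) := by
      funext k
      rw [Pi.smul_apply, smul_eq_mul]
      by_cases hk : k = k0
      · rw [hk, Pi.single_eq_same, mul_one]
      · rw [Pi.single_eq_of_ne hk, mul_zero, h1 k hk]
    have h3 : Θ (μ, l) k0 = 0 := by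
      by_contra hne
      have h4 : Θ (μ, l) k0 = 1 := by
        revert hne
        generalize Θ (μ, l) k0 = x
        revert x
        decide
      rw [h4, one_smul] at h2
      exact hk0 ⟨_, h2⟩
    rw [h3, zero_smul] at h2
    have h4 := hinj _ h2
    exact ⟨congrArg Prod.fst h4, congrArg Prod.snd h4⟩
  · have h1 : (univ.filter fun k => σ.v (σ.h (p k)) ≠ 0).erase k0 ⊆
        (σ.D S₀ (univ.erase k0) p).J3 := by
      intro k hk
      obtain ⟨g1, g2⟩ := Finset.mem_erase.1 hk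
      exact mem_filter.2 ⟨Finset.mem_erase.2 ⟨g1, mem_univ _⟩, (mem_filter.1 g2).2⟩
    have h2 := Finset.card_le_card h1
    have h3 := Finset.pred_card_le_card_erase (s := univ.filter fun k => σ.v (σ.h (p k)) ≠ 0)
      (a := k0)
    omega

end one

/-- **The count in a box.** -/
theorem t_BXQ [Finite G] [Finite F] {I : Type} {cl : I → ℕ → Prop} (σ : Sys Φ G F)
    (hσ : Good σ cl) {t : ℝ} (ht : 0 < t) (hcard : (Nat.card σ.𝓛 : ℝ) = t * Nat.card F) (r : ℕ)
    {Λ H' : Type} [Fintype Λ] [AddCommGroup H'] {lb : ℕ → Λ} {H : ℕ → H'} (c₀ : H')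
    (hL : Lb σ cl lb H)
    (htor : ∀ S : Finset ℕ, S.Nonempty → (∀ q ∈ S, Φ.P q) → GT H c₀ S → Tor σ S ∧ Red σ S)
    {ε : ℝ} (hε : 0 < ε) :
    ∃ R, BX Φ cl (GT H c₀) (fun S => finrank (ZMod 2) (σ.Sel S) = r + 1) (lam t r) ε
      (Fintype.card Λ) R := by
  obtain ⟨R₁, hLA₁⟩ := t_LAB G F ht r hε
  set R₀ : ℕ := max R₁ (finrank (ZMod 2) F) with hR₀
  obtain ⟨Gd, hGd⟩ : ∃ Gd : Finset ℕ → Prop, Gd = fun S => finrank (ZMod 2) (σ.Sel S) = r + 1 :=
    ⟨_, rfl⟩
  rw [← hGd]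
  have hGd' : ∀ S, Gd S ↔ finrank (ZMod 2) (σ.Sel S) = r + 1 := fun S => by rw [hGd]
  refine ⟨R₀ + 1, ?_⟩
  intro ι _ _ J1 C X κ S₀ hκ hCX hHB hS₀ hC hdis
  set R : ℝ := 2 ^ (prs J1).card * (κ * ∏ j, (X j : ℝ)) with hR
  have hR0 : 0 ≤ R := mul_nonneg (by positivity)
    (mul_nonneg hκ (Finset.prod_nonneg fun j _ => by positivity))
  -- facts on tuples
  have hinj : ∀ p ∈ Fintype.piFinset C, Function.Injective p := by
    intro p hp i j hij
    rw [Fintype.mem_piFinset] at hp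
    by_contra hne
    have h1 := Finset.disjoint_left.1 (hdis i j hne) (hp i)
    rw [hij] at h1
    exact h1 (hp j)
  have hJ : ∀ p ∈ Fintype.piFinset C, ∀ i, i ∈ J1 ↔ Φ.A (p i) := by
    intro p hp i
    rw [Fintype.mem_piFinset] at hp
    exact (hC i _ (hp i)).2.2
  have hd : ∀ p ∈ Fintype.piFinset C, ∀ i, p i ∉ S₀ := by
    intro p hp i
    rw [Fintype.mem_piFinset] at hp
    exact (hC i _ (hp i)).2.1
  have hP : ∀ p ∈ Fintype.piFinset C, ∀ i, Φ.P (p i) := by
    intro p hp i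
    rw [Fintype.mem_piFinset] at hp
    exact (hC i _ (hp i)).1
  have hpr : ∀ p ∈ Fintype.piFinset C, ∀ i, (p i).Prime ∧ p i ≠ 2 := fun p hp i =>
    ⟨(hP p hp i).prime, Fam.ne_two (hP p hp i)⟩
  have hA : ∀ p ∈ Fintype.piFinset C, ∀ i, Φ.A (p i) := fun p hp i => hσ.all _ (hP p hp i)
  have hSP : ∀ p ∈ Fintype.piFinset C, ∀ q ∈ S₀ ∪ univ.image p, Φ.P q := by
    intro p hp q hq
    rcases Finset.mem_union.1 hq with h | h
    · exact hS₀ q h
    · obtain ⟨i, -, rfl⟩ := Finset.mem_image.1 h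
      exact hP p hp i
  have hgd : ∀ p ∈ Fintype.piFinset C, GT H c₀ (S₀ ∪ univ.image p) → ∀ k0 : ι,
      (Gd (S₀ ∪ univ.image p) ↔ finrank (ZMod 2)
        ((σ.D S₀ (univ.erase k0) p).So fun e => nr (p e.1.1) (p e.1.2)) = r) := by
    intro p hp hG k0
    have hk0 : p k0 ∈ S₀ ∪ univ.image p := mem_union_right _ (mem_image_of_mem _ (mem_univ _))
    obtain ⟨ht1, ht2⟩ := htor _ ⟨_, hk0⟩ (hSP p hp) hG
    rw [hGd', finrank_Sel_succ σ ht1 hk0, finrank_SelQ σ (hpr p hp) (hinj p hp) (hd p hp) (hA p hp)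
      k0 (fun u hu => hσ.all u (hS₀ u hu)) ht2]
    constructor
    · intro h
      omega
    · intro h
      omega
  -- the part with given labels
  obtain ⟨T, hT⟩ : ∃ T : (ι → ℕ) → Prop, ∀ p, T p ↔ (NdC Φ cl (R₀ + 1) S₀ (univ.image p) ∧
      GT H c₀ (S₀ ∪ univ.image p)) := ⟨_, fun _ => Iff.rfl⟩
  have h1 : ∀ β : ι → (S₀ → ZMod 2) × (S₀ → ZMod 2) × Λ,
      |(((Fintype.piFinset C).filter fun p => (fun i => lab lb S₀ (p i)) = β ∧
          (T p ∧ Gd (S₀ ∪ univ.image p))).card : ℝ) -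
        lam t r * (((Fintype.piFinset C).filter fun p =>
          (fun i => lab lb S₀ (p i)) = β ∧ T p).card : ℝ)| ≤
      ε * (((Fintype.piFinset C).filter fun p => (fun i => lab lb S₀ (p i)) = β ∧
        NdC Φ cl (R₀ + 1) S₀ (univ.image p)).card : ℝ) + R := by
    intro β
    by_cases hemp : ((Fintype.piFinset C).filter fun p => (fun i => lab lb S₀ (p i)) = β ∧ T p) = ∅
    · have he2 : ((Fintype.piFinset C).filter fun p => (fun i => lab lb S₀ (p i)) = β ∧
          (T p ∧ Gd (S₀ ∪ univ.image p))) = ∅ := by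
        rw [Finset.filter_eq_empty_iff] at hemp ⊢
        intro p hp h
        exact hemp hp ⟨h.1, h.2.1⟩
      rw [he2, hemp]
      simp only [Finset.card_empty, Nat.cast_zero, mul_zero, sub_zero, abs_zero]
      positivity
    obtain ⟨p₀, hp₀⟩ := Finset.nonempty_iff_ne_empty.2 hemp
    rw [Finset.mem_filter] at hp₀
    obtain ⟨hp₀, hp₀β, hp₀T⟩ := hp₀
    set C' : ι → Finset ℕ := fun i => (C i).filter fun q => lab lb S₀ q = β i with hC'
    have hpi : (Fintype.piFinset C).filter (fun p => (fun i => lab lb S₀ (p i)) = β) =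
        Fintype.piFinset C' := by
      ext p
      simp only [Finset.mem_filter, Fintype.mem_piFinset, hC']
      constructor
      · rintro ⟨h2, h3⟩ i
        exact ⟨h2 i, congrFun h3 i⟩
      · intro h2
        exact ⟨fun i => (h2 i).1, funext fun i => (h2 i).2⟩
    have hlab : ∀ p : ι → ℕ, (fun i => lab lb S₀ (p i)) = β → ∀ i, lab lb S₀ (p₀ i) = lab lb S₀ (p i) := by
      intro p hp i
      rw [congrFun hp i, congrFun hp₀β i]
    have hTp : ∀ p ∈ Fintype.piFinset C, (fun i => lab lb S₀ (p i)) = β → T p := by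
      intro p hp hpβ
      rw [hT]
      have h2 := (hT p₀).1 hp₀T
      refine ⟨NdC_lab hL (hP p₀ hp₀) (hP p hp) (hinj p₀ hp₀) (hinj p hp) (hlab p hpβ) h2.1, ?_⟩
      exact (GT_lab hL (hP p₀ hp₀) (hP p hp) (hinj p₀ hp₀) (hinj p hp) (hd p₀ hp₀) (hd p hp)
        (hlab p hpβ)).symm.trans h2.2
    have hNd := ((hT p₀).1 hp₀T).1
    have hJu : J1 = univ := by
      ext i
      simp only [mem_univ, iff_true]
      exact (hJ p₀ hp₀ i).2 (hA p₀ hp₀ i)
    obtain ⟨k0, hok, hJ3⟩ := ex_k0 σ hσ (hpr p₀ hp₀) (hinj p₀ hp₀) (hd p₀ hp₀) (hA p₀ hp₀)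
      (le_max_right R₁ _) hNd
    have h2 := hLA₁ (UU Φ S₀) ι (σ.D S₀ (univ.erase k0) p₀) hok
      ⟨k0, Finset.notMem_erase _ _⟩ hcard (le_trans (by
        have : R₁ ≤ R₀ := le_max_left _ _
        omega) hJ3)
    obtain ⟨Q, hQ⟩ : ∃ Q : (prs (univ.erase k0) → ZMod 2) → Prop, ∀ α, Q α ↔
      finrank (ZMod 2) ((σ.D S₀ (univ.erase k0) p₀).So α) = r := ⟨_, fun _ => Iff.rfl⟩
    have h3 := Pool.Agent.Y356.CQ.t_EQ ι (univ.erase k0) C' X κ hκ
      (fun i => (Finset.card_le_card (Finset.filter_subset _ _)).trans (hCX i))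
      (fun i l hil _ => (HB_sub hHB fun i q => lab lb S₀ q = β i) i l hil (by
        rw [hJu]
        exact mem_univ _)) Q
    have h4 : ((Fintype.piFinset C).filter fun p => (fun i => lab lb S₀ (p i)) = β ∧
        (T p ∧ Gd (S₀ ∪ univ.image p))) =
          ((Fintype.piFinset C').filter fun p => Q fun e => nr (p e.1.1) (p e.1.2)) := by
      rw [← hpi, Finset.filter_filter]
      refine Finset.filter_congr fun p hp => ?_
      refine and_congr_right fun hl => ?_
      rw [hQ, D_lab hL (hP p₀ hp₀) (hP p hp) (hlab p hl)]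
      constructor
      · rintro ⟨g1, g2⟩
        exact (hgd p hp ((hT p).1 g1).2 k0).1 g2
      · intro g
        have g1 := hTp p hp hl
        exact ⟨g1, (hgd p hp ((hT p).1 g1).2 k0).2 g⟩
    have h4' : ((Fintype.piFinset C).filter fun p => (fun i => lab lb S₀ (p i)) = β ∧ T p) =
          Fintype.piFinset C' := by
      rw [← hpi]
      refine Finset.filter_congr fun p hp => ?_
      exact ⟨fun h => h.1, fun h => ⟨h, hTp p hp h⟩⟩
    have h4'' : ((Fintype.piFinset C).filter fun p => (fun i => lab lb S₀ (p i)) = β ∧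
        NdC Φ cl (R₀ + 1) S₀ (univ.image p)) = Fintype.piFinset C' := by
      rw [← hpi]
      refine Finset.filter_congr fun p hp => ?_
      exact ⟨fun h => h.1, fun h => ⟨h, ((hT p).1 (hTp p hp h)).1⟩⟩
    have h5 : (((Fintype.piFinset C').card : ℕ) : ℝ) = ∏ j, ((C' j).card : ℝ) := by
      rw [Fintype.card_piFinset]
      push_cast
      rfl
    rw [h4, h4', h4'', h5]
    have h2' : |((univ.filter Q).card : ℝ) / 2 ^ (prs (univ.erase k0)).card - lam t r| ≤ ε := by
      rw [Finset.filter_congr fun α _ => hQ α]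
      exact h2
    set n : ℝ := (((Fintype.piFinset C').filter fun p =>
          Q fun e => nr (p e.1.1) (p e.1.2)).card : ℝ) with hn
    set q : ℝ := ((univ.filter Q).card : ℝ) / 2 ^ (prs (univ.erase k0)).card with hq
    set P : ℝ := ∏ j, ((C' j).card : ℝ) with hP
    have hP0 : 0 ≤ P := Finset.prod_nonneg fun j _ => by positivity
    have h6 : |n - lam t r * P| ≤ |n - q * P| + |q - lam t r| * P := by
      have h7 : n - lam t r * P = (n - q * P) + (q - lam t r) * P := by ring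
      have h8 : |(q - lam t r) * P| = |q - lam t r| * P := by rw [abs_mul, abs_of_nonneg hP0]
      rw [h7, ← h8]
      exact abs_add_le _ _
    have h7 : |q - lam t r| * P ≤ ε * P := mul_le_mul_of_nonneg_right h2' hP0
    have h8 : |n - q * P| ≤ R := by
      refine h3.trans ?_
      rw [hR, hJu]
      refine mul_le_mul_of_nonneg_right (pow_le_pow_right₀ one_le_two (card_prs k0)) ?_
      exact mul_nonneg hκ (Finset.prod_nonneg fun j _ => by positivity)
    linarith
  -- sum over the labels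
  have hfib : ∀ (T : (ι → ℕ) → Prop) [DecidablePred T],
      (((Fintype.piFinset C).filter fun p => T p).card : ℝ) =
      ∑ β : ι → (S₀ → ZMod 2) × (S₀ → ZMod 2) × Λ, (((Fintype.piFinset C).filter fun p =>
        (fun i => lab lb S₀ (p i)) = β ∧ T p).card : ℝ) := by
    intro T _
    rw [Finset.card_eq_sum_card_fiberwise (f := fun (p : ι → ℕ) (i : ι) => lab lb S₀ (p i))
      (t := univ) (fun p hp => Finset.mem_coe.2 (mem_univ _))]
    push_cast
    refine Finset.sum_congr rfl fun β hβ => ?_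
    congr 2
    ext p
    simp only [Finset.mem_filter]
    tauto
  have hf1 := hfib fun p => T p ∧ Gd (S₀ ∪ univ.image p)
  have hf2 := hfib fun p => T p
  have hf3 := hfib fun p => NdC Φ cl (R₀ + 1) S₀ (univ.image p)
  have e1 : ((Fintype.piFinset C).filter fun p => (NdC Φ cl (R₀ + 1) S₀ (univ.image p) ∧
      GT H c₀ (S₀ ∪ univ.image p)) ∧ Gd (S₀ ∪ univ.image p)) =
      (Fintype.piFinset C).filter fun p => T p ∧ Gd (S₀ ∪ univ.image p) :=
    Finset.filter_congr fun p _ => by rw [hT]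
  have e2 : ((Fintype.piFinset C).filter fun p => NdC Φ cl (R₀ + 1) S₀ (univ.image p) ∧
      GT H c₀ (S₀ ∪ univ.image p)) = (Fintype.piFinset C).filter fun p => T p :=
    Finset.filter_congr fun p _ => by rw [hT]
  rw [e1, e2, hf1, hf2, hf3, Finset.mul_sum, ← Finset.sum_sub_distrib]
  refine (Finset.abs_sum_le_sum_abs _ _).trans ?_
  refine (Finset.sum_le_sum fun β _ => h1 β).trans ?_
  rw [Finset.sum_add_distrib, ← Finset.mul_sum, Finset.sum_const, nsmul_eq_mul]
  have h6 : (((univ : Finset (ι → (S₀ → ZMod 2) × (S₀ → ZMod 2) × Λ)).card : ℕ) : ℝ) =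
      (Fintype.card Λ : ℝ) ^ Fintype.card ι * 2 ^ (2 * S₀.card * Fintype.card ι) := by
    rw [Finset.card_univ, Fintype.card_fun, Fintype.card_prod, Fintype.card_prod, Fintype.card_fun,
      ZMod.card, Fintype.card_coe]
    push_cast
    rw [mul_pow, mul_pow, ← pow_mul, two_mul, add_mul, pow_add]
    ring
  rw [h6, hR, pow_add]
  refine le_of_eq ?_
  ring


end Q44.BS
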