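import Pool.Agent.Q44.BS.Tam
import Pool.Agent.Q44.BN.Tam2

/-!
# The constant of a local class is a product over the bad places (end)
-/

set_option autoImplicit false
set_option linter.unusedSectionVars false
set_option linter.unusedVariables false

open scoped Classical

namespace Q44.BS

open Finset Module
open Q44.BC (lm lm_apply)
open Q44.TK (Fm hF hF_pos hF_mul hF_sum hF_eq hF_one Fm_two fin_Fm)
open Q44.TI (Loc SelS pd ch nr_ch ch_zero ch_mul ch_pd not_dvd_pd dvd_pd_iff pd_pos nz_of padic_sq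
  padic_sq2 cop_mod)
open Q44.BN


namespace Cq

variable (c : Cq)

theorem ph_ch (g : GG c.T) {p : ℕ} (hp : p.Prime) (hpm : p.Coprime c.m) :
    c.ph g (hF c.m p) = ch ((UU g : ℤ) : ZMod p) := (c.ch_UU g hp hpm).symm

theorem ph_inj {g : GG c.T} (h : ∀ y, c.ph g y = 0) : g = 0 := by
  by_contra hg
  obtain ⟨p, h1, h2, -, h4⟩ := ex_prime (z := UU g) (fun h5 => hg (UU_sq_zero c.hT h5)) c.m c.hm.nz
  rw [← c.ph_ch g h1 h2, h] at h4
  exact zero_ne_one h4

theorem sup_prime {t : ℕ} (ht : t ∈ c.T) : Sup c.A c.B (t : ℤ) := by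
  have htp := c.hT t ht
  refine ⟨Int.squarefree_natCast.2 htp.squarefree, fun p hp h => ?_⟩
  have h1 := (Nat.prime_dvd_prime_iff_eq hp htp).1 (Int.natCast_dvd_natCast.1 h)
  rw [h1]
  exact (c.mem_T htp).1 ht

theorem ph_inj' {y : Fm c.m} (h : ∀ g, c.ph g y = 0) : y = 0 := by
  obtain ⟨q, hq, hqm, rfl⟩ := ex_pr c.hm.nz y
  have : Fact q.Prime := ⟨hq⟩
  have hq2 : q ≠ 2 := by
    rintro rfl
    have h1 : 2 ∣ c.m := (by norm_num : 2 ∣ 8).trans c.hm.eight
    exact (Nat.Prime.coprime_iff_not_dvd Nat.prime_two).1 hqm h1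
  have key : ∀ u : ℤ, Sup c.A c.B u → IsSquare ((u : ℤ) : ZMod q) := by
    intro u hu
    obtain ⟨g, rfl⟩ := c.ex_UU hu
    rw [← ch_zero, ← c.ph_ch g hq hqm]
    exact h g
  have hneg : Sup c.A c.B (-1) := by
    refine ⟨?_, fun p hp hd => ?_⟩
    · rw [← Int.squarefree_natAbs]
      exact squarefree_one
    · exfalso
      have h1 : p ∣ 1 := by
        have := Int.natCast_dvd.1 hd
        simpa using this
      exact hp.one_lt.ne' (Nat.dvd_one.1 h1)
  have h2T : 2 ∈ c.T := Nat.mem_primeFactors.2 ⟨Nat.prime_two,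
    (by norm_num : 2 ∣ 8).trans c.hm.eight, c.hm.nz⟩
  have h1 := key _ hneg
  have h2 := key _ (c.sup_prime h2T)
  have h1' : IsSquare (-1 : ZMod q) := by simpa using h1
  have h2' : IsSquare (2 : ZMod q) := by simpa using h2
  rw [ZMod.exists_sq_eq_neg_one_iff] at h1'
  rw [ZMod.exists_sq_eq_two_iff hq2] at h2'
  have h8 : q % 8 = 1 := by omega
  have h4 : q % 4 = 1 := by omega
  have h5 : hF c.m q = hF c.m 1 := by
    rw [hF_iff c.hm.nz c.hm.eight (Nat.coprime_one_left _) hqm]
    intro p hp hpm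
    have hpT : p ∈ c.T := Nat.mem_primeFactors.2 ⟨hp.out, hpm, c.hm.nz⟩
    have e1 : (((1 : ℕ) : ℤ) * (q : ℤ)) = (q : ℤ) := by push_cast; ring
    rw [e1]
    by_cases hp2 : p = 2
    · subst hp2
      apply padic_sq2
      omega
    · have hpq : ¬ (p : ℤ) ∣ q := by
        intro hd
        have h6 := (Nat.prime_dvd_prime_iff_eq hp.out hq).1 (Int.natCast_dvd_natCast.1 hd)
        rw [h6] at hpm
        exact (Nat.Prime.coprime_iff_not_dvd hq).1 hqm hpm
      refine padic_sq hp2 hpq ?_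
      have h6 := key _ (c.sup_prime hpT)
      have h7 : IsSquare ((p : ℕ) : ZMod q) := by simpa using h6
      rw [ZMod.exists_sq_eq_prime_iff_of_mod_four_eq_one h4 hp2] at h7
      simpa using h7
  rw [h5, hF_one]

/-- the number of the classes modulo `m` -/
theorem card_Fm : Nat.card (Fm c.m) = 2 ^ (c.T.card + 1) := by
  have hnz : NeZero c.m := ⟨c.hm.nz⟩
  have hfin := fin_Fm c.m
  have hF : Module.Finite (ZMod 2) (Fm c.m) := Module.Finite.of_finite
  let φ : GG c.T →ₗ[ZMod 2] Dual (ZMod 2) (Fm c.m) := lm (fun g => c.ph g) (by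
    intro g g'
    refine LinearMap.ext fun y => ?_
    show ∑ t : c.T, (g + g').1 t * jc c.m ((t : ℕ) : ℤ) y + (g + g').2 * jc c.m (-1) y =
      (∑ t : c.T, g.1 t * jc c.m ((t : ℕ) : ℤ) y + g.2 * jc c.m (-1) y) +
      (∑ t : c.T, g'.1 t * jc c.m ((t : ℕ) : ℤ) y + g'.2 * jc c.m (-1) y)
    simp only [Prod.fst_add, Prod.snd_add, Pi.add_apply, add_mul, sum_add_distrib]
    ring)
  let ψ : Fm c.m →ₗ[ZMod 2] Dual (ZMod 2) (GG c.T) := lm (fun y => lm (fun g => c.ph g y) (by
    intro g g'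
    show ∑ t : c.T, (g + g').1 t * jc c.m ((t : ℕ) : ℤ) y + (g + g').2 * jc c.m (-1) y =
      (∑ t : c.T, g.1 t * jc c.m ((t : ℕ) : ℤ) y + g.2 * jc c.m (-1) y) +
      (∑ t : c.T, g'.1 t * jc c.m ((t : ℕ) : ℤ) y + g'.2 * jc c.m (-1) y)
    simp only [Prod.fst_add, Prod.snd_add, Pi.add_apply, add_mul, sum_add_distrib]
    ring)) (by
    intro y y'
    refine LinearMap.ext fun g => ?_
    exact map_add (c.ph g) y y')
  have h1 : Function.Injective φ := by
    rw [injective_iff_map_eq_zero]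
    intro g hg
    exact c.ph_inj fun y => by
      have := congrArg (fun l : Dual (ZMod 2) (Fm c.m) => l y) hg
      exact this
  have h2 : Function.Injective ψ := by
    rw [injective_iff_map_eq_zero]
    intro y hy
    exact c.ph_inj' fun g => by
      have := congrArg (fun l : Dual (ZMod 2) (GG c.T) => l g) hy
      exact this
  have h3 := LinearMap.finrank_le_finrank_of_injective h1
  have h4 := LinearMap.finrank_le_finrank_of_injective h2
  rw [Subspace.dual_finrank_eq] at h3 h4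
  have h5 : finrank (ZMod 2) (GG c.T) = c.T.card + 1 := by
    have e1 : finrank (ZMod 2) (GG c.T) = finrank (ZMod 2) (c.T → ZMod 2) +
        finrank (ZMod 2) (ZMod 2) := Module.finrank_prod
    rw [e1, Module.finrank_fintype_fun_eq_card, Fintype.card_coe, Module.finrank_self]
  rw [Module.natCard_eq_pow_finrank (K := ZMod 2), Nat.card_eq_fintype_card, ZMod.card]
  congr 1
  omega

theorem card_FmA : Nat.card (Fm c.m) = Nat.card c.FA := by
  rw [c.FA_top]
  exact (Nat.card_congr Submodule.topEquiv.toEquiv).symm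

section facts

attribute [local instance] fT

/-- **the constant is a product over the bad places** -/
theorem t_eq : c.t = ((∏ p : c.T, Nat.card (im ℚ_[(p : ℕ)] (c.A * c.d) (c.B * (c.d : ℤ) ^ 2))) *
    Nat.card (im ℝ (c.A * c.d) (c.B * (c.d : ℤ) ^ 2)) : ℕ) / 2 ^ (c.T.card + 1) := by
  have h1 := c.card_LLim
  have h3 := c.card_Fm
  have h4 := c.card_FmA
  unfold Cq.t
  rw [← h1, ← h4, h3]
  push_cast
  rfl

end facts

end Cq

end Q44.BS
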