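import Pool.Agent.Q44.BS.Par
import Pool.Agent.Q44.BN.Gd
import Pool.Agent.Q44.BN.Tam
import Pool.Agent.Q44.BP.Mo

/-!
# The system is not degenerate; the points of order two
-/

set_option autoImplicit false
set_option linter.unusedSectionVars false
set_option linter.unusedVariables false

open scoped Classical

namespace Q44.BS

open Finset Module
open Pool.Agent.Y703.CQ (nr)
open Q44.BC (lm)
open Q44.TK (Fm hF hF_pos hF_mul hF_sum hF_eq hF_one Fm_two)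
open Q44.BM (vm Fam RC Sys GT)
open Q44.TI (Loc pd ch ch_zero ch_mul ch_pd nr_ch dvd_pd_iff pd_pos not_dvd_pd nz_of cop_mod jac_mod fd
  SelS Loc_of_sq Loc_real)
open Q44.BN

/-- the point of order two with a root -/
theorem root_mem {m : ℕ} (m0 : m ≠ 0) (m8 : 8 ∣ m) {A B x₁ : ℤ} (hx0 : x₁ ≠ 0)
    (hx : x₁ ^ 2 + A * x₁ + B = 0) (hxm : ∀ p : ℕ, p.Prime → (p : ℤ) ∣ x₁ → p ∣ m)
    {S : Finset ℕ} (hS : ∀ p ∈ S, p.Prime ∧ p.Coprime m) :
    ∃ g : GG m.primeFactors, UU g * pd S ∈ SelS (A * pd S) (B * pd S ^ 2) := by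
  obtain ⟨u, v, huv, hu⟩ := Nat.sq_mul_squarefree x₁.natAbs
  have hT := Q44.BP.hTm m
  have hu0 : u ≠ 0 := hu.ne_zero
  have hv0 : v ≠ 0 := by
    rintro rfl
    rw [zero_pow two_ne_zero, zero_mul] at huv
    exact hx0 (Int.natAbs_eq_zero.1 huv.symm)
  obtain ⟨ε, hε, hxe⟩ : ∃ ε : ℤ, (ε = 1 ∨ ε = -1) ∧ x₁ = ε * (x₁.natAbs : ℤ) := by
    rcases Int.natAbs_eq x₁ with h | h
    · exact ⟨1, Or.inl rfl, by rw [one_mul]; exact h⟩
    · exact ⟨-1, Or.inr rfl, by rw [neg_one_mul]; exact h⟩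
  have hus : Squarefree (ε * (u : ℤ)) := by
    rw [← Int.squarefree_natAbs, Int.natAbs_mul, Int.natAbs_natCast]
    have : ε.natAbs = 1 := by rcases hε with h | h <;> rw [h] <;> rfl
    rw [this, one_mul]
    exact hu
  have hxu : x₁ = ε * u * (v : ℤ) ^ 2 := by
    rw [hxe, ← huv]
    push_cast
    ring
  obtain ⟨g, hg⟩ := UU_surj hT hus fun p hp hd => by
    refine Nat.mem_primeFactors.2 ⟨hp, hxm p hp ?_, m0⟩
    rw [hxu]
    exact hd.mul_right _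
  refine ⟨g, ?_, ?_, ?_⟩
  · have hc : (∏ p ∈ S, p).Coprime m := Nat.Coprime.prod_left fun p hp => (hS p hp).2
    exact Q44.BP.sqf_mul m0 m8 hc (Q44.TI.sqf_prod fun p hp => (hS p hp).1)
  · intro p _
    have hd := (pd_pos fun l hl => (hS l hl).1).ne'
    refine ⟨((x₁ * pd S : ℤ) : ℚ_[p]), 0, (v : ℚ_[p]), ?_, ?_, ?_⟩
    · exact_mod_cast mul_ne_zero hx0 hd
    · have h2 : ((x₁ : ℤ) : ℚ_[p]) ^ 2 + A * x₁ + B = 0 := by exact_mod_cast congrArg (fun t : ℤ => (t : ℚ_[p])) hx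
      push_cast
      linear_combination (-(x₁ : ℚ_[p]) * (pd S : ℚ_[p]) ^ 3) * h2
    · rw [hg, hxu]
      push_cast
      ring
  · have hd := (pd_pos fun l hl => (hS l hl).1).ne'
    refine ⟨((x₁ * pd S : ℤ) : ℝ), 0, (v : ℝ), ?_, ?_, ?_⟩
    · exact_mod_cast mul_ne_zero hx0 hd
    · have h2 : ((x₁ : ℤ) : ℝ) ^ 2 + A * x₁ + B = 0 := by exact_mod_cast congrArg (fun t : ℤ => (t : ℝ)) hx
      push_cast
      linear_combination (-(x₁ : ℝ) * (pd S : ℝ) ^ 3) * h2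
    · rw [hg, hxu]
      push_cast
      ring

namespace Cq

variable (c : Cq)

/-- all the classes are active -/
theorem jcB : jc c.m c.B = 0 := by
  apply LinearMap.ext
  intro x
  obtain ⟨p, hp, hpm, hx⟩ := ex_pr c.hm.nz x
  rw [← hx, jc_prime c.hm.nz c.hm.dB hp hpm]
  have h := c.hB.map (Int.castRingHom (ZMod p))
  exact ch_zero.2 (by simpa using h)

theorem FA_top : c.FA = ⊤ := by
  unfold FA
  rw [c.jcB, LinearMap.ker_zero]

theorem acp {p : ℕ} (hp : p.Prime) (hpm : p.Coprime c.m) : Ac c.A c.B p := by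
  rw [c.act_iff hp hpm, c.jcB]
  rfl

theorem all_act {p : ℕ} (h : c.rc.Φ.P p) : c.rc.Φ.A p := by
  obtain ⟨h1, h2⟩ := (c.P_iff p).1 h
  exact (c.A_iff p).2 (c.acp h1 h2)

theorem act_all {S : Finset ℕ} (hS : ∀ p ∈ S, c.rc.Φ.P p) : ∀ q ∈ S, q ∈ S ∧ Ac c.A c.B q := fun q hq =>
  ⟨hq, (c.A_iff q).1 (c.all_act (hS q hq))⟩

/-- a root of the polynomial -/
theorem ex_root : ∃ x₁ : ℤ, x₁ ≠ 0 ∧ x₁ ^ 2 + c.A * x₁ + c.B = 0 := by
  obtain ⟨s, hs⟩ := c.Csq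
  have h2 : (2 : ℤ) ∣ c.A - s := by
    have h1 : (4 : ℤ) ∣ (c.A - s) * (c.A + s) := ⟨c.B, by linear_combination hs⟩
    have h3 : (2 : ℤ) ∣ (c.A - s) * (c.A + s) := (by norm_num : (2 : ℤ) ∣ 4).trans h1
    rcases Int.prime_two.dvd_or_dvd h3 with h | h
    · exact h
    · have : c.A - s = (c.A + s) - 2 * s := by ring
      rw [this]
      exact dvd_sub h (Dvd.intro _ rfl)
  obtain ⟨k, hk⟩ := h2
  refine ⟨-k, ?_, ?_⟩
  · rintro h0
    have hk0 : k = 0 := by linarith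
    rw [hk0, mul_zero] at hk
    have hA : c.A = s := by linarith
    apply c.B0
    rw [hA] at hs
    nlinarith
  · have e : s = c.A - 2 * k := by linarith
    rw [e] at hs
    nlinarith

/-- a root of the dual polynomial -/
theorem ex_root' : ∃ x₁ : ℤ, x₁ ≠ 0 ∧ x₁ ^ 2 + (-2 * c.A) * x₁ + (c.A ^ 2 - 4 * c.B) = 0 := by
  obtain ⟨s, hs⟩ := c.hB
  refine ⟨c.A + 2 * s, ?_, ?_⟩
  · intro h0
    apply c.hC
    have : c.A = -2 * s := by linarith
    rw [this, hs]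
    ring
  · rw [hs]
    ring

theorem cop_S {S : Finset ℕ} (hS : ∀ p ∈ S, c.rc.Φ.P p) : ∀ p ∈ S, p.Prime ∧ p.Coprime c.m :=
  fun p hp => (c.P_iff p).1 (hS p hp)

/-- the point of order two on the curve -/
theorem ex_tor {S : Finset ℕ} (hS : ∀ p ∈ S, c.rc.Φ.P p) :
    ∃ g : GG c.T, UU g * pd S ∈ SelS (c.A * pd S) (c.B * pd S ^ 2) := by
  obtain ⟨x, hx0, hx⟩ := c.ex_root
  refine root_mem c.hm.nz c.hm.eight hx0 hx (fun p hp hd => ?_) (c.cop_S hS)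
  refine (c.hm.prime_iff hp).2 ?_
  have h1 : (p : ℤ) ∣ c.B := by
    have : c.B = x * (-x - c.A) := by linear_combination hx
    rw [this]
    exact hd.mul_right _
  exact (h1.mul_right _).mul_left _

/-- the point of order two on the dual curve -/
theorem ex_tor' {S : Finset ℕ} (hS : ∀ p ∈ S, c.rc.Φ.P p) :
    ∃ g : GG c.T, UU g * pd S ∈ c.DS S := by
  obtain ⟨x, hx0, hx⟩ := c.ex_root'
  have e1 : -2 * (c.A * pd S) = -2 * c.A * pd S := by ring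
  have e2 : (c.A * pd S) ^ 2 - 4 * (c.B * pd S ^ 2) = (c.A ^ 2 - 4 * c.B) * pd S ^ 2 := by ring
  unfold DS
  rw [e1, e2]
  refine root_mem c.hm.nz c.hm.eight hx0 hx (fun p hp hd => ?_) (c.cop_S hS)
  refine (c.hm.prime_iff hp).2 ?_
  have h1 : (p : ℤ) ∣ c.A ^ 2 - 4 * c.B := by
    have : c.A ^ 2 - 4 * c.B = x * (2 * c.A - x) := by linear_combination hx
    rw [this]
    exact hd.mul_right _
  exact (h1.mul_left _).mul_left _

/-- the full vector -/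
theorem tor {S : Finset ℕ} (hS : ∀ p ∈ S, c.rc.Φ.P p)
    (hG : hF c.m (∏ p ∈ S, p) = hF c.m c.d) : Tor (c.sy c.LL) S := by
  obtain ⟨g, hg⟩ := c.ex_tor hS
  rw [c.SelS_eq hS hG] at hg
  obtain ⟨w, hw, h⟩ := hg
  obtain ⟨h1, h2⟩ := c.mem_Sel' c.LL hw
  obtain ⟨h3, h4⟩ := uniq (c.Sup_UU w.2) (c.Sup_UU g) (fun q hq => (h1 q hq).2)
    (fun q hq => (c.act_all hS q hq).2) h
  refine ⟨w.2, ?_⟩
  have h5 : w.1 = fun q => if q ∈ S then 1 else 0 := by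
    rw [← h2, h4]
    rfl
  rw [← h5]
  exact hw

/-- **the sum of the equations** -/
theorem red {S : Finset ℕ} (hS : ∀ p ∈ S, c.rc.Φ.P p)
    (hG : hF c.m (∏ p ∈ S, p) = hF c.m c.d) : Red (c.sy c.LL) S := by
  intro w hw1 hw2
  obtain ⟨g', hg'⟩ := c.ex_tor' hS
  have hAc := c.act_all hS
  set J := S.filter fun p => w.1 p ≠ 0 with hJ
  have hJi : ind J = w.1 := ind_filter hw1
  have hJA : ∀ q ∈ J, q ∈ S ∧ Ac c.A c.B q := fun q hq => hAc q (mem_filter.1 hq).1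
  have hL : Lb c.A c.B (pd S) (UU w.2 * pd J) := by
    refine (c.cls_iff hS hG hJA w.2).1 ?_
    rw [hJi]
    exact hw2
  have h1 := c.parity hS hJA w.2 hL hg'
  have h2 : S.filter (Ac c.A c.B) = S := filter_true_of_mem fun q hq => (hAc q hq).2
  rw [h2] at h1
  rw [← h1]
  refine sum_congr rfl fun q hq => ?_
  have h3 : (q : ℤ) ∣ UU g' * pd S :=
    ((dvd_pd_iff (hAc q hq).2.pr fun l hl => (hAc l hl).2.pr).2 hq).mul_left _
  rw [if_pos h3, mul_one]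
  show row (c.sy c.LL) S w q = c.rw0 S (ind J, w.2) q
  rw [hJi]
  rfl

/-- the residue classes -/
abbrev I : Type := {r : ℕ // r ∈ (range c.m).filter fun r => r.Coprime c.m}

/-- the primes of a residue class -/
def cl (i : c.I) (p : ℕ) : Prop := p.Prime ∧ p % c.m = i

variable {c}

theorem cl_cop {i : c.I} {p : ℕ} (h : c.cl i p) : p.Coprime c.m :=
  cop_mod.1 (h.2 ▸ (mem_filter.1 i.2).2)

theorem cl_hF {i : c.I} {p : ℕ} (h : c.cl i p) : hF c.m p = hF c.m i := by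
  rw [← hF_mod (cl_cop h), h.2]

/-- the residue class of a number -/
def ofN (c : Cq) {n : ℕ} (hn : n.Coprime c.m) : c.I :=
  ⟨n % c.m, mem_filter.2 ⟨mem_range.2 (Nat.mod_lt _ (Nat.pos_of_ne_zero c.hm.nz)), cop_mod.2 hn⟩⟩

theorem cl_ofN {n : ℕ} (hn : n.Coprime c.m) {p : ℕ} (h : c.cl (c.ofN hn) p) :
    hF c.m p = hF c.m n := by
  rw [cl_hF h]
  exact hF_mod hn

/-- a class where a functional does not vanish -/
theorem ex_cl (x : c.FA) : ∃ i : c.I, ∀ p, c.cl i p → Ac c.A c.B p ∧ c.hA p = x := by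
  obtain ⟨n, hn, -, hx⟩ := hF_surj c.hm.nz (x : Fm c.m)
  refine ⟨c.ofN hn, fun p hp => ?_⟩
  have h1 : hF c.m p = x := (cl_ofN hn hp).trans hx
  have h2 : Ac c.A c.B p := by
    rw [c.act_iff hp.1 (cl_cop hp), h1]
    exact x.2
  refine ⟨h2, Subtype.ext ?_⟩
  rw [c.hA_coe h2, h1]

variable (c)

/-- the functional of a vector -/
noncomputable def ph (g : GG c.T) : Fm c.m →ₗ[ZMod 2] ZMod 2 :=
  lm (fun y => ∑ t : c.T, g.1 t * jc c.m ((t : ℕ) : ℤ) y + g.2 * jc c.m (-1) y) (by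
    intro a b
    simp only [map_add, mul_add, sum_add_distrib]
    ring)

theorem chi_ph (g : GG c.T) (x : c.FA) : c.chi g x = c.ph g x := rfl


theorem chi_zero {g : GG c.T} (h : c.chi g = 0) : g = 0 := by
  by_contra hne
  have h3 : ¬ IsSquare (UU g) := fun h3 => hne (UU_sq_zero c.hT h3)
  obtain ⟨p, h1, h2, h4, h5⟩ := ex_prime h3 c.m c.hm.nz
  have h6 := c.chi_hA g (c.acp h1 h2)
  rw [h, h5] at h6
  exact zero_ne_one h6

/-- **the system is not degenerate** -/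
theorem good : Good (c.sy c.LL) c.cl := by
  refine ⟨fun p hp => c.all_act hp, fun p hp => ?_, fun l hl => ?_, fun g e h hχ => c.chi_zero hχ, ?_⟩
  · have hE : p.Prime ∧ p % c.m = 1 := hp
    show c.hA p = 0
    have hc : p.Coprime c.m := cop_mod.1 (by rw [hE.2]; exact Nat.coprime_one_left _)
    have h1 : hF c.m p = 0 := by rw [← hF_mod hc, hE.2, hF_one]
    exact Subtype.ext ((c.hA_coe (c.acp hE.1 hc)).trans h1)
  · obtain ⟨x, hx⟩ : ∃ x : c.FA, l x ≠ 0 := by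
      by_contra h
      push Not at h
      exact hl (LinearMap.ext h)
    obtain ⟨i, hi⟩ := ex_cl x
    refine ⟨i, fun p hp => ?_⟩
    obtain ⟨h1, h2⟩ := hi p hp
    refine ⟨(c.A_iff p).2 h1, ?_⟩
    show l (c.hA p) ≠ 0
    rw [h2]
    exact hx
  · obtain ⟨p, h1, h2, h3, h4⟩ := ex_prime (z := -1) (by
      rintro ⟨s, hs⟩
      nlinarith [mul_self_nonneg s]) c.m c.hm.nz
    refine ⟨c.ofN h2, fun q hq => ?_⟩
    have ha := c.acp hq.1 (cl_cop hq)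
    refine ⟨(c.A_iff q).2 ha, ?_⟩
    show jc c.m (-1) (c.hA q) ≠ 0
    rw [c.hA_coe ha, cl_ofN h2 hq, jc_prime c.hm.nz c.hm.dneg h1 h2, h4]
    exact one_ne_zero

/-- the label -/
noncomputable def lb (p : ℕ) : Fin c.m × ZMod 2 :=
  (⟨p % c.m, Nat.mod_lt _ (Nat.pos_of_ne_zero c.hm.nz)⟩, fd c.A c.B p)

theorem lb_ok : Q44.BM.Lb (c.sy c.LL) c.cl c.lb (hF c.m) := by
  intro p q hp hq h
  obtain ⟨hp1, hp2⟩ := (c.P_iff p).1 hp
  obtain ⟨hq1, hq2⟩ := (c.P_iff q).1 hq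
  have h1 : p % c.m = q % c.m := congrArg (fun t => (t.1 : ℕ)) h
  have h2 : fd c.A c.B p = fd c.A c.B q := congrArg (fun t => t.2) h
  have h3 : hF c.m p = hF c.m q := by rw [← hF_mod hp2, h1, hF_mod hq2]
  have h4 : Ac c.A c.B p ↔ Ac c.A c.B q := by rw [c.act_iff hp1 hp2, c.act_iff hq1 hq2, h3]
  refine ⟨?_, h2, ?_, fun i => ?_, h3⟩
  · show c.hA p = c.hA q
    by_cases ha : Ac c.A c.B p
    · apply Subtype.ext
      rw [c.hA_coe ha, c.hA_coe (h4.1 ha), h3]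
    · unfold hA
      rw [dif_neg ha, dif_neg fun h => ha (h4.2 h)]
  · show (p.Prime ∧ p % c.m = 1) ↔ (q.Prime ∧ q % c.m = 1)
    rw [h1]
    exact ⟨fun h => ⟨hq1, h.2⟩, fun h => ⟨hp1, h.2⟩⟩
  · unfold cl
    rw [h1]
    exact ⟨fun h => ⟨hq1, h.2⟩, fun h => ⟨hp1, h.2⟩⟩

end Cq

end Q44.BS
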