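import Mathlib

/-!
# Finitely generated abelian groups with four elements of order dividing two
-/

set_option autoImplicit false

open scoped Classical

namespace Q44.BS

/-- the doubling -/
def dbl (M : Type*) [AddCommGroup M] : M →+ M where
  toFun x := x + x
  map_zero' := add_zero 0
  map_add' x y := by abel

theorem dbl_apply {M : Type*} [AddCommGroup M] (x : M) : dbl M x = x + x := rfl

/-- a finite group: the quotient by the doubles and the kernel of the doubling have the same order -/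
theorem card_quo {F : Type*} [AddCommGroup F] [Finite F] :
    Nat.card (F ⧸ (dbl F).range) = Nat.card (dbl F).ker := by
  have h1 := AddSubgroup.card_eq_card_quotient_mul_card_addSubgroup (dbl F).range
  have h2 := AddSubgroup.card_eq_card_quotient_mul_card_addSubgroup (dbl F).ker
  have h3 : Nat.card (F ⧸ (dbl F).ker) = Nat.card (dbl F).range :=
    Nat.card_congr (QuotientAddGroup.quotientKerEquivRange (dbl F)).toEquiv
  rw [h3, mul_comm] at h2
  have h4 : 0 < Nat.card (dbl F).range := Nat.card_pos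
  exact Nat.eq_of_mul_eq_mul_right h4 (h1.symm.trans h2)

/-- the rank of a product -/
theorem finrank_le {M F : Type*} [AddCommGroup M] [AddCommGroup F] [Finite F] {n : ℕ}
    (E : M ≃+ (Fin n →₀ ℤ) × F) : Module.finrank ℤ M = n := by
  have h1 : Module.finrank ℤ M = Module.finrank ℤ ((Fin n →₀ ℤ) × F) :=
    LinearEquiv.finrank_eq E.toIntLinearEquiv
  set π : ((Fin n →₀ ℤ) × F) →ₗ[ℤ] (Fin n →₀ ℤ) := LinearMap.fst ℤ _ _ with hπ
  have h2 : LinearMap.ker π ≤ Submodule.torsion ℤ ((Fin n →₀ ℤ) × F) := by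
    rintro ⟨x, y⟩ hx
    have hx0 : x = 0 := hx
    refine (Submodule.mem_torsion_iff _).2 ⟨⟨(Nat.card F : ℤ),
      mem_nonZeroDivisors_of_ne_zero (by exact_mod_cast Nat.card_pos.ne')⟩, ?_⟩
    show (Nat.card F : ℤ) • (x, y) = 0
    rw [hx0, Prod.smul_mk, smul_zero, natCast_zsmul, card_nsmul_eq_zero']
    rfl
  have h3 := finrank_quotient_eq_of_le_torsion h2
  have h4 : Function.Surjective π := fun x => ⟨(x, 0), rfl⟩
  rw [h1, ← h3, LinearEquiv.finrank_eq (LinearMap.quotKerEquivOfSurjective π h4),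
    Module.finrank_finsupp_self, Fintype.card_fin]

theorem rank_quo' {M F : Type*} [AddCommGroup M] [AddCommGroup F] [Finite F] {n : ℕ}
    (E : M ≃+ (Fin n →₀ ℤ) × F) (S : Finset M) (hS : S.card = 4)
    (h : ∀ x ∈ S, x + x = 0) [hfin : Finite (M ⧸ (dbl M).range)] :
    4 * 2 ^ Module.finrank ℤ M ≤ Nat.card (M ⧸ (dbl M).range) := by
  rw [finrank_le E]
  have hker : 4 ≤ Nat.card (dbl F).ker := by
    have hi : Set.InjOn (fun x => (E x).2) (S : Set M) := by
      intro x hx y hy hxy
      have key : ∀ x ∈ S, (E x).1 = 0 := by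
        intro x hx
        have h1 := congrArg (fun t => (E t).1) (h x hx)
        simp only [map_add, map_zero, Prod.fst_add, Prod.fst_zero] at h1
        ext i
        have h2 := congrArg (fun t : Fin n →₀ ℤ => t i) h1
        simp only [Finsupp.coe_add, Pi.add_apply, Finsupp.coe_zero, Pi.zero_apply] at h2 ⊢
        omega
      apply E.injective
      exact Prod.ext ((key x hx).trans (key y hy).symm) hxy
    have h1 : (S.image fun x => (E x).2).card = 4 := by
      rw [Finset.card_image_of_injOn hi, hS]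
    have h2 : ∀ y ∈ S.image fun x => (E x).2, y ∈ (dbl F).ker := by
      intro y hy
      obtain ⟨x, hx, rfl⟩ := Finset.mem_image.1 hy
      show (E x).2 + (E x).2 = 0
      rw [← Prod.snd_add, ← map_add, h x hx, map_zero, Prod.snd_zero]
    rw [← h1]
    have h3 : ((S.image fun x => (E x).2 : Finset F) : Set F) ⊆ ((dbl F).ker : Set F) := h2
    have h4 := Set.ncard_le_ncard h3 (Set.toFinite _)
    rw [Set.ncard_coe_finset] at h4
    exact h4
  -- the map
  let φ₀ : M →+ (Fin n → ZMod 2) :=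
    AddMonoidHom.mk' (fun x => fun i => (((E x).1 i : ℤ) : ZMod 2)) (by
      intro x y
      funext i
      simp only [map_add, Prod.fst_add, Finsupp.coe_add, Pi.add_apply, Int.cast_add])
  let φ₁ : M →+ F ⧸ (dbl F).range :=
    (QuotientAddGroup.mk' (dbl F).range).comp ((AddMonoidHom.snd _ _).comp E.toAddMonoidHom)
  let φ : M →+ (Fin n → ZMod 2) × (F ⧸ (dbl F).range) := φ₀.prod φ₁
  have hφ : (dbl M).range ≤ φ.ker := by
    rintro _ ⟨x, rfl⟩
    refine Prod.ext ?_ ?_
    · have k : ∀ a : ZMod 2, a + a = 0 := by decide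
      show φ₀ (x + x) = 0
      rw [map_add]
      exact funext fun i => k _
    · show ((E (x + x)).2 : F ⧸ (dbl F).range) = 0
      rw [QuotientAddGroup.eq_zero_iff, map_add, Prod.snd_add]
      exact ⟨(E x).2, rfl⟩
  have hsurj : Function.Surjective (QuotientAddGroup.lift _ φ hφ) := by
    rintro ⟨u, v⟩
    obtain ⟨y, rfl⟩ := QuotientAddGroup.mk_surjective v
    refine ⟨QuotientAddGroup.mk (E.symm (Finsupp.equivFunOnFinite.symm fun i => ((u i).val : ℤ), y)), ?_⟩
    rw [QuotientAddGroup.lift_mk]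
    refine Prod.ext (funext fun i => ?_) ?_
    · show (((E (E.symm _)).1 i : ℤ) : ZMod 2) = u i
      rw [AddEquiv.apply_symm_apply]
      show (((u i).val : ℤ) : ZMod 2) = u i
      rw [Int.cast_natCast, ZMod.natCast_val, ZMod.cast_id]
    · show ((E (E.symm _)).2 : F ⧸ (dbl F).range) = _
      rw [AddEquiv.apply_symm_apply]
  have h5 := Nat.card_le_card_of_surjective _ hsurj
  rw [Nat.card_prod, card_quo, Nat.card_fun, Nat.card_eq_fintype_card, ZMod.card,
    Nat.card_eq_fintype_card, Fintype.card_fin] at h5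
  calc 4 * 2 ^ n = 2 ^ n * 4 := mul_comm _ _
    _ ≤ 2 ^ n * Nat.card (dbl F).ker := Nat.mul_le_mul_left _ hker
    _ ≤ _ := h5

theorem rank_quo_le' {M F : Type*} [AddCommGroup M] [AddCommGroup F] [Finite F] {n : ℕ}
    (E : M ≃+ (Fin n →₀ ℤ) × F) (h : ∀ S : Finset M, (∀ x ∈ S, x + x = 0) → S.card ≤ 4) :
    Finite (M ⧸ (dbl M).range) ∧
      Nat.card (M ⧸ (dbl M).range) ≤ 4 * 2 ^ Module.finrank ℤ M := by
  rw [finrank_le E]
  have hker : Nat.card (dbl F).ker ≤ 4 := by
    have hF : Fintype (dbl F).ker := Fintype.ofFinite _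
    have hi : Function.Injective (fun y : (dbl F).ker => E.symm ((0 : Fin n →₀ ℤ), (y : F))) := by
      intro y z hyz
      have h1 := E.symm.injective hyz
      exact Subtype.ext (Prod.mk.inj h1).2
    have h1 := h (Finset.univ.image fun y : (dbl F).ker => E.symm ((0 : Fin n →₀ ℤ), (y : F))) (by
      intro x hx
      obtain ⟨y, -, rfl⟩ := Finset.mem_image.1 hx
      have hy : (y : F) + y = 0 := y.2
      rw [← map_add, Prod.mk_add_mk, hy, add_zero]
      exact map_zero _)
    rw [Finset.card_image_of_injective _ hi, Finset.card_univ] at h1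
    rw [Nat.card_eq_fintype_card]
    exact h1
  -- the map
  let φ₀ : M →+ (Fin n → ZMod 2) :=
    AddMonoidHom.mk' (fun x => fun i => (((E x).1 i : ℤ) : ZMod 2)) (by
      intro x y
      funext i
      simp only [map_add, Prod.fst_add, Finsupp.coe_add, Pi.add_apply, Int.cast_add])
  let φ₁ : M →+ F ⧸ (dbl F).range :=
    (QuotientAddGroup.mk' (dbl F).range).comp ((AddMonoidHom.snd _ _).comp E.toAddMonoidHom)
  let φ : M →+ (Fin n → ZMod 2) × (F ⧸ (dbl F).range) := φ₀.prod φ₁
  have hφ : φ.ker ≤ (dbl M).range := by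
    intro x hx
    have hx' : φ x = 0 := hx
    have h1 : φ₀ x = 0 := (Prod.mk.inj hx').1
    have h2 : φ₁ x = 0 := (Prod.mk.inj hx').2
    have h3 : ((E x).2 : F ⧸ (dbl F).range) = 0 := h2
    obtain ⟨y, hy⟩ := (QuotientAddGroup.eq_zero_iff _).1 h3
    have h4 : ∀ i, ∃ k : ℤ, (E x).1 i = k + k := by
      intro i
      have h5 : (((E x).1 i : ℤ) : ZMod 2) = 0 := congrFun h1 i
      rw [ZMod.intCast_zmod_eq_zero_iff_dvd] at h5
      obtain ⟨k, hk⟩ := h5
      refine ⟨k, ?_⟩
      rw [hk]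
      push_cast
      ring
    choose k hk using h4
    refine ⟨E.symm (Finsupp.equivFunOnFinite.symm k, y), ?_⟩
    rw [dbl_apply, ← map_add, AddEquiv.symm_apply_eq, Prod.mk_add_mk]
    refine Prod.ext (Finsupp.ext fun i => ?_) hy
    rw [hk i]
    rfl
  let ψ : M ⧸ φ.ker → (Fin n → ZMod 2) × (F ⧸ (dbl F).range) := QuotientAddGroup.kerLift φ
  have hinj : Function.Injective ψ := QuotientAddGroup.kerLift_injective φ
  have hfin : Finite (M ⧸ φ.ker) := Finite.of_injective ψ hinj
  have h5 := Nat.card_le_card_of_injective ψ hinj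
  rw [Nat.card_prod, card_quo, Nat.card_fun, Nat.card_eq_fintype_card (α := ZMod 2), ZMod.card,
    Nat.card_eq_fintype_card (α := Fin n), Fintype.card_fin] at h5
  have hs : Function.Surjective (QuotientAddGroup.map φ.ker (dbl M).range (AddMonoidHom.id M)
      (fun x hx => hφ hx)) := by
    intro x
    obtain ⟨y, rfl⟩ := QuotientAddGroup.mk_surjective x
    exact ⟨QuotientAddGroup.mk y, rfl⟩
  refine ⟨Finite.of_surjective _ hs, ?_⟩
  have h6 := Nat.card_le_card_of_surjective _ hs
  calc Nat.card (M ⧸ (dbl M).range) ≤ Nat.card (M ⧸ φ.ker) := h6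
    _ ≤ 2 ^ n * Nat.card (dbl F).ker := h5
    _ ≤ 2 ^ n * 4 := Nat.mul_le_mul_left _ hker
    _ = 4 * 2 ^ n := mul_comm _ _

/-- **the rank and the doubles, from above** -/
theorem rank_quo_le {M : Type*} [AddCommGroup M] (hM : AddGroup.FG M)
    (h : ∀ S : Finset M, (∀ x ∈ S, x + x = 0) → S.card ≤ 4) :
    Finite (M ⧸ (dbl M).range) ∧
      Nat.card (M ⧸ (dbl M).range) ≤ 4 * 2 ^ Module.finrank ℤ M := by
  obtain ⟨n, ι, fι, p, hp, e, ⟨E⟩⟩ := AddCommGroup.equiv_free_prod_directSum_zmod M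
  have h1 : ∀ i, Finite (ZMod (p i ^ e i)) := fun i => by
    have : NeZero (p i ^ e i) := ⟨pow_ne_zero _ (hp i).ne_zero⟩
    infer_instance
  have h2 : Finite (DirectSum ι fun i => ZMod (p i ^ e i)) :=
    Finite.of_equiv _ DFinsupp.equivFunOnFintype.symm
  exact rank_quo_le' E h

/-- **the rank and the doubles** -/
theorem rank_quo {M : Type*} [AddCommGroup M] (hM : AddGroup.FG M) (S : Finset M) (hS : S.card = 4)
    (h : ∀ x ∈ S, x + x = 0) [hfin : Finite (M ⧸ (dbl M).range)] :
    4 * 2 ^ Module.finrank ℤ M ≤ Nat.card (M ⧸ (dbl M).range) := by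
  obtain ⟨n, ι, fι, p, hp, e, ⟨E⟩⟩ := AddCommGroup.equiv_free_prod_directSum_zmod M
  have h1 : ∀ i, Finite (ZMod (p i ^ e i)) := fun i => by
    have : NeZero (p i ^ e i) := ⟨pow_ne_zero _ (hp i).ne_zero⟩
    infer_instance
  have h2 : Finite (DirectSum ι fun i => ZMod (p i ^ e i)) :=
    Finite.of_equiv _ DFinsupp.equivFunOnFintype.symm
  exact rank_quo' E S hS h

end Q44.BS
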