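import Pool.Agent.Q44.BS.Gd
import Pool.Agent.Q44.BN.Law

/-!
# The law in a local class
-/

set_option autoImplicit false
set_option linter.unusedSectionVars false
set_option linter.unusedVariables false

open scoped Classical

namespace Q44.BS

open Finset Module Filter
open Pool.Agent.Y703.CQ (nr)
open Q44.BC (lm lam)
open Q44.TK (Fm hF hF_pos hF_mul hF_sum hF_eq hF_one Fm_two fin_Fm)
open Q44.BM (vm Fam RC Sys SS Ok HM GT Rch mem_SS t_DQ t_BX pos_prop law_pos hm_cls)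
open Q44.TI (pd SelS cop_mod cardf ratio)
open Q44.BN


namespace Cq

variable (c : Cq)

/-- the positive squarefree integers prime to `m` in the local class of `d` -/
def Dm (D : ℕ) : Prop := (Squarefree D ∧ D.Coprime c.m) ∧ hF c.m D = hF c.m c.d

/-- the constant of the class -/
noncomputable def t : ℝ := (Nat.card c.LL : ℝ) / (Nat.card c.FA : ℝ)

theorem finFA : Finite c.FA := by
  have : NeZero c.m := ⟨c.hm.nz⟩
  have := fin_Fm c.m
  infer_instance

theorem t_pos : 0 < c.t := by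
  have := c.finFA
  have h1 : 0 < Nat.card c.FA := Nat.card_pos
  have h2 : 0 < Nat.card c.LL := Nat.card_pos
  unfold t
  positivity

theorem reach : Rch c.rc.Φ (hF c.m) (hF c.m c.d) := by
  obtain ⟨p, -, hp, h1⟩ := Nat.forall_exists_prime_gt_and_modEq 0 c.hm.nz c.hd
  have h2 : p % c.m = c.d % c.m := h1
  have hc : p.Coprime c.m := cop_mod.1 (by rw [h2]; exact cop_mod.2 c.hd)
  refine ⟨{p}, fun q hq => ?_, ?_⟩
  · rw [mem_singleton.1 hq]
    exact (c.P_iff p).2 ⟨hp, hc⟩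
  · unfold GT
    rw [sum_singleton, ← hF_mod hc, h2, hF_mod c.hd]

theorem GT_iff {S : Finset ℕ} (hS : ∀ p ∈ S, c.rc.Φ.P p) :
    GT (hF c.m) (hF c.m c.d) S ↔ hF c.m (∏ p ∈ S, p) = hF c.m c.d := by
  unfold GT
  rw [hF_sum S fun p hp => ((c.P_iff p).1 (hS p hp)).2]

theorem Dm_iff (D : ℕ) : c.Dm D ↔ (Squarefree D ∧ ∀ p ∈ D.primeFactors, c.rc.Φ.P p) ∧
    GT (hF c.m) (hF c.m c.d) D.primeFactors := by
  unfold Dm
  constructor
  · rintro ⟨⟨h1, h2⟩, h3⟩
    have h4 : ∀ p ∈ D.primeFactors, c.rc.Φ.P p := fun p hp => (c.P_iff p).2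
      ⟨Nat.prime_of_mem_primeFactors hp,
        Nat.Coprime.coprime_dvd_left (Nat.dvd_of_mem_primeFactors hp) h2⟩
    refine ⟨⟨h1, h4⟩, ?_⟩
    rw [c.GT_iff h4, Nat.prod_primeFactors_of_squarefree h1]
    exact h3
  · rintro ⟨⟨h1, h2⟩, h3⟩
    rw [c.GT_iff h2, Nat.prod_primeFactors_of_squarefree h1] at h3
    refine ⟨⟨h1, ?_⟩, h3⟩
    rw [← Nat.prod_primeFactors_of_squarefree h1]
    exact c.prod_cop fun p hp => ((c.P_iff p).1 (h2 p hp)).2

/-- the dimension of the space of the solutions is `r` -/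
def Dr (r : ℕ) (S : Finset ℕ) : Prop := finrank (ZMod 2) ((c.sy c.LL).Sel S) = r + 1

/-- **the law for the system** -/
theorem law0 (r : ℕ) :
    Tendsto (fun X : ℕ => (((SS c.rc.Φ X).filter fun S => GT (hF c.m) (hF c.m c.d) S ∧
        c.Dr r S).card : ℝ) /
      (((SS c.rc.Φ X).filter (GT (hF c.m) (hF c.m c.d))).card : ℝ)) atTop (nhds (lam c.t r)) := by
  have hnz : NeZero c.m := ⟨c.hm.nz⟩
  have hfin := c.finFA
  have hcard : (Nat.card (c.sy c.LL).𝓛 : ℝ) = c.t * Nat.card c.FA := by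
    have h1 : 0 < Nat.card c.FA := Nat.card_pos
    have h2 : (0 : ℝ) < (Nat.card c.FA : ℝ) := by exact_mod_cast h1
    unfold t
    rw [div_mul_cancel₀ _ h2.ne']
    rfl
  refine law_pos c.rc.ok (pos_prop Fm_two c.rc.ok (hF c.m) c.reach) ?_
  have hBX : ∀ ε : ℝ, 0 < ε → ∃ R, Q44.BM.BX c.rc.Φ c.cl (GT (hF c.m) (hF c.m c.d)) (c.Dr r)
      (lam c.t r) ε (Fintype.card (Fin c.m × ZMod 2)) R := fun ε hε =>
    t_BXQ (c.sy c.LL) c.good c.t_pos hcard r (hF c.m c.d) c.lb_ok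
      (fun S _ hS hG => ⟨c.tor hS ((c.GT_iff hS).1 hG), c.red hS ((c.GT_iff hS).1 hG)⟩) hε
  refine t_DQ c.rc.ok c.cl (fun i p h => (c.P_iff p).2 ⟨h.1, cl_cop h⟩) (fun i => ?_) _ _ _ _ hBX
  have h1 := hm_cls (Nat.pos_of_ne_zero c.hm.nz) {(i : ℕ)} (fun a ha => by
    rw [mem_singleton.1 ha]
    exact ⟨mem_range.1 (mem_filter.1 i.2).1, (mem_filter.1 i.2).2⟩) (singleton_nonempty _)
  obtain ⟨θ, C, hθ, h2⟩ := h1
  refine ⟨θ, C, hθ, fun y hy => (h2 y hy).trans (le_of_eq ?_)⟩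
  refine sum_congr ?_ fun _ _ => rfl
  ext p
  simp only [mem_filter, mem_singleton]
  unfold cl
  tauto

/-- **the order of the Selmer group** -/
theorem ncard_SelS {S : Finset ℕ} (hS : ∀ p ∈ S, c.rc.Φ.P p)
    (hG : hF c.m (∏ p ∈ S, p) = hF c.m c.d) :
    (SelS (c.A * pd S) (c.B * pd S ^ 2)).Finite ∧
      (SelS (c.A * pd S) (c.B * pd S ^ 2)).ncard =
        2 ^ (finrank (ZMod 2) ((c.sy c.LL).Sel S)) := by
  obtain ⟨h1, h2⟩ := c.card_SelS hS hG
  have hf := c.fin_Sel S c.LL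
  refine ⟨h1, ?_⟩
  rw [h2, Module.natCard_eq_pow_finrank (K := ZMod 2), Nat.card_eq_fintype_card, ZMod.card]

/-- **the law in a local class** -/
theorem law (r : ℕ) :
    Tendsto (fun X : ℕ => (((Icc 1 X).filter fun D : ℕ => c.Dm D ∧
        (SelS (c.A * D) (c.B * (D : ℤ) ^ 2)).ncard = 2 ^ (r + 1)).card : ℝ) /
      (((Icc 1 X).filter fun D : ℕ => c.Dm D).card : ℝ)) atTop (nhds (lam c.t r)) := by
  refine (c.law0 r).congr fun X => ?_
  rw [← card_nat c.rc.Φ X (fun S => GT (hF c.m) (hF c.m c.d) S ∧ c.Dr r S),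
    ← card_nat c.rc.Φ X (GT (hF c.m) (hF c.m c.d))]
  refine ratio (fun D => ?_) (fun D => ?_) _
  · rw [c.Dm_iff, and_assoc (b := GT (hF c.m) (hF c.m c.d) D.primeFactors)]
    refine and_congr_right fun h1 => and_congr_right fun h2 => ?_
    unfold Dr
    have h3 := (c.ncard_SelS h1.2 ((c.GT_iff h1.2).1 h2)).2
    have e : pd D.primeFactors = (D : ℤ) := by
      unfold pd
      rw [Nat.prod_primeFactors_of_squarefree h1.1]
    rw [e] at h3
    rw [h3]
    constructor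
    · intro h
      rw [h]
    · intro h
      have := Nat.pow_right_injective (le_refl 2) h
      omega
  · exact (c.Dm_iff D).symm

/-- the local classes have positive density -/
theorem pos_cls : ∃ (η : ℝ) (X₀ : ℕ), 0 < η ∧ ∀ X : ℕ, X₀ ≤ X →
    η * (((Icc 1 X).filter fun D : ℕ => Squarefree D ∧ D.Coprime c.m).card : ℝ) ≤
      (((Icc 1 X).filter fun D : ℕ => c.Dm D).card : ℝ) := by
  have hnz : NeZero c.m := ⟨c.hm.nz⟩
  obtain ⟨η, X₀, hη, h⟩ := pos_prop Fm_two c.rc.ok (hF c.m) c.reach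
  refine ⟨η, X₀, hη, fun X hX => ?_⟩
  have h1 := h X hX
  rw [← card_nat c.rc.Φ X] at h1
  have e1 : ((Icc 1 X).filter fun D : ℕ => Squarefree D ∧ D.Coprime c.m).card =
      (SS c.rc.Φ X).card := by
    have h2 := card_nat c.rc.Φ X (fun _ => True) (iQ := fun _ => instDecidableTrue)
    rw [filter_true] at h2
    rw [← h2]
    refine cardf (fun D => ?_) _
    constructor
    · rintro ⟨h3, h4⟩
      exact ⟨⟨h3, fun p hp => (c.P_iff p).2 ⟨Nat.prime_of_mem_primeFactors hp,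
        Nat.Coprime.coprime_dvd_left (Nat.dvd_of_mem_primeFactors hp) h4⟩⟩, trivial⟩
    · rintro ⟨⟨h3, h4⟩, -⟩
      refine ⟨h3, ?_⟩
      rw [← Nat.prod_primeFactors_of_squarefree h3]
      exact c.prod_cop fun p hp => ((c.P_iff p).1 (h4 p hp)).2
  rw [e1]
  refine h1.trans (le_of_eq ?_)
  congr 1
  exact cardf (fun D => (c.Dm_iff D).symm) _

end Cq

end Q44.BS
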