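import Pool.Agent.Q44.BS.Bij

/-!
# The sum of the equations
-/

set_option autoImplicit false
set_option linter.unusedSectionVars false
set_option linter.unusedVariables false

open scoped Classical

namespace Q44.BS

open Finset
open Pool.Agent.W313.BMX (Splits)
open Pool.Agent.W928.BMX (splits_comm splits_sq splits_real)
open Pool.Agent.Y703.CQ (nr)
open Q44.TK (Fm hF hF_pos hF_mul hF_sum hF_eq hF_one Fm_two)
open Q44.BM (vm Fam RC Sys)
open Q44.TI (Loc SelS pd fd ch nr_ch ch_zero ch_mul ch_pd ch_sq zmod2 zmod2' fd_zero Loc_good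
  Loc_of_sq padic_sq pd_erase pd_sdiff not_dvd_pd dvd_pd_iff pd_pos nz_of)
open Q44.BN


namespace Cq

variable (c : Cq)

/-- the row of a vector -/
noncomputable def rw0 (S : Finset ℕ) (w : (ℕ → ZMod 2) × GG c.T) (p : ℕ) : ZMod 2 :=
  ∑ q ∈ S, nr p q * (w.1 q + w.1 p) + fd c.A c.B p * w.1 p + c.chi w.2 (c.hA p)

theorem rw_eq {S J : Finset ℕ} (hJ : ∀ q ∈ J, q ∈ S ∧ Ac c.A c.B q) (g : GG c.T) {p : ℕ}
    (ha : Ac c.A c.B p) : c.rw0 S (ind J, g) p = rr c.A c.B S J (UU g) p := by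
  have hJS : J ⊆ S := fun q hq => (hJ q hq).1
  unfold rw0 rr
  rw [c.chi_hA g ha]
  by_cases hpJ : p ∈ J
  · have h2 : ind J p = 1 := if_pos hpJ
    rw [if_pos hpJ]
    simp only
    rw [h2]
    have h3 : ∑ q ∈ S, nr p q * (ind J q + 1) = ∑ q ∈ S \ J, nr p q := by
      rw [← sum_sdiff hJS]
      have e1 : ∑ q ∈ J, nr p q * (ind J q + 1) = 0 := by
        refine sum_eq_zero fun q hq => ?_
        have : ind J q = 1 := if_pos hq
        rw [this, CharTwo.add_self_eq_zero, mul_zero]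
      have e2 : ∑ q ∈ S \ J, nr p q * (ind J q + 1) = ∑ q ∈ S \ J, nr p q := by
        refine sum_congr rfl fun q hq => ?_
        have : ind J q = 0 := if_neg (mem_sdiff.1 hq).2
        rw [this, zero_add, mul_one]
      rw [e1, e2, add_zero]
    rw [h3]
    ring
  · have h2 : ind J p = 0 := if_neg hpJ
    rw [if_neg hpJ]
    simp only
    rw [h2]
    have h3 : ∑ q ∈ S, nr p q * (ind J q + 0) = ∑ j ∈ J, nr p j := by
      rw [← sum_ind hJS fun q => nr p q]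
      refine sum_congr rfl fun q _ => ?_
      rw [smul_eq_mul]
      ring
    rw [h3]
    ring

/-- the dual Selmer group of the twist -/
def DS (S : Finset ℕ) : Set ℤ :=
  SelS (-2 * (c.A * pd S)) ((c.A * pd S) ^ 2 - 4 * (c.B * pd S ^ 2))

theorem cl_all {S : Finset ℕ} (hS : ∀ p ∈ S, c.rc.Φ.P p) : Cl c.A c.B S := fun p hp => by
  obtain ⟨h1, h2⟩ := (c.P_iff p).1 (hS p hp)
  exact ac_or_pa c.hs h1 ((c.hm.cop_iff h1).1 h2)

/-- the dual Selmer group -/
theorem dual_nec {S : Finset ℕ} (hS : ∀ p ∈ S, c.rc.Φ.P p) {z' : ℤ} (hz' : z' ∈ c.DS S) :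
    ∃ (g' : GG c.T) (J' : Finset ℕ), (∀ q ∈ J', q ∈ S ∧ Ac c.A c.B q) ∧
      (∀ i ∈ S, Ac c.A c.B i → i ∉ J' → ch ((UU g' : ℤ) : ZMod i) + ∑ j ∈ J', nr i j = 0) ∧
      z' = UU g' * pd J' := by
  have hCl := c.cl_all hS
  have hCl' : Cl (-2 * c.A) (c.A ^ 2 - 4 * c.B) S := fun p hp => by
    rcases hCl p hp with h | h
    · exact Or.inl h.dual
    · exact Or.inr h.dual
  have e1 : -2 * (c.A * pd S) = -2 * c.A * pd S := by ring
  have e2 : (c.A * pd S) ^ 2 - 4 * (c.B * pd S ^ 2) = (c.A ^ 2 - 4 * c.B) * pd S ^ 2 := by ring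
  have hC' : (-2 * c.A) ^ 2 - 4 * (c.A ^ 2 - 4 * c.B) ≠ 0 := by
    have e : (-2 * c.A) ^ 2 - 4 * (c.A ^ 2 - 4 * c.B) = 16 * c.B := by ring
    rw [e]
    exact mul_ne_zero (by norm_num) c.B0
  unfold DS at hz'
  rw [e1, e2] at hz'
  obtain ⟨u, J, hu, hJ, hR, -, hz⟩ := nec c.hC hC' hCl' hz'
  have hu' : Sup c.A c.B u := ⟨hu.1, fun p hp h => N2_dual hp (hu.2 p hp h)⟩
  obtain ⟨g', rfl⟩ := c.ex_UU hu'
  have hJ' : ∀ q ∈ J, q ∈ S ∧ Ac c.A c.B q := by
    intro q hq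
    obtain ⟨h1, h2⟩ := hJ q hq
    refine ⟨h1, (hCl q h1).resolve_right fun h3 => ?_⟩
    exact h2.not_pa h3.dual
  exact ⟨g', J, hJ', fun i hi ha hiJ => hR.1 i hi ha.dual hiJ, hz⟩

/-- **reciprocity** -/
theorem parity {S J : Finset ℕ} (hS : ∀ p ∈ S, c.rc.Φ.P p)
    (hJ : ∀ q ∈ J, q ∈ S ∧ Ac c.A c.B q) (g : GG c.T) (hL : Lb c.A c.B (pd S) (UU g * pd J))
    {z' : ℤ} (hz' : z' ∈ c.DS S) :
    ∑ p ∈ S.filter (Ac c.A c.B), c.rw0 S (ind J, g) p * (if (p : ℤ) ∣ z' then 1 else 0) = 0 := by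
  have hCl := c.cl_all hS
  have hSp := hCl.prime
  have hJS : J ⊆ S := fun q hq => (hJ q hq).1
  have hJp : ∀ l ∈ J, l.Prime := fun l hl => hSp l (hJS hl)
  obtain ⟨g', J', hJ', hR', hzz⟩ := c.dual_nec hS hz'
  have hJp' : ∀ l ∈ J', l.Prime := fun l hl => hSp l (hJ' l hl).1
  have hsq : Squarefree z' := hz'.1
  have hsup := c.Sup_UU g
  have hsup' := c.Sup_UU g'
  have ha0 : UU g * pd J ≠ 0 := mul_ne_zero (UU_ne c.hT g) (pd_pos hJp).ne'
  have hev := par ha0 hsq.ne_zero (S.filter (Ac c.A c.B))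
    (fun p hp => (mem_filter.1 hp).2.pr) (orth two_ne_zero hL.2 hz'.2.2) (fun p hp hpW => by
      by_cases hbad : (p : ℤ) ∣ N2 c.A c.B
      · exact orth two_ne_zero (hL.1 p hbad) (hz'.2.1 p)
      · have hpP := Nat.prime_iff_prime_int.1 hp
        refine Sp_unit (nd_two hp hbad) (fun h => ?_) fun h => ?_
        · rcases hpP.dvd_or_dvd h with h | h
          · exact hbad (hsup.2 p hp h)
          · have h1 := (dvd_pd_iff hp hJp).1 h
            exact hpW (mem_filter.2 (hJ p h1))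
        · rw [hzz] at h
          rcases hpP.dvd_or_dvd h with h | h
          · exact hbad (hsup'.2 p hp h)
          · have h1 := (dvd_pd_iff hp hJp').1 h
            exact hpW (mem_filter.2 (hJ' p h1)))
  have key : ∀ p ∈ S.filter (Ac c.A c.B), c.rw0 S (ind J, g) p * (if (p : ℤ) ∣ z' then 1 else 0) =
      if ¬ Sp (UU g * pd J) z' p then 1 else 0 := by
    intro p hp
    obtain ⟨hpS, ha⟩ := mem_filter.1 hp
    rw [c.rw_eq hJ g ha]
    have h1 := sp_act c.B0 c.hC hSp hJS hpS ha (fun h => ha.nd (hsup.2 p ha.pr h)) hsq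
      (fun {_} => hz'.2.1 p) (fun hd => by
        have : Fact p.Prime := ⟨ha.pr⟩
        have hpJ' : p ∉ J' := fun h => hd (by
          rw [hzz]
          exact ((dvd_pd_iff ha.pr hJp').2 h).mul_left _)
        have hJ0 := nz_of (not_dvd_pd ha.pr hJp' hpJ')
        rw [← ch_zero, hzz, Int.cast_mul, ch_mul (hsup'.nz ha.pr ha.nd) hJ0,
          ch_pd ha.pr hJp' hpJ']
        exact hR' p hpS ha hpJ')
    rcases two_cases (rr c.A c.B S J (UU g) p) with h2 | h2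
    · rw [h2, zero_mul, if_neg]
      rw [h1, h2]
      rintro ⟨h3, -⟩
      exact zero_ne_one h3
    · rw [h2, one_mul]
      by_cases hd : (p : ℤ) ∣ z'
      · rw [if_pos hd, if_pos (h1.2 ⟨h2, hd⟩)]
      · rw [if_neg hd, if_neg fun h => hd (h1.1 h).2]
  rw [sum_congr rfl key, ← sum_filter, sum_const, nsmul_eq_mul, mul_one]
  exact (ZMod.natCast_eq_zero_iff _ _).2 hev.two_dvd

end Cq

end Q44.BS
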