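import Pool.Agent.Q44.BS.Sha
import Pool.Agent.Q44.TK.Low2

/-!
# The rank and the Tate-Shafarevich group from below: full `2`-torsion
-/

set_option autoImplicit false

open scoped Classical

namespace Q44.BS

open WeierstrassCurve

open Pool.Agent.W262.SH (QB Pt act IsCoc IsCob LocTriv shaCoc cob Sha)
open Pool.Agent.TH841.SH Pool.Agent.Y668
open Pool.Agent.Y700 (exists_SR diff_rat)
open Q44.TI (SelS card_sel2)
open Q44.TK (fz fz_mem fz_inj)

variable {a b : ℚ}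

/-- the points killed by two -/
theorem four_le (hb : b ≠ 0) (hab : a ^ 2 - 4 * b ≠ 0)
    (S : Finset (Wt a b).toAffine.Point) (hS : ∀ x ∈ S, x + x = 0) : S.card ≤ 4 := by
  obtain ⟨e1, e2, hp12, hR, hne⟩ := exists_roots QB a b
  obtain ⟨n1, n2, n12⟩ := hne hb hab
  obtain ⟨j, hj, hjσ, hjf⟩ := exists_rat (Wt a b)
  have h2 : (2 : QB) ≠ 0 := two_ne_zero
  have m0 : ((Wt a b).baseChange QB).toAffine.Nonsingular 0 0 := hR.nons h2 n1 n2 n12 (by ring)
  have m1 : ((Wt a b).baseChange QB).toAffine.Nonsingular e1 0 := hR.nons h2 n1 n2 n12 (by ring)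
  have m2 : ((Wt a b).baseChange QB).toAffine.Nonsingular e2 0 := hR.nons h2 n1 n2 n12 (by ring)
  have hsub : S.image j ⊆ {0, .some 0 0 m0, .some e1 0 m1, .some e2 0 m2} := by
    intro y hy
    obtain ⟨x, hx, rfl⟩ := Finset.mem_image.1 hy
    have h : j x + j x = 0 := by rw [← map_add, hS x hx, map_zero]
    simp only [Finset.mem_insert, Finset.mem_singleton]
    rcases hR.tors h2 h with h3 | ⟨_, h3⟩ | ⟨_, h3⟩ | ⟨_, h3⟩
    · exact Or.inl h3
    · exact Or.inr (Or.inl h3)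
    · exact Or.inr (Or.inr (Or.inl h3))
    · exact Or.inr (Or.inr (Or.inr h3))
  have h1 := Finset.card_le_card hsub
  rw [Finset.card_image_of_injective _ hj] at h1
  exact h1.trans ((Finset.card_insert_le _ _).trans (Nat.succ_le_succ ((Finset.card_insert_le _ _).trans
      (Nat.succ_le_succ ((Finset.card_insert_le _ _).trans
        (Nat.succ_le_succ (Finset.card_singleton _).le))))))

/-- the roots are rational -/
theorem root_fix (hsq : IsSquare (a ^ 2 - 4 * b)) {e1 e2 : QB} (hp12 : e1 * e2 = algebraMap ℚ QB b)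
    (hR : IsR ((Wt a b).baseChange QB) 0 e1 e2) (σ : QB ≃ₐ[ℚ] QB) : σ e1 = e1 ∧ σ e2 = e2 := by
  obtain ⟨s, hs⟩ := hsq
  have hsum : e1 + e2 = -algebraMap ℚ QB a := by
    have h10 := hR.h2
    have h11 : ((Wt a b).baseChange QB).a₂ = algebraMap ℚ QB a := rfl
    rw [h11] at h10
    linear_combination h10
  have h1 : (e1 - e2) ^ 2 = (algebraMap ℚ QB s) ^ 2 := by
    have h2 := congrArg (algebraMap ℚ QB) hs
    simp only [map_sub, map_mul, map_pow, map_ofNat] at h2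
    have h3 : algebraMap ℚ QB a = -(e1 + e2) := by linear_combination hsum
    rw [← hp12, h3] at h2
    linear_combination h2
  have key : ∃ q : ℚ, algebraMap ℚ QB q = e1 := by
    rcases sq_eq_sq_iff_eq_or_eq_neg.1 h1 with h | h
    · refine ⟨(-a + s) / 2, ?_⟩
      simp only [map_div₀, map_add, map_neg, map_ofNat]
      rw [← h]
      linear_combination (-1 / 2) * hsum
    · refine ⟨(-a - s) / 2, ?_⟩
      simp only [map_div₀, map_sub, map_neg, map_ofNat]
      linear_combination (-1 / 2) * hsum - (1 / 2) * h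
  obtain ⟨q, hq⟩ := key
  have k1 : σ e1 = e1 := by rw [← hq, AlgEquiv.commutes]
  refine ⟨k1, ?_⟩
  have h4 : e2 = -algebraMap ℚ QB a - e1 := by linear_combination hsum
  rw [h4, map_sub, map_neg, AlgEquiv.commutes, k1]

/-- **the rank, the Tate-Shafarevich group and the Selmer cocycles, from below** -/
theorem card_ker_le (hb : b ≠ 0) (hab : a ^ 2 - 4 * b ≠ 0) (hsq : IsSquare (a ^ 2 - 4 * b))
    [hfin : Finite (selCoc (Wt a b))] :
    Nat.card (selCoc (Wt a b)) ≤ 4 * (2 ^ Module.finrank ℤ (Wt a b).toAffine.Point *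
      Nat.card {x : Sha (Wt a b) // x + x = 0}) := by
  obtain ⟨e1, e2, hp12, hR, hne⟩ := exists_roots QB a b
  obtain ⟨n1, n2, n12⟩ := hne hb hab
  obtain ⟨j, hj, hjσ, hjf⟩ := exists_rat (Wt a b)
  have h2 : (2 : QB) ≠ 0 := two_ne_zero
  -- the points of order two are fixed
  have hfix : ∀ R : Pt (Wt a b) QB, R + R = 0 → ∀ σ : QB ≃ₐ[ℚ] QB,
      act (Wt a b) σ.toAlgHom R = R := by
    intro R hRR σ
    obtain ⟨f1, f2⟩ := root_fix hsq hp12 hR σ
    rcases hR.tors h2 hRR with h3 | ⟨_, h3⟩ | ⟨_, h3⟩ | ⟨_, h3⟩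
    · rw [h3, map_zero]
    · rw [h3, act_some, Affine.Point.some.injEq]
      exact ⟨map_zero σ, map_zero σ⟩
    · rw [h3, act_some, Affine.Point.some.injEq]
      exact ⟨f1, map_zero σ⟩
    · rw [h3, act_some, Affine.Point.some.injEq]
      exact ⟨f2, map_zero σ⟩
  -- the kernel
  set K : AddSubgroup (selCoc (Wt a b)) := (toShaC (Wt a b)).ker with hK
  have hexK : ∀ f : K, ∃ g : (Wt a b).toAffine.Point, ∃ Q : Pt (Wt a b) QB, j g = Q + Q ∧
      ∀ σ, (f.1 : (QB ≃ₐ[ℚ] QB) → Pt (Wt a b) QB) σ = act (Wt a b) σ.toAlgHom Q - Q := by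
    intro f
    obtain ⟨P, hP⟩ := (toShaC_ker _ _).1 f.2
    obtain ⟨g, hg⟩ := hjf (P + P) (by
      intro σ
      have e3 := f.1.2.2.1 σ
      rw [hP σ] at e3
      rw [map_add]
      have e4 : act (Wt a b) σ.toAlgHom P + act (Wt a b) σ.toAlgHom P =
          (act (Wt a b) σ.toAlgHom P - P + (act (Wt a b) σ.toAlgHom P - P)) + (P + P) := by abel
      rw [e4, e3, zero_add])
    exact ⟨g, P, hg, hP⟩
  choose g Qc hQc hcK using hexK
  have hinj : Function.Injective (fun f : K => (QuotientAddGroup.mk (g f) :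
      (Wt a b).toAffine.Point ⧸ (dbl (Wt a b).toAffine.Point).range)) := by
    intro f f' h
    obtain ⟨q, hq⟩ := QuotientAddGroup.eq.1 h
    have hq' : q + q = -g f + g f' := hq
    apply Subtype.ext
    apply Subtype.ext
    funext σ
    rw [hcK f σ, hcK f' σ]
    have h3 : Qc f' - Qc f - j q + (Qc f' - Qc f - j q) = 0 := by
      have e5 : Qc f' - Qc f - j q + (Qc f' - Qc f - j q) =
          (Qc f' + Qc f') - (Qc f + Qc f) - (j q + j q) := by abel
      rw [e5, ← hQc, ← hQc, ← map_add j q q, hq', map_add, map_neg]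
      abel
    have h4 := hfix _ h3 σ
    rw [map_sub, map_sub, hjσ] at h4
    have e6 : act (Wt a b) σ.toAlgHom (Qc f) - Qc f =
        act (Wt a b) σ.toAlgHom (Qc f') - Qc f' -
        ((act (Wt a b) σ.toAlgHom (Qc f') - act (Wt a b) σ.toAlgHom (Qc f) - j q) -
          (Qc f' - Qc f - j q)) := by abel
    rw [e6, h4, sub_self, sub_zero]
  have hKfin : Finite K := inferInstance
  obtain ⟨hQfin, hrk⟩ := rank_quo_le (fg_Wt hb hab) (four_le hb hab)
  have hKc := Nat.card_le_card_of_injective _ hinj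
  -- the assembly
  have e1' : Nat.card {x : Sha (Wt a b) // x + x = 0} = Nat.card (toShaC (Wt a b)).range :=
    Nat.card_congr (Equiv.subtypeEquivRight (fun x => (toShaC_range hR n1 n2 n12 x).symm))
  have e2' : Nat.card (selCoc (Wt a b)) = Nat.card (toShaC (Wt a b)).range * Nat.card K := by
    rw [AddSubgroup.card_eq_card_quotient_mul_card_addSubgroup K]
    congr 1
    exact Nat.card_congr (QuotientAddGroup.quotientKerEquivRange (toShaC (Wt a b))).toEquiv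
  rw [e1', e2']
  calc Nat.card (toShaC (Wt a b)).range * Nat.card K
      ≤ Nat.card (toShaC (Wt a b)).range *
        (4 * 2 ^ Module.finrank ℤ (Wt a b).toAffine.Point) :=
        Nat.mul_le_mul_left _ (hKc.trans hrk)
    _ = _ := by ring

/-- the class of a half of the point `(e₁, 0)` does not come from the isogeny -/
theorem half_not {A B : ℤ} {x₁ : ℚ} (hx : ¬ IsSquare x₁) {e1 e2 : QB}
    (hp12 : e1 * e2 = algebraMap ℚ QB (B : ℚ)) (hB : B ≠ 0)
    (hR : IsR ((Wt (A : ℚ) (B : ℚ)).baseChange QB) 0 e1 e2) (he : algebraMap ℚ QB x₁ = e1)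
    (hn : ((Wt (A : ℚ) (B : ℚ)).baseChange QB).toAffine.Nonsingular 0 0)
    (hn1 : ((Wt (A : ℚ) (B : ℚ)).baseChange QB).toAffine.Nonsingular e1 0)
    {Q : Pt (Wt (A : ℚ) (B : ℚ)) QB} (hQ : Q + Q = .some e1 0 hn1) :
    ¬ ∀ σ : QB ≃ₐ[ℚ] QB, act (Wt (A : ℚ) (B : ℚ)) σ.toAlgHom Q - Q = 0 ∨
      act (Wt (A : ℚ) (B : ℚ)) σ.toAlgHom Q - Q = .some 0 0 hn := by
  intro H
  have h2 : (2 : QB) ≠ 0 := two_ne_zero
  rcases Q with _ | ⟨u, v, hnu⟩
  · exact Affine.Point.some_ne_zero _ (hQ.symm.trans (add_zero _))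
  · have hv : v ≠ 0 := by
      intro hv
      rw [(hR.add_self h2 hnu).2 hv] at hQ
      exact Affine.Point.some_ne_zero _ hQ.symm
    obtain ⟨X, Y, hn', h3, h4⟩ := hR.dup h2 hnu hv
    rw [h3, Affine.Point.some.injEq] at hQ
    rw [hQ.1] at h4
    have e3 : (0 - e1) * (0 - e2) = ((B : ℤ) : QB) := by
      have : e1 * e2 = ((B : ℤ) : QB) := by rw [hp12, map_intCast]
      rw [← this]
      ring
    rw [e3, sub_zero, sub_zero] at h4
    have hB0 : ((B : ℤ) : QB) ≠ 0 := by exact_mod_cast hB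
    have hfix : ∀ σ : QB ≃ₐ[ℚ] QB,
        σ ((u ^ 2 - ((B : ℤ) : QB)) / (2 * v)) = (u ^ 2 - ((B : ℤ) : QB)) / (2 * v) := by
      intro σ
      rw [map_div₀, map_sub, map_pow, map_intCast, map_mul, map_ofNat]
      rcases H σ with h7 | h7
      · rw [sub_eq_zero, act_some, Affine.Point.some.injEq] at h7
        have h8 : σ u = u := h7.1
        have h9 : σ v = v := h7.2
        rw [h8, h9]
      · rw [sub_eq_iff_eq_add, add_comm] at h7
        obtain ⟨X', Y', hn'', h8, hu0, -, -, h9, h9'⟩ := hR.trans hnu hv hn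
        rw [h8, act_some, Affine.Point.some.injEq] at h7
        have h10 : σ u = X' := h7.1
        have h11 : σ v = Y' := h7.2
        rw [sub_zero] at hu0
        rw [e3, sub_zero, zero_add] at h9
        rw [e3, sub_zero] at h9'
        rw [h10, h11, h9, h9']
        field_simp
        ring
    obtain ⟨q, hq⟩ := fix_mem (K := ℚ) _ hfix
    apply hx
    refine ⟨q, ?_⟩
    apply (algebraMap ℚ QB).injective
    rw [map_mul, hq, he, h4]
    ring

/-- **the number of the Selmer cocycles, from below** -/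
theorem card_ge {A B x₁ : ℤ} (hB : B ≠ 0) (hC : A ^ 2 - 4 * B ≠ 0)
    (hr : x₁ ^ 2 + A * x₁ + B = 0) (hx : ¬ IsSquare x₁)
    [hfin : Finite (selCoc (Wt (A : ℚ) (B : ℚ)))] :
    2 * (SelS (-2 * A) (A ^ 2 - 4 * B)).ncard ≤ Nat.card (selCoc (Wt (A : ℚ) (B : ℚ))) := by
  have qb : (B : ℚ) ≠ 0 := by exact_mod_cast hB
  have qab : (A : ℚ) ^ 2 - 4 * (B : ℚ) ≠ 0 := by exact_mod_cast hC
  have hx' : ¬ IsSquare (x₁ : ℚ) := fun h => hx ((Rat.isSquare_intCast_iff).1 h)
  obtain ⟨e1, e2, hp12, hR, hne, he⟩ : ∃ e1 e2 : QB, e1 * e2 = algebraMap ℚ QB (B : ℚ) ∧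
      IsR ((Wt (A : ℚ) (B : ℚ)).baseChange QB) 0 e1 e2 ∧ ((0 : QB) ≠ e1 ∧ (0 : QB) ≠ e2 ∧ e1 ≠ e2) ∧
      algebraMap ℚ QB (x₁ : ℚ) = e1 := by
    obtain ⟨e1, e2, hp12, hR, hne⟩ := exists_roots QB (A : ℚ) (B : ℚ)
    obtain ⟨n1, n2, n12⟩ := hne qb qab
    have hsum : e1 + e2 = -algebraMap ℚ QB (A : ℚ) := by
      have h10 := hR.h2
      have h11 : ((Wt (A : ℚ) (B : ℚ)).baseChange QB).a₂ = algebraMap ℚ QB (A : ℚ) := rfl
      rw [h11] at h10
      linear_combination h10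
    have h1 : (algebraMap ℚ QB (x₁ : ℚ) - e1) * (algebraMap ℚ QB (x₁ : ℚ) - e2) = 0 := by
      have h2 : ((x₁ : ℚ)) ^ 2 + A * x₁ + B = 0 := by exact_mod_cast congrArg (fun t : ℤ => (t : ℚ)) hr
      have h3 := congrArg (algebraMap ℚ QB) h2
      simp only [map_add, map_mul, map_pow, map_zero] at h3
      rw [← hp12] at h3
      have h4 : algebraMap ℚ QB (A : ℚ) = -(e1 + e2) := by linear_combination hsum
      rw [h4] at h3
      linear_combination h3
    rcases mul_eq_zero.1 h1 with h | h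
    · exact ⟨e1, e2, hp12, hR, ⟨n1, n2, n12⟩, sub_eq_zero.1 h⟩
    · exact ⟨e2, e1, by rw [mul_comm]; exact hp12, hR.rot.swap.rot.rot, ⟨n2, n1, n12.symm⟩,
        sub_eq_zero.1 h⟩
  obtain ⟨n1, n2, n12⟩ := hne
  have h2 : (2 : QB) ≠ 0 := two_ne_zero
  have hn : ((Wt (A : ℚ) (B : ℚ)).baseChange QB).toAffine.Nonsingular 0 0 :=
    hR.nons h2 n1 n2 n12 (by ring)
  have hn1 : ((Wt (A : ℚ) (B : ℚ)).baseChange QB).toAffine.Nonsingular e1 0 :=
    hR.nons h2 n1 n2 n12 (by ring)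
  set T : Pt (Wt (A : ℚ) (B : ℚ)) QB := .some 0 0 hn with hT
  set P1 : Pt (Wt (A : ℚ) (B : ℚ)) QB := .some e1 0 hn1 with hP1
  have hTT : T + T = 0 := (hR.add_self h2 hn).2 rfl
  have hP1σ : ∀ σ : QB ≃ₐ[ℚ] QB, act (Wt (A : ℚ) (B : ℚ)) σ.toAlgHom P1 = P1 := by
    intro σ
    rw [hP1, act_some, Affine.Point.some.injEq]
    refine ⟨?_, map_zero σ⟩
    rw [← he]
    exact AlgEquiv.commutes σ _
  obtain ⟨Q, hQ⟩ := hR.div h2 n1 n2 n12 P1
  have hc : (fun σ : QB ≃ₐ[ℚ] QB => act (Wt (A : ℚ) (B : ℚ)) σ.toAlgHom Q - Q) ∈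
      selCoc (Wt (A : ℚ) (B : ℚ)) := by
    apply cob_selCoc
    intro σ
    have e3 : act (Wt (A : ℚ) (B : ℚ)) σ.toAlgHom Q - Q +
      (act (Wt (A : ℚ) (B : ℚ)) σ.toAlgHom Q - Q) =
      (act (Wt (A : ℚ) (B : ℚ)) σ.toAlgHom Q + act (Wt (A : ℚ) (B : ℚ)) σ.toAlgHom Q) - (Q + Q) := by
      abel
    rw [e3, ← map_add, ← hQ, hP1σ, sub_self]
  set f2 : selCoc (Wt (A : ℚ) (B : ℚ)) := ⟨_, hc⟩ with hf2
  have hsq : ∀ z : ℤ, ∃ s : QB, s ^ 2 = ((z : ℤ) : QB) := fun z =>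
    IsAlgClosed.exists_pow_nat_eq ((z : ℤ) : QB) (by norm_num)
  choose s hs using hsq
  set S := SelS (-2 * A) (A ^ 2 - 4 * B) with hS
  let F : S → selCoc (Wt (A : ℚ) (B : ℚ)) := fun z => ⟨fz (s z) T, fz_mem hB hC z.2 (hs z) hn⟩
  let Ψ : S × Bool → selCoc (Wt (A : ℚ) (B : ℚ)) := fun q => if q.2 then F q.1 + f2 else F q.1
  have two0 : ∀ f : selCoc (Wt (A : ℚ) (B : ℚ)), f + f = 0 := by
    intro f
    apply Subtype.ext
    funext σ
    exact f.2.2.1 σ
  have hF : ∀ z w : S, F z = F w → z = w := by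
    intro z w h
    apply Subtype.ext
    exact fz_inj z.2.1 w.2.1 (hs z) (hs w) hn (congrArg Subtype.val h)
  have hno : ∀ z w : S, F z + F w ≠ f2 := by
    intro z w h
    apply half_not hx' hp12 hB hR he hn hn1 (Q := Q) hQ.symm
    intro σ
    have h3 : (F z + F w).1 σ = act (Wt (A : ℚ) (B : ℚ)) σ.toAlgHom Q - Q := by
      rw [h]
    rw [← h3]
    have h4 : (F z + F w).1 σ = fz (s z) T σ + fz (s w) T σ := rfl
    rw [h4]
    unfold fz
    split_ifs
    · left; rw [add_zero]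
    · right; rw [zero_add]
    · right; rw [add_zero]
    · left; exact hTT
  have hΨ : Function.Injective Ψ := by
    rintro ⟨z, i⟩ ⟨w, j⟩ h
    cases i <;> cases j
    · have h3 : F z = F w := h
      rw [hF z w h3]
    · exfalso
      have h3 : F z = F w + f2 := h
      apply hno z w
      rw [h3, add_comm, ← add_assoc, two0, zero_add]
    · exfalso
      have h3 : F z + f2 = F w := h
      apply hno z w
      rw [← h3, ← add_assoc, two0, zero_add]
    · have h3 : F z + f2 = F w + f2 := h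
      rw [hF z w (add_right_cancel h3)]
  have h3 := Nat.card_le_card_of_injective Ψ hΨ
  rw [Nat.card_prod, Nat.card_eq_fintype_card (α := Bool), Fintype.card_bool,
    Nat.card_coe_set_eq] at h3
  rw [mul_comm]
  exact h3

/-- **the isogeny Selmer group, the rank and the Tate-Shafarevich group** -/
theorem sha_ge {A B x₁ : ℤ} (hB0 : B ≠ 0) (hC0 : A ^ 2 - 4 * B ≠ 0) (hC : IsSquare (A ^ 2 - 4 * B))
    (hr : x₁ ^ 2 + A * x₁ + B = 0) (hx : ¬ IsSquare x₁)
    (hf1 : (SelS A B).Finite) (hf2 : (SelS (-2 * A) (A ^ 2 - 4 * B)).Finite) :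
    (SelS (-2 * A) (A ^ 2 - 4 * B)).ncard ≤
      2 * (2 ^ Module.finrank ℤ (Wt (A : ℚ) (B : ℚ)).toAffine.Point *
        Nat.card {x : Sha (Wt (A : ℚ) (B : ℚ)) // x + x = 0}) := by
  obtain ⟨h1, -⟩ := card_sel2 hB0 hC0 hf1 hf2
  have qb : (B : ℚ) ≠ 0 := by exact_mod_cast hB0
  have qab : (A : ℚ) ^ 2 - 4 * (B : ℚ) ≠ 0 := by exact_mod_cast hC0
  have k1 := card_ker_le (a := (A : ℚ)) (b := (B : ℚ)) qb qab (by
    obtain ⟨s, hs⟩ := hC
    exact ⟨s, by exact_mod_cast congrArg (fun t : ℤ => (t : ℚ)) hs⟩)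
  have k2 := card_ge (A := A) (B := B) hB0 hC0 hr hx
  omega

end Q44.BS
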