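import Pool.Agent.Q44.BM.Box

/-!
# Systems in which all the primes are active: the reduction by one large prime

If all the primes of the family are active, the vector with all the coordinates `1` belongs to the space of
the solutions and the sum of the equations is `0`. So the space is the direct sum of this vector and of the
solutions whose coordinate at one chosen large prime is `0`, and these are the solutions of a block system in
which the chosen prime is passive.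
-/

set_option autoImplicit false
set_option linter.unusedSectionVars false

open scoped Classical

namespace Q44.BS

open Finset Module
open Pool.Agent.Y703.CQ (nr sg prs HB ext)
open Q44.BC Q44.BM

variable {Φ : Fam} {G F : Type} [AddCommGroup G] [Module (ZMod 2) G] [AddCommGroup F]
    [Module (ZMod 2) F]

section one

variable {ι : Type} [Fintype ι] [LinearOrder ι] {S₀ : Finset ℕ} {J1 : Finset ι} {p : ι → ℕ}

/-- the symbols -/
theorem nr_ext (hpr : ∀ i, (p i).Prime ∧ p i ≠ 2) (hp : Function.Injective p) {k l : ι}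
    (hk : k ∈ J1) (hl : l ∈ J1) (hkl : k ≠ l) (σ : Sys Φ G F) (hJ : ∀ i ∈ J1, Φ.A (p i)) :
    nr (p k) (p l) = ext (fun e : prs J1 => nr (p e.1.1) (p e.1.2)) k l +
      (if l < k then σ.v (σ.h (p k)) * σ.v (σ.h (p l)) else 0) := by
  rcases lt_or_gt_of_ne hkl with h | h
  · rw [if_neg h.asymm, add_zero,
      Pool.Agent.Y219.CQ.ext_pos J1 _ ((Pool.Agent.Y219.CQ.mem_prs J1 k l).2 ⟨hk, h.ne', fun _ => h⟩)]
  · rw [if_pos h, Pool.Agent.Y219.CQ.ext_neg J1 _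
      ((Pool.Agent.Y219.CQ.mem_prs J1 l k).2 ⟨hl, h.ne', fun _ => h⟩) hk, σ.hv _ (hJ k hk),
      σ.hv _ (hJ l hl)]
    exact nr_rec (hpr k).1 (hpr k).2 (hpr l).1 (hpr l).2 fun he => hkl (hp he)

/-- the row of a large prime -/
theorem row2 (σ : Sys Φ G F) (hpr : ∀ i, (p i).Prime ∧ p i ≠ 2) (hp : Function.Injective p)
    (hd : ∀ i, p i ∉ S₀) (hJ : ∀ i ∈ J1, Φ.A (p i)) (w : (ℕ → ZMod 2) × G)
    (hw : ∀ q, ¬ Φ.A q → w.1 q = 0) (hw1 : ∀ l, l ∉ J1 → w.1 (p l) = 0) (k : J1) :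
    (σ.D S₀ J1 p).rJ ((fun u => w.1 u, fun l : J1 => w.1 (p l), w.2) : (σ.D S₀ J1 p).E) k +
      (∑ l : J1, ext (fun e : prs J1 => nr (p e.1.1) (p e.1.2)) k l * w.1 (p l) +
      (∑ l : ι, ext (fun e : prs J1 => nr (p e.1.1) (p e.1.2)) k l) * w.1 (p k)) =
    ∑ q ∈ S₀ ∪ univ.image p, nr (p k) q * (w.1 q + w.1 (p k)) + σ.f (p k) * w.1 (p k) +
      σ.χ w.2 (σ.h (p k)) := by
  rw [sum_all (Φ := Φ) (J1 := J1) hp hd]
  show ∑ u : UU Φ S₀, nr (p k) u * (w.1 u + w.1 (p k)) +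
    ∑ l : J1, (if (l : ι) < k then σ.v (σ.h (p k)) * σ.v (σ.h (p l)) else 0) *
      (w.1 (p l) + w.1 (p k)) +
    (σ.f (p k) + ∑ w ∈ S₀.filter (fun w => ¬ Φ.A w), nr (p k) w) * w.1 (p k) +
    σ.χ w.2 (σ.h (p k)) + _ = _
  have e1 : ∑ q ∈ S₀.filter (fun w => ¬ Φ.A w), nr (p k) q * (w.1 q + w.1 (p k)) =
      (∑ w ∈ S₀.filter (fun w => ¬ Φ.A w), nr (p k) w) * w.1 (p k) := by
    rw [sum_mul]
    refine sum_congr rfl fun q hq => ?_
    rw [hw q (mem_filter.1 hq).2, zero_add]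
  have e2 : ∑ l ∈ univ.filter (fun l => l ∉ J1), nr (p k) (p l) * (w.1 (p l) + w.1 (p k)) =
      (∑ l ∈ univ.filter (fun l => l ∉ J1),
        ext (fun e : prs J1 => nr (p e.1.1) (p e.1.2)) k l) * w.1 (p k) := by
    rw [sum_mul]
    refine sum_congr rfl fun l hl => ?_
    have hl' := (mem_filter.1 hl).2
    rw [hw1 l hl', zero_add, nr_ext' k.2 hl']
  have e3 : ∑ l : J1, nr (p k) (p l) * (w.1 (p l) + w.1 (p k)) =
      ∑ l : J1, (if (l : ι) < k then σ.v (σ.h (p k)) * σ.v (σ.h (p l)) else 0) *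
        (w.1 (p l) + w.1 (p k)) +
      (∑ l : J1, ext (fun e : prs J1 => nr (p e.1.1) (p e.1.2)) k l * w.1 (p l) +
        (∑ l : J1, ext (fun e : prs J1 => nr (p e.1.1) (p e.1.2)) k l) * w.1 (p k)) := by
    rw [sum_mul, ← sum_add_distrib, ← sum_add_distrib]
    refine sum_congr rfl fun l _ => ?_
    by_cases hlk : (k : ι) = l
    · have h0 : w.1 (p l) + w.1 (p k) = 0 := by
        rw [hlk]
        exact CharTwo.add_self_eq_zero _
      have h1 : w.1 (p l) = w.1 (p k) := by rw [hlk]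
      rw [h0, mul_zero, mul_zero, h1, zero_add]
      exact (CharTwo.add_self_eq_zero _).symm
    · rw [nr_ext hpr hp k.2 l.2 hlk σ hJ]
      ring
  have e4 : ∑ l : ι, ext (fun e : prs J1 => nr (p e.1.1) (p e.1.2)) k l =
      ∑ l : J1, ext (fun e : prs J1 => nr (p e.1.1) (p e.1.2)) k l +
      ∑ l ∈ univ.filter (fun l => l ∉ J1), ext (fun e : prs J1 => nr (p e.1.1) (p e.1.2)) k l := by
    rw [← Finset.sum_filter_add_sum_filter_not univ (fun l => l ∈ J1),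
      Finset.sum_coe_sort J1 (fun l => ext (fun e : prs J1 => nr (p e.1.1) (p e.1.2)) k l)]
    congr 1
    refine Finset.sum_congr ?_ fun _ _ => rfl
    ext l
    simp
  rw [e1, e2, e3, e4]
  ring

/-- the row of a small prime -/
theorem row1 (σ : Sys Φ G F) (hp : Function.Injective p)
    (hd : ∀ i, p i ∉ S₀) (w : (ℕ → ZMod 2) × G)
    (hw : ∀ q, ¬ Φ.A q → w.1 q = 0) (hw1 : ∀ l, l ∉ J1 → w.1 (p l) = 0) (u : UU Φ S₀) :
    (σ.D S₀ J1 p).rU ((fun u => w.1 u, fun l : J1 => w.1 (p l), w.2) : (σ.D S₀ J1 p).E) u =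
    ∑ q ∈ S₀ ∪ univ.image p, nr u q * (w.1 q + w.1 u) + σ.f u * w.1 u +
      σ.χ w.2 (σ.h u) := by
  rw [sum_all (Φ := Φ) (J1 := J1) hp hd]
  show ∑ v : UU Φ S₀, nr u v * (w.1 v + w.1 u) + ∑ k : J1, nr u (p k) * (w.1 (p k) + w.1 u) +
    (σ.f u + ∑ w ∈ S₀.filter (fun w => ¬ Φ.A w), nr u w +
      ∑ l ∈ univ.filter (fun l => l ∉ J1), nr u (p l)) * w.1 u + σ.χ w.2 (σ.h u) = _
  have e1 : ∑ q ∈ S₀.filter (fun w => ¬ Φ.A w), nr u q * (w.1 q + w.1 u) =
      (∑ w ∈ S₀.filter (fun w => ¬ Φ.A w), nr u w) * w.1 u := by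
    rw [sum_mul]
    refine sum_congr rfl fun q hq => ?_
    rw [hw q (mem_filter.1 hq).2, zero_add]
  have e2 : ∑ l ∈ univ.filter (fun l => l ∉ J1), nr u (p l) * (w.1 (p l) + w.1 u) =
      (∑ l ∈ univ.filter (fun l => l ∉ J1), nr u (p l)) * w.1 u := by
    rw [sum_mul]
    refine sum_congr rfl fun l hl => ?_
    rw [hw1 l (mem_filter.1 hl).2, zero_add]
  rw [e1, e2]
  ring

/-- the class -/
theorem row3 (σ : Sys Φ G F) (hp : Function.Injective p)
    (hd : ∀ i, p i ∉ S₀) (w : (ℕ → ZMod 2) × G)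
    (hw : ∀ q, ¬ Φ.A q → w.1 q = 0) (hw1 : ∀ l, l ∉ J1 → w.1 (p l) = 0) :
    (σ.D S₀ J1 p).sH ((fun u => w.1 u, fun l : J1 => w.1 (p l), w.2) : (σ.D S₀ J1 p).E) =
    ∑ q ∈ S₀ ∪ univ.image p, w.1 q • σ.h q := by
  rw [sum_all (Φ := Φ) (J1 := J1) hp hd]
  have e1 : ∑ q ∈ S₀.filter (fun w => ¬ Φ.A w), w.1 q • σ.h q = 0 := by
    refine sum_eq_zero fun q hq => ?_
    rw [hw q (mem_filter.1 hq).2, zero_smul]
  have e2 : ∑ l ∈ univ.filter (fun l => l ∉ J1), w.1 (p l) • σ.h (p l) = 0 := by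
    refine sum_eq_zero fun l hl => ?_
    rw [hw1 l (mem_filter.1 hl).2, zero_smul]
  rw [e1, e2, add_zero, add_zero]
  rfl

end one

/-- the row of the prime `q` -/
noncomputable def row (σ : Sys Φ G F) (S : Finset ℕ) (w : (ℕ → ZMod 2) × G) (q : ℕ) : ZMod 2 :=
  ∑ r ∈ S, nr q r * (w.1 r + w.1 q) + σ.f q * w.1 q + σ.χ w.2 (σ.h q)

/-- the value at the prime `q` -/
noncomputable def ev (G : Type) [AddCommGroup G] [Module (ZMod 2) G] (q : ℕ) :
    ((ℕ → ZMod 2) × G) →ₗ[ZMod 2] ZMod 2 :=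
  lm (fun w => w.1 q) fun _ _ => rfl

theorem ev_apply {q : ℕ} {w : (ℕ → ZMod 2) × G} : ev G q w = w.1 q := rfl

/-- the sum of the equations is zero -/
def Red (σ : Sys Φ G F) (S : Finset ℕ) : Prop :=
  ∀ w : (ℕ → ZMod 2) × G, (∀ q, q ∉ S → w.1 q = 0) → (w.2, ∑ q ∈ S, w.1 q • σ.h q) ∈ σ.𝓛 →
    ∑ q ∈ S, row σ S w q = 0

/-- the full vector is a solution -/
def Tor (σ : Sys Φ G F) (S : Finset ℕ) : Prop := ∃ g : G, ((fun q => if q ∈ S then 1 else 0), g) ∈ σ.Sel S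

/-- the solutions whose coordinate at `P` is zero -/
noncomputable def SelQ (σ : Sys Φ G F) (S : Finset ℕ) (P : ℕ) : Submodule (ZMod 2) ((ℕ → ZMod 2) × G) :=
  σ.Sel S ⊓ LinearMap.ker (ev G P)

theorem fin_Sel [Finite G] (σ : Sys Φ G F) (S : Finset ℕ) : Finite (σ.Sel S) := by
  refine Finite.of_injective (β := (S → ZMod 2) × G)
    (fun w => (fun p : S => w.1.1 p, w.1.2)) fun w w' h => ?_
  have h1 : (fun p : S => w.1.1 p) = fun p : S => w'.1.1 p := (Prod.mk.inj h).1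
  have h2 : w.1.2 = w'.1.2 := (Prod.mk.inj h).2
  refine Subtype.ext (Prod.ext (funext fun p => ?_) h2)
  by_cases hp : p ∈ S
  · exact congrFun h1 ⟨p, hp⟩
  · rw [(Sys.mem_Sel.1 w.2).1 p fun h => hp h.1, (Sys.mem_Sel.1 w'.2).1 p fun h => hp h.1]

/-- the full vector splits off -/
theorem finrank_Sel_succ [Finite G] (σ : Sys Φ G F) {S : Finset ℕ} (ht : Tor σ S) {P : ℕ}
    (hP : P ∈ S) : finrank (ZMod 2) (σ.Sel S) = finrank (ZMod 2) (SelQ σ S P) + 1 := by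
  have hfin := fin_Sel σ S
  have hfm : Module.Finite (ZMod 2) (σ.Sel S) := Module.Finite.of_finite
  obtain ⟨g, hg⟩ := ht
  set φ : σ.Sel S →ₗ[ZMod 2] ZMod 2 := (ev G P).comp (σ.Sel S).subtype with hφ
  have h1 := LinearMap.finrank_range_add_finrank_ker φ
  have h2 : LinearMap.range φ = ⊤ := by
    rw [LinearMap.range_eq_top]
    intro a
    refine ⟨a • ⟨_, hg⟩, ?_⟩
    rw [map_smul]
    show a • (if P ∈ S then (1 : ZMod 2) else 0) = a
    rw [if_pos hP, smul_eq_mul, mul_one]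
  have h3 : finrank (ZMod 2) (LinearMap.ker φ) = finrank (ZMod 2) (SelQ σ S P) := by
    have e : (LinearMap.ker φ).map (σ.Sel S).subtype = SelQ σ S P := by
      rw [hφ, LinearMap.ker_comp, Submodule.map_comap_subtype]
      rfl
    rw [← e, Submodule.finrank_map_subtype_eq]
  rw [h2, finrank_top, finrank_self, h3] at h1
  omega

section two

variable {ι : Type} [Fintype ι] [LinearOrder ι] {S₀ : Finset ℕ} {p : ι → ℕ}

/-- **the reduction** -/
theorem finrank_SelQ (σ : Sys Φ G F) (hpr : ∀ i, (p i).Prime ∧ p i ≠ 2)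
    (hp : Function.Injective p) (hd : ∀ i, p i ∉ S₀) (hA : ∀ i, Φ.A (p i)) (k0 : ι)
    (hA0 : ∀ u ∈ S₀, Φ.A u) (hred : Red σ (S₀ ∪ univ.image p)) :
    finrank (ZMod 2) (SelQ σ (S₀ ∪ univ.image p) (p k0)) =
      finrank (ZMod 2) ((σ.D S₀ (univ.erase k0) p).So fun e => nr (p e.1.1) (p e.1.2)) := by
  set J1 : Finset ι := univ.erase k0 with hJ1
  set S : Finset ℕ := S₀ ∪ univ.image p with hS
  set T := (σ.D S₀ J1 p).So (fun e => nr (p e.1.1) (p e.1.2)) with hT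
  have hJ : ∀ i ∈ J1, Φ.A (p i) := fun i _ => hA i
  have hAS : ∀ q ∈ S, Φ.A q := by
    intro q hq
    rcases Finset.mem_union.1 hq with h | h
    · exact hA0 q h
    · obtain ⟨i, -, rfl⟩ := Finset.mem_image.1 h
      exact hA i
  have hk0 : ∀ l, l ∉ J1 → l = k0 := by
    intro l hl
    by_contra hne
    exact hl (Finset.mem_erase.2 ⟨hne, mem_univ _⟩)
  have hsup : ∀ w ∈ SelQ σ S (p k0), (∀ q, ¬ Φ.A q → w.1 q = 0) ∧ ∀ l, l ∉ J1 → w.1 (p l) = 0 := by
    rintro w ⟨hw, hw0⟩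
    refine ⟨fun q hq => (Sys.mem_Sel.1 hw).1 q fun h => hq h.2, fun l hl => ?_⟩
    rw [hk0 l hl]
    exact hw0
  have h0 : ∀ w ∈ SelQ σ S (p k0), σ.rs S₀ J1 p w ∈ T := by
    intro w hw'
    obtain ⟨s1, s2⟩ := hsup w hw'
    obtain ⟨h1, h2, h3⟩ := Sys.mem_Sel.1 hw'.1
    refine ⟨Dt.mem_NN.2 ⟨?_, funext fun u => ?_⟩, fun k => ?_⟩
    · have e := row3 (J1 := J1) σ hp hd w s1 s2
      show (w.2, (σ.D S₀ J1 p).sH ((fun u => w.1 u, fun l : J1 => w.1 (p l), w.2) :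
        (σ.D S₀ J1 p).E)) ∈ σ.𝓛
      rw [e]
      exact h3
    · refine (row1 (J1 := J1) σ hp hd w s1 s2 u).trans ?_
      exact h2 u (mem_union_left _ (mem_filter.1 u.2).1) (mem_filter.1 u.2).2
    · refine (row2 σ hpr hp hd hJ w s1 s2 k).trans ?_
      exact h2 (p k) (mem_union_right _ (mem_image_of_mem _ (mem_univ _))) (hA k)
  refine LinearEquiv.finrank_eq (LinearEquiv.ofBijective ((σ.rs S₀ J1 p).restrict h0) ⟨?_, ?_⟩)
  · intro x y hxy
    have h1 : σ.rs S₀ J1 p x = σ.rs S₀ J1 p y := congrArg Subtype.val hxy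
    have h2 : (fun u : UU Φ S₀ => x.1.1 u) = fun u : UU Φ S₀ => y.1.1 u := congrArg (fun t => t.1) h1
    have h3 : (fun l : J1 => x.1.1 (p l)) = fun l : J1 => y.1.1 (p l) := congrArg (fun t => t.2.1) h1
    have h4 : x.1.2 = y.1.2 := congrArg (fun t => t.2.2) h1
    refine Subtype.ext (Prod.ext (funext fun n => ?_) h4)
    by_cases hn : n ∈ S
    · rcases Finset.mem_union.1 hn with h5 | h5
      · exact congrFun h2 ⟨n, mem_filter.2 ⟨h5, hA0 n h5⟩⟩
      · obtain ⟨i, -, rfl⟩ := Finset.mem_image.1 h5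
        by_cases hi : i ∈ J1
        · exact congrFun h3 ⟨i, hi⟩
        · rw [(hsup _ x.2).2 i hi, (hsup _ y.2).2 i hi]
    · rw [(Sys.mem_Sel.1 x.2.1).1 n fun h => hn h.1, (Sys.mem_Sel.1 y.2.1).1 n fun h => hn h.1]
  · rintro ⟨⟨a, b, g⟩, hw⟩
    set c' : ℕ → ZMod 2 := fun n => if h : n ∈ S₀.filter (fun u => Φ.A u) then a ⟨n, h⟩ else
      if h : ∃ l : J1, p l = n then b h.choose else 0 with hc'
    have e1 : ∀ u : UU Φ S₀, c' u = a u := by
      intro u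
      simp only [hc']
      rw [dif_pos u.2]
    have e2 : ∀ l : J1, c' (p l) = b l := by
      intro l
      have hex : ∃ l' : J1, p l' = p l := ⟨l, rfl⟩
      simp only [hc']
      rw [dif_neg (fun h => hd l (mem_filter.1 h).1), dif_pos hex]
      exact congrArg b (Subtype.ext (hp hex.choose_spec))
    have hr : σ.rs S₀ J1 p (c', g) = (a, b, g) :=
      Prod.ext (funext e1) (Prod.ext (funext e2) rfl)
    have hz : ∀ q, q ∉ S → c' q = 0 := by
      intro n hn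
      simp only [hc']
      rw [dif_neg, dif_neg]
      · rintro ⟨l, rfl⟩
        exact hn (mem_union_right _ (mem_image_of_mem _ (mem_univ _)))
      · intro h
        rw [mem_filter] at h
        exact hn (mem_union_left _ h.1)
    have hz1 : ∀ q, ¬ Φ.A q → c' q = 0 := fun q hq => hz q fun h => hq (hAS q h)
    have hz2 : ∀ l, l ∉ J1 → c' (p l) = 0 := by
      intro l hl
      simp only [hc']
      rw [dif_neg (fun h => hd l (mem_filter.1 h).1), dif_neg]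
      rintro ⟨l', hl'⟩
      exact hl (hp hl' ▸ l'.2)
    have hw' : σ.rs S₀ J1 p (c', g) ∈ T := by
      rw [hr]
      exact hw
    obtain ⟨⟨w1, w2⟩, w3⟩ := hw'
    have hcls : (g, ∑ q ∈ S, c' q • σ.h q) ∈ σ.𝓛 := by
      have h2 := row3 (J1 := J1) σ hp hd (c', g) hz1 hz2
      rw [← h2]
      exact w1
    have hrow : ∀ q ∈ S, q ≠ p k0 → row σ S (c', g) q = 0 := by
      intro n hn hne
      rcases Finset.mem_union.1 hn with h1 | h1
      · have h2 := row1 (J1 := J1) σ hp hd (c', g) hz1 hz2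
          (⟨n, mem_filter.2 ⟨h1, hA0 n h1⟩⟩ : UU Φ S₀)
        exact h2.symm.trans (congrFun w2 ⟨n, mem_filter.2 ⟨h1, hA0 n h1⟩⟩)
      · obtain ⟨k, -, rfl⟩ := Finset.mem_image.1 h1
        have hk : k ∈ J1 := Finset.mem_erase.2 ⟨fun h => hne (by rw [h]), mem_univ _⟩
        have h2 := row2 σ hpr hp hd hJ (c', g) hz1 hz2 ⟨k, hk⟩
        exact h2.symm.trans (w3 ⟨k, hk⟩)
    have hk0S : p k0 ∈ S := mem_union_right _ (mem_image_of_mem _ (mem_univ _))
    have hrow0 : row σ S (c', g) (p k0) = 0 := by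
      have h2 := hred (c', g) hz hcls
      rw [← Finset.add_sum_erase _ _ hk0S, Finset.sum_eq_zero (fun q hq =>
        hrow q (Finset.mem_of_mem_erase hq) (Finset.ne_of_mem_erase hq)), add_zero] at h2
      exact h2
    refine ⟨⟨(c', g), Sys.mem_Sel.2 ?_, ?_⟩, Subtype.ext hr⟩
    · refine ⟨fun q hq => hz q fun h => hq ⟨h, hAS q h⟩, fun n hn ha => ?_, hcls⟩
      by_cases hne : n = p k0
      · rw [hne]
        exact hrow0
      · exact hrow n hn hne
    · show c' (p k0) = 0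
      exact hz2 k0 (Finset.notMem_erase _ _)

end two

end Q44.BS
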