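import Pool.Agent.Q44.BS.Grp
import Pool.Agent.Q44.TI.Sha

/-!
# The rank, the Tate-Shafarevich group and the two isogeny Selmer groups: full `2`-torsion
-/

set_option autoImplicit false

open scoped Classical

namespace Q44.BS

open WeierstrassCurve

open Pool.Agent.W262.SH (QB Pt act IsCoc IsCob LocTriv shaCoc cob Sha)
open Pool.Agent.TH841.SH Pool.Agent.Y668
open Pool.Agent.Y700 (exists_SR diff_rat)
open Q44.TI (SelS card_sel2)

variable {a b : ℚ}

/-- a root gives a point of order two -/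
theorem pt_root (hb : b ≠ 0) (hab : a ^ 2 - 4 * b ≠ 0) {x : ℚ} (hx : x * (x ^ 2 + a * x + b) = 0) :
    ∃ h : (Wt a b).toAffine.Nonsingular x 0,
      (Affine.Point.some x 0 h : (Wt a b).toAffine.Point) + .some x 0 h = 0 := by
  have hn : (Wt a b).toAffine.Nonsingular x 0 := by
    rw [Affine.nonsingular_iff]
    refine ⟨?_, Or.inl ?_⟩
    · rw [Affine.equation_iff]
      show (0 : ℚ) ^ 2 + 0 * x * 0 + 0 * 0 = x ^ 3 + a * x ^ 2 + b * x + 0
      linear_combination -hx
    · show (0 : ℚ) * 0 ≠ 3 * x ^ 2 + 2 * a * x + b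
      intro h
      rcases mul_eq_zero.1 hx with h1 | h1
      · apply hb
        rw [h1] at h
        linear_combination -h
      · apply hab
        have h2 : x * (2 * x + a) = 0 := by linear_combination -h - h1
        rcases mul_eq_zero.1 h2 with h3 | h3
        · exfalso
          apply hb
          rw [h3] at h1
          linear_combination h1
        · have : a = -2 * x := by linarith
          rw [this] at h1 ⊢
          linear_combination -4 * h1
  refine ⟨hn, ?_⟩
  apply Affine.Point.add_self_of_Y_eq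
  show (0 : ℚ) = -0 - 0 * x - 0
  ring

/-- the four points of order dividing two -/
theorem four (hb : b ≠ 0) (hab : a ^ 2 - 4 * b ≠ 0) (hsq : IsSquare (a ^ 2 - 4 * b)) :
    ∃ S : Finset (Wt a b).toAffine.Point, S.card = 4 ∧ ∀ x ∈ S, x + x = 0 := by
  obtain ⟨s, hs⟩ := hsq
  have hs0 : s ≠ 0 := by
    rintro rfl
    exact hab (by rw [hs]; ring)
  set u : ℚ := (-a + s) / 2 with hu
  set v : ℚ := (-a - s) / 2 with hv
  have huv : u ≠ v := by
    intro h
    apply hs0
    rw [hu, hv] at h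
    linarith
  have hp : u * v = b := by
    rw [hu, hv]
    linear_combination (1 / 4 : ℚ) * hs
  have hu0 : u ≠ 0 := by
    intro h
    apply hb
    rw [← hp, h, zero_mul]
  have hv0 : v ≠ 0 := by
    intro h
    apply hb
    rw [← hp, h, mul_zero]
  have e1 : u ^ 2 + a * u + b = 0 := by
    rw [hu]
    linear_combination (-1 / 4 : ℚ) * hs
  have e2 : v ^ 2 + a * v + b = 0 := by
    rw [hv]
    linear_combination (-1 / 4 : ℚ) * hs
  obtain ⟨n0, h0⟩ := pt_root hb hab (x := 0) (by ring)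
  obtain ⟨n1, h1⟩ := pt_root hb hab (x := u) (by rw [e1, mul_zero])
  obtain ⟨n2, h2⟩ := pt_root hb hab (x := v) (by rw [e2, mul_zero])
  refine ⟨{0, .some 0 0 n0, .some u 0 n1, .some v 0 n2}, ?_, ?_⟩
  · rw [Finset.card_insert_of_notMem, Finset.card_insert_of_notMem,
      Finset.card_insert_of_notMem, Finset.card_singleton]
    · simp only [Finset.mem_singleton, Affine.Point.some.injEq, not_and]
      exact fun h => absurd h huv
    · simp only [Finset.mem_insert, Finset.mem_singleton, Affine.Point.some.injEq, not_or, not_and]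
      exact ⟨fun h => absurd h.symm hu0, fun h => absurd h.symm hv0⟩
    · simp only [Finset.mem_insert, Finset.mem_singleton, not_or]
      exact ⟨(Affine.Point.some_ne_zero _).symm, (Affine.Point.some_ne_zero _).symm,
        (Affine.Point.some_ne_zero _).symm⟩
  · intro x hx
    simp only [Finset.mem_insert, Finset.mem_singleton] at hx
    rcases hx with rfl | rfl | rfl | rfl
    · exact add_zero 0
    · exact h0
    · exact h1
    · exact h2

/-- **the rank, the Tate-Shafarevich group and the Selmer cocycles** -/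
theorem card_ker (hb : b ≠ 0) (hab : a ^ 2 - 4 * b ≠ 0) (hsq : IsSquare (a ^ 2 - 4 * b))
    [hfin : Finite (selCoc (Wt a b))] :
    Finite {x : Sha (Wt a b) // x + x = 0} ∧
    4 * (2 ^ Module.finrank ℤ (Wt a b).toAffine.Point * Nat.card {x : Sha (Wt a b) // x + x = 0}) ≤
      Nat.card (selCoc (Wt a b)) := by
  obtain ⟨e1, e2, hp12, hR, hne⟩ := exists_roots QB a b
  obtain ⟨n1, n2, n12⟩ := hne hb hab
  obtain ⟨j, hj, hjσ, hjf⟩ := exists_rat (Wt a b)
  have h2 : (2 : QB) ≠ 0 := two_ne_zero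
  have hc : ∀ (g : (Wt a b).toAffine.Point) (Q : Pt (Wt a b) QB), j g = Q + Q →
      (fun σ : QB ≃ₐ[ℚ] QB => act (Wt a b) σ.toAlgHom Q - Q) ∈ selCoc (Wt a b) := by
    intro g Q hQ
    apply cob_selCoc
    intro σ
    have e3 : act (Wt a b) σ.toAlgHom Q - Q + (act (Wt a b) σ.toAlgHom Q - Q) =
      (act (Wt a b) σ.toAlgHom Q + act (Wt a b) σ.toAlgHom Q) - (Q + Q) := by abel
    rw [e3, ← map_add, ← hQ, hjσ, sub_self]
  -- the kernel
  set K : AddSubgroup (selCoc (Wt a b)) := (toShaC (Wt a b)).ker with hK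
  have hexK : ∀ f : K, ∃ g : (Wt a b).toAffine.Point, ∃ Q : Pt (Wt a b) QB, j g = Q + Q ∧
      ∀ σ, (f.1 : (QB ≃ₐ[ℚ] QB) → Pt (Wt a b) QB) σ = act (Wt a b) σ.toAlgHom Q - Q := by
    intro f
    obtain ⟨P, hP⟩ := (toShaC_ker _ _).1 f.2
    obtain ⟨g, hg⟩ := hjf (P + P) (by
      intro σ
      have e3 := f.1.2.2.1 σ
      rw [hP σ] at e3
      rw [map_add]
      have e4 : act (Wt a b) σ.toAlgHom P + act (Wt a b) σ.toAlgHom P =
          (act (Wt a b) σ.toAlgHom P - P + (act (Wt a b) σ.toAlgHom P - P)) + (P + P) := by abel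
      rw [e4, e3, zero_add])
    exact ⟨g, P, hg, hP⟩
  choose g Qc hQc hcK using hexK
  have hsame : ∀ (f : K) (g' : (Wt a b).toAffine.Point) (Q' : Pt (Wt a b) QB), j g' = Q' + Q' →
      (∀ σ, (f.1 : (QB ≃ₐ[ℚ] QB) → Pt (Wt a b) QB) σ = act (Wt a b) σ.toAlgHom Q' - Q') →
      (QuotientAddGroup.mk (g f) : (Wt a b).toAffine.Point ⧸
        (dbl (Wt a b).toAffine.Point).range) = QuotientAddGroup.mk g' := by
    intro f g' Q' h1 h3
    obtain ⟨q, hq⟩ := diff_rat hj hjf h1 (hQc f) (fun σ => by rw [← h3 σ, ← hcK f σ])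
    rw [QuotientAddGroup.eq]
    have e5 : -g f + g' = q + q := by
      rw [hq]
      abel
    rw [e5]
    exact ⟨q, rfl⟩
  have hsurj : Function.Surjective (fun f : K => (QuotientAddGroup.mk (g f) :
      (Wt a b).toAffine.Point ⧸ (dbl (Wt a b).toAffine.Point).range)) := by
    intro x
    obtain ⟨y, rfl⟩ := QuotientAddGroup.mk_surjective x
    obtain ⟨Q, hQ⟩ := hR.div h2 n1 n2 n12 (j y)
    have hk : (⟨_, hc y Q hQ⟩ : selCoc (Wt a b)) ∈ K := by
      rw [hK, toShaC_ker]
      exact ⟨Q, fun σ => rfl⟩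
    exact ⟨⟨_, hk⟩, hsame ⟨_, hk⟩ y Q hQ fun σ => rfl⟩
  have hKfin : Finite K := inferInstance
  have hQfin : Finite ((Wt a b).toAffine.Point ⧸ (dbl (Wt a b).toAffine.Point).range) :=
    Finite.of_surjective _ hsurj
  have hKc := Nat.card_le_card_of_surjective _ hsurj
  obtain ⟨S, hS1, hS2⟩ := four hb hab hsq
  have hrk := rank_quo (fg_Wt hb hab) S hS1 hS2
  -- the assembly
  have e1' : Nat.card {x : Sha (Wt a b) // x + x = 0} = Nat.card (toShaC (Wt a b)).range :=
    Nat.card_congr (Equiv.subtypeEquivRight (fun x => (toShaC_range hR n1 n2 n12 x).symm))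
  have hfr : Finite (toShaC (Wt a b)).range :=
    Finite.of_surjective _ (toShaC (Wt a b)).rangeRestrict_surjective
  have e2' : Nat.card (selCoc (Wt a b)) = Nat.card (toShaC (Wt a b)).range * Nat.card K := by
    rw [AddSubgroup.card_eq_card_quotient_mul_card_addSubgroup K]
    congr 1
    exact Nat.card_congr (QuotientAddGroup.quotientKerEquivRange (toShaC (Wt a b))).toEquiv
  refine ⟨Finite.of_equiv _ (Equiv.subtypeEquivRight (fun x => toShaC_range hR n1 n2 n12 x)), ?_⟩
  rw [e1', e2']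
  calc 4 * (2 ^ Module.finrank ℤ (Wt a b).toAffine.Point * Nat.card (toShaC (Wt a b)).range)
      = Nat.card (toShaC (Wt a b)).range *
        (4 * 2 ^ Module.finrank ℤ (Wt a b).toAffine.Point) := by ring
    _ ≤ _ := Nat.mul_le_mul_left _ (hrk.trans hKc)

/-- **the bound** -/
theorem sha_bound {A B : ℤ} (hB0 : B ≠ 0) (hC0 : A ^ 2 - 4 * B ≠ 0) (hC : IsSquare (A ^ 2 - 4 * B))
    (hf1 : (SelS A B).Finite) (hf2 : (SelS (-2 * A) (A ^ 2 - 4 * B)).Finite) :
    Finite {x : Sha (Wt (A : ℚ) (B : ℚ)) // x + x = 0} ∧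
    4 * (2 ^ Module.finrank ℤ (Wt (A : ℚ) (B : ℚ)).toAffine.Point *
      Nat.card {x : Sha (Wt (A : ℚ) (B : ℚ)) // x + x = 0}) ≤
        (SelS A B).ncard * (SelS (-2 * A) (A ^ 2 - 4 * B)).ncard := by
  obtain ⟨h1, h2⟩ := card_sel2 hB0 hC0 hf1 hf2
  have qb : (B : ℚ) ≠ 0 := by exact_mod_cast hB0
  have qab : (A : ℚ) ^ 2 - 4 * (B : ℚ) ≠ 0 := by exact_mod_cast hC0
  obtain ⟨k1, k2⟩ := card_ker (a := (A : ℚ)) (b := (B : ℚ)) qb qab (by
    obtain ⟨s, hs⟩ := hC
    exact ⟨s, by exact_mod_cast congrArg (fun t : ℤ => (t : ℚ)) hs⟩)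
  exact ⟨k1, k2.trans h2⟩

end Q44.BS
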