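import Pool.Agent.Q44.BS.Cu

/-!
# The system attached to a curve and to a local class
-/

set_option autoImplicit false
set_option linter.unusedSectionVars false
set_option linter.unusedVariables false

open scoped Classical

namespace Q44.BS

open Finset Module
open Pool.Agent.Y703.CQ (nr)
open Q44.TK (Fm hF hF_pos hF_mul hF_sum hF_eq hF_one Fm_two)
open Q44.BM (vm Fam RC Sys)
open Q44.TI (Loc pd ch ch_zero ch_mul ch_pd nr_ch dvd_pd_iff pd_pos not_dvd_pd nz_of cop_mod jac_mod fd)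
open Q44.BN


namespace Cq

variable (c : Cq)

theorem act_iff {p : ℕ} (hp : p.Prime) (hpm : p.Coprime c.m) :
    Ac c.A c.B p ↔ jc c.m c.B (hF c.m p) = 0 := by
  have : Fact p.Prime := ⟨hp⟩
  rw [jc_prime c.hm.nz c.hm.dB hp hpm, ch_zero]
  refine ⟨fun h => h.sqB, fun h => ?_⟩
  have hnd := (c.hm.cop_iff hp).1 hpm
  rcases ac_or_pa c.hs hp hnd with h1 | h1
  · exact h1
  · exact absurd h h1.nsB

theorem act_cop {p : ℕ} (h : Ac c.A c.B p) : p.Coprime c.m := (c.hm.cop_iff h.pr).2 h.nd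

/-- the class of an active prime -/
noncomputable def hA (p : ℕ) : c.FA :=
  if h : Ac c.A c.B p then ⟨hF c.m p, (c.act_iff h.pr (c.act_cop h)).1 h⟩ else 0

theorem hA_coe {p : ℕ} (h : Ac c.A c.B p) : (c.hA p : Fm c.m) = hF c.m p := by
  unfold hA
  rw [dif_pos h]

theorem chi_hA (g : GG c.T) {p : ℕ} (h : Ac c.A c.B p) :
    c.chi g (c.hA p) = ch ((UU g : ℤ) : ZMod p) := by
  rw [c.ch_UU g h.pr (c.act_cop h), c.chi_apply, c.hA_coe h]

/-- the residue classes -/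
noncomputable def rc : RC where
  m := c.m
  𝒜 := (range c.m).filter fun r => r.Coprime c.m ∧ jv c.B r = 0
  ℬ := (range c.m).filter fun r => r.Coprime c.m ∧ jv c.B r ≠ 0
  h4 := c.hm.four
  pos := Nat.pos_of_ne_zero c.hm.nz
  hA := fun a ha => ⟨mem_range.1 (mem_filter.1 ha).1, (mem_filter.1 ha).2.1⟩
  h1 := by
    have h8 := c.hm.eight
    have hnz := c.hm.nz
    have h1 : 1 < c.m := by
      have := Nat.le_of_dvd (Nat.pos_of_ne_zero hnz) h8
      omega
    exact mem_filter.2 ⟨mem_range.2 h1, Nat.coprime_one_left _, jv_one _⟩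
  hB := fun a ha => ⟨mem_range.1 (mem_filter.1 ha).1, (mem_filter.1 ha).2.1⟩
  dis := by
    rw [Finset.disjoint_left]
    intro r h1 h2
    exact (mem_filter.1 h2).2.2 (mem_filter.1 h1).2.2

theorem A_iff (p : ℕ) : c.rc.Φ.A p ↔ Ac c.A c.B p := by
  have hpos := Nat.pos_of_ne_zero c.hm.nz
  show p.Prime ∧ p % c.m ∈ (range c.m).filter _ ↔ _
  rw [mem_filter, mem_range]
  constructor
  · rintro ⟨hp, -, h2, h3⟩
    have hc := cop_mod.1 h2
    rw [c.act_iff hp hc, jc_hF c.hm.nz c.hm.dB hc, ← jv_mod c.hm.dB hc]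
    exact h3
  · intro h
    have hc := c.act_cop h
    refine ⟨h.pr, Nat.mod_lt _ hpos, cop_mod.2 hc, ?_⟩
    rw [jv_mod c.hm.dB hc, ← jc_hF c.hm.nz c.hm.dB hc]
    exact (c.act_iff h.pr hc).1 h

theorem P_iff (p : ℕ) : c.rc.Φ.P p ↔ p.Prime ∧ p.Coprime c.m := by
  have hpos := Nat.pos_of_ne_zero c.hm.nz
  rw [c.rc.P_iff]
  show p.Prime ∧ p % c.m ∈ (range c.m).filter _ ∪ (range c.m).filter _ ↔ _
  rw [mem_union, mem_filter, mem_filter, mem_range, cop_mod]
  constructor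
  · rintro ⟨hp, h | h⟩
    · exact ⟨hp, h.2.1⟩
    · exact ⟨hp, h.2.1⟩
  · rintro ⟨hp, h⟩
    refine ⟨hp, ?_⟩
    by_cases h1 : jv c.B (p % c.m) = 0
    · exact Or.inl ⟨Nat.mod_lt _ hpos, h, h1⟩
    · exact Or.inr ⟨Nat.mod_lt _ hpos, h, h1⟩

/-- the conditions at the bad places -/
theorem Lb_hF {n n' : ℕ} (hn : n.Coprime c.m) (hn' : n'.Coprime c.m) (h : hF c.m n = hF c.m n')
    (g : GG c.T) (hL : Lb c.A c.B c.d (UU g * n)) : Lb c.A c.B c.d (UU g * n') := by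
  have hd0 : ((c.d : ℕ) : ℤ) ≠ 0 := by exact_mod_cast c.d0
  have hn0 : ((n : ℕ) : ℤ) ≠ 0 := by exact_mod_cast ne_zero_of_cop c.hm.four hn
  have hn0' : ((n' : ℕ) : ℤ) ≠ 0 := by exact_mod_cast ne_zero_of_cop c.hm.four hn'
  have hU := UU_ne c.hT g
  have hnn : (0 : ℤ) < (n : ℤ) * n' := by positivity
  refine Lb_cls hd0 hd0 (mul_ne_zero hU hn0) (mul_ne_zero hU hn0') (mul_self_pos.2 hd0) ?_
    (fun p _ _ => ⟨(c.d : ℚ_[p]), by push_cast; ring⟩) (fun p hp hd => ?_) hL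
  · have e : UU g * n * (UU g * n') = UU g ^ 2 * ((n : ℤ) * n') := by ring
    rw [e]
    positivity
  · have e : UU g * n * (UU g * n') = UU g * UU g * ((n : ℤ) * n') := by ring
    rw [e, Int.cast_mul]
    exact IsSquare.mul ⟨(UU g : ℚ_[p]), by push_cast; ring⟩
      (sq_of_hF c.hm.eight hn hn' h p ((c.hm.prime_iff hp.out).2 hd))

/-- the vectors which satisfy the conditions at the bad places -/
noncomputable def LL : Submodule (ZMod 2) (GG c.T × c.FA) where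
  carrier := {w | ∃ n : ℕ, n.Coprime c.m ∧ hF c.m n = w.2 ∧ Lb c.A c.B c.d (UU w.1 * n)}
  zero_mem' := by
    refine ⟨1, Nat.coprime_one_left _, ?_, ?_⟩
    · rw [hF_one]
      rfl
    · have e : UU (0 : GG c.T × c.FA).1 * ((1 : ℕ) : ℤ) = 1 := by
        rw [Prod.fst_zero, UU_zero]
        rfl
      rw [e]
      exact Lb_one c.B0 c.hC (by exact_mod_cast c.d0)
  add_mem' := by
    rintro x y ⟨n, hn, h1, h2⟩ ⟨n', hn', h1', h2'⟩
    refine ⟨n * n', Nat.Coprime.mul_left hn hn', ?_, ?_⟩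
    · rw [hF_mul hn hn', h1, h1']
      rfl
    · have hd0 : ((c.d : ℕ) : ℤ) ≠ 0 := by exact_mod_cast c.d0
      have hn0 : ((n : ℕ) : ℤ) ≠ 0 := by exact_mod_cast ne_zero_of_cop c.hm.four hn
      have hn0' : ((n' : ℕ) : ℤ) ≠ 0 := by exact_mod_cast ne_zero_of_cop c.hm.four hn'
      have hU := UU_ne c.hT x.1
      have hU' := UU_ne c.hT y.1
      have hU2 := UU_ne c.hT (x + y).1
      have hnn : (0 : ℤ) < (n : ℤ) * n' := by positivity
      have h3 := Lb_mul c.B0 c.hC hd0 (mul_ne_zero hU hn0) (mul_ne_zero hU' hn0') h2 h2'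
      obtain ⟨s, hs0, -, hs⟩ := UU_add c.hT x.1 y.1
      have e : UU x.1 * n * (UU y.1 * n') * (UU (x + y).1 * ((n * n' : ℕ) : ℤ)) =
          (UU (x + y).1 * s * ((n : ℤ) * n')) * (UU (x + y).1 * s * ((n : ℤ) * n')) := by
        rw [Prod.fst_add]
        push_cast
        linear_combination UU (x.1 + y.1) * (n : ℤ) ^ 2 * (n' : ℤ) ^ 2 * hs
      have h0 : UU (x + y).1 * s * ((n : ℤ) * n') ≠ 0 :=
        mul_ne_zero (mul_ne_zero hU2 hs0) hnn.ne'
      refine Lb_cls hd0 hd0 (mul_ne_zero (mul_ne_zero hU hn0) (mul_ne_zero hU' hn0'))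
        (mul_ne_zero hU2 (by push_cast; exact hnn.ne')) (mul_self_pos.2 hd0) ?_
        (fun p _ _ => ⟨(c.d : ℚ_[p]), by push_cast; ring⟩) (fun p hp hd => ?_) h3
      · rw [e]
        exact mul_self_pos.2 h0
      · rw [e]
        exact ⟨((UU (x + y).1 * s * ((n : ℤ) * n') : ℤ) : ℚ_[p]), by rw [← Int.cast_mul]⟩
  smul_mem' := by
    intro a x hx
    rcases two_cases a with h | h
    · rw [h, zero_smul]
      refine ⟨1, Nat.coprime_one_left _, ?_, ?_⟩
      · rw [hF_one]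
        rfl
      · have e : UU (0 : GG c.T × c.FA).1 * ((1 : ℕ) : ℤ) = 1 := by
          rw [Prod.fst_zero, UU_zero]
          rfl
        rw [e]
        exact Lb_one c.B0 c.hC (by exact_mod_cast c.d0)
    · rw [h, one_smul]
      exact hx

theorem mem_LL {w : GG c.T × c.FA} {n : ℕ} (hn : n.Coprime c.m) (h : hF c.m n = w.2) :
    w ∈ c.LL ↔ Lb c.A c.B c.d (UU w.1 * n) := by
  constructor
  · rintro ⟨n', hn', h1, h2⟩
    exact c.Lb_hF hn' hn (h1.trans h.symm) w.1 h2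
  · intro h2
    exact ⟨n, hn, h, h2⟩

/-- the system -/
noncomputable def sy (L : Submodule (ZMod 2) (GG c.T × c.FA)) : Sys c.rc.Φ (GG c.T) c.FA where
  h := c.hA
  f := fd c.A c.B
  v := (jc c.m (-1)).comp c.FA.subtype
  χ := c.chi
  𝓛 := L
  hv := by
    intro p hp
    have ha := (c.A_iff p).1 hp
    show jc c.m (-1) (c.hA p) = vm p
    rw [c.hA_coe ha, jc_hF c.hm.nz c.hm.dneg (c.act_cop ha), jv_neg_one ha.pr ha.two_ne]

end Cq

end Q44.BS
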