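import Pool.Agent.Q44.BS.All
import Pool.Agent.Q44.BN.Tam

/-!
# The constant of a local class is a product over the bad places
-/

set_option autoImplicit false
set_option linter.unusedSectionVars false
set_option linter.unusedVariables false

open scoped Classical

namespace Q44.BS

open Finset Module
open Pool.Agent.W313.BMX (Splits)
open Pool.Agent.W928.BMX (splits_comm splits_sq splits_real)
open Q44.BC (lm lm_apply)
open Q44.TK (Fm hF hF_pos hF_mul hF_sum hF_eq hF_one Fm_two fin_Fm)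
open Q44.TI (Loc SelS pd ch nr_ch ch_zero ch_mul ch_pd not_dvd_pd dvd_pd_iff pd_pos nz_of padic_sq
  padic_sq2 cop_mod)
open Q44.BN


namespace Cq

variable (c : Cq)

/-- the decomposition -/
theorem dec {D : ℤ} (hD : Squarefree D) : ∃ (g : GG c.T) (d : ℕ), Squarefree d ∧
    d.Coprime c.m ∧ D = UU g * d := by
  set W := D.natAbs.primeFactors.filter fun p => ¬ p ∣ c.m with hW
  have hWp : ∀ p ∈ W, p.Prime := fun p hp => Nat.prime_of_mem_primeFactors (mem_filter.1 hp).1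
  have hn : Squarefree D.natAbs := Int.squarefree_natAbs.2 hD
  have h1 : (∏ p ∈ W, p) ∣ D.natAbs := by
    have h2 : (∏ p ∈ W, p) ∣ ∏ p ∈ D.natAbs.primeFactors, p :=
      Finset.prod_dvd_prod_of_subset _ _ _ (filter_subset _ _)
    rwa [Nat.prod_primeFactors_of_squarefree hn] at h2
  obtain ⟨u, hu⟩ := Int.natCast_dvd.2 h1
  have hus : Squarefree u := hD.squarefree_of_dvd (Dvd.intro_left _ hu.symm)
  have hcop : (∏ p ∈ W, p).Coprime c.m := Nat.Coprime.prod_left fun p hp =>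
    (Nat.Prime.coprime_iff_not_dvd (hWp p hp)).2 (mem_filter.1 hp).2
  obtain ⟨g, hg⟩ := UU_surj c.hT hus fun p hp hd => by
    unfold T
    rw [Nat.mem_primeFactors]
    refine ⟨hp, ?_, c.hm.nz⟩
    by_contra h2
    have h3 : (p : ℤ) ∣ D := by
      rw [hu]
      exact hd.mul_left _
    have h4 : p ∈ W := mem_filter.2 ⟨Nat.mem_primeFactors.2 ⟨hp, Int.natCast_dvd.1 h3,
      Int.natAbs_ne_zero.2 hD.ne_zero⟩, h2⟩
    have h5 : (p : ℤ) ∣ ((∏ p ∈ W, p : ℕ) : ℤ) :=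
      Int.natCast_dvd_natCast.2 (Finset.dvd_prod_of_mem _ h4)
    have h6 : (p : ℤ) * p ∣ D := by
      rw [hu]
      exact mul_dvd_mul h5 hd
    have h7 := hD _ h6
    rw [Int.isUnit_iff] at h7
    have := hp.one_lt
    omega
  refine ⟨g, ∏ p ∈ W, p, Q44.TI.sqf_prod hWp, hcop, ?_⟩
  rw [hg, hu]
  ring

theorem dvd_k {g : GG c.T} {d : ℕ} (hd : d.Coprime c.m) {p : ℕ}
    (hp : p ∈ c.T) : (p : ℤ) ∣ UU g * d ↔ (p : ℤ) ∣ UU g := by
  have hpp := c.hT p hp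
  constructor
  · intro h
    rcases (Nat.prime_iff_prime_int.1 hpp).dvd_or_dvd h with h1 | h1
    · exact h1
    · exfalso
      have h2 : p ∣ d := Int.natCast_dvd_natCast.1 h1
      have h3 : p ∣ c.m := Nat.dvd_of_mem_primeFactors hp
      exact hpp.one_lt.ne' (Nat.dvd_one.1 (hd ▸ Nat.dvd_gcd h2 h3))
  · intro h
    exact h.mul_right _

/-- the classes are determined by the local classes -/
theorem uniq_cls {g g' : GG c.T} {d d' : ℕ} (hd : d.Coprime c.m) (hd' : d'.Coprime c.m)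
    (hs : Squarefree (UU g * (d : ℤ))) (hs' : Squarefree (UU g' * (d' : ℤ)))
    (h1 : 0 < UU g * d * (UU g' * d'))
    (h2 : ∀ (p : ℕ) [Fact p.Prime], p ∈ c.T → IsSquare ((UU g * d * (UU g' * d') : ℤ) : ℚ_[p])) :
    g = g' ∧ hF c.m d = hF c.m d' := by
  have h4 := c.hm.four
  have hd0 : (0 : ℤ) < d := by exact_mod_cast Nat.pos_of_ne_zero (ne_zero_of_cop h4 hd)
  have hd0' : (0 : ℤ) < d' := by exact_mod_cast Nat.pos_of_ne_zero (ne_zero_of_cop h4 hd')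
  have hg : g = g' := by
    refine Prod.ext (funext fun t => two_eq _ _ ?_) (two_eq _ _ ?_)
    · have hpp := c.hT t t.2
      have : Fact (t : ℕ).Prime := ⟨hpp⟩
      have h5 := h2 t t.2
      have h3 : ((t : ℕ) : ℤ) ∣ UU g ↔ ((t : ℕ) : ℤ) ∣ UU g' := by
        rw [← c.dvd_k hd t.2, ← c.dvd_k hd' t.2]
        constructor
        · intro h6
          by_contra h7
          exact not_sq_of hs hs' h6 h7 h5
        · intro h6
          by_contra h7
          rw [mul_comm] at h5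
          exact not_sq_of hs' hs h6 h7 h5
      rw [UU_dvd c.hT g hpp, UU_dvd c.hT g' hpp, mem_JJ, mem_JJ] at h3
      constructor
      · intro h4
        by_contra h5
        obtain ⟨h6, h7⟩ := h3.2 ⟨t.2, h5⟩
        exact h7 h4
      · intro h4
        by_contra h5
        obtain ⟨h6, h7⟩ := h3.1 ⟨t.2, h5⟩
        exact h7 h4
    · have e1 : UU g * d * (UU g' * d') = (UU g * UU g') * ((d : ℤ) * d') := by ring
      rw [e1] at h1
      have h6 := (mul_pos_iff_of_pos_right (mul_pos hd0 hd0')).1 h1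
      rw [← UU_pos c.hT, ← UU_pos c.hT]
      constructor
      · intro h3
        exact (mul_pos_iff_of_pos_left h3).1 h6
      · intro h3
        exact (mul_pos_iff_of_pos_right h3).1 h6
  subst hg
  refine ⟨rfl, (hF_iff c.hm.nz c.hm.eight hd' hd).2 fun p hp hpm => ?_⟩
  obtain ⟨s, hs⟩ := h2 p (Nat.mem_primeFactors.2 ⟨hp.out, hpm, c.hm.nz⟩)
  have hU : ((UU g : ℤ) : ℚ_[p]) ≠ 0 := by exact_mod_cast UU_ne c.hT g
  refine ⟨s / UU g, ?_⟩
  push_cast at hs ⊢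
  field_simp
  linear_combination hs

/-- **the local conditions force the class to be active** -/
theorem act_auto {g : GG c.T} {n : ℕ} (hn : n.Coprime c.m) (hL : Lb c.A c.B c.d (UU g * n)) :
    hF c.m n ∈ c.FA := by
  show jc c.m c.B (hF c.m n) = 0
  obtain ⟨q, hq, hqm, hqn⟩ := ex_pr c.hm.nz (hF c.m n)
  rw [← hqn]
  have hL' := c.Lb_hF hn hqm hqn.symm g hL
  have : Fact q.Prime := ⟨hq⟩
  have hnd := (c.hm.cop_iff hq).1 hqm
  have hsup := c.Sup_UU g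
  have hUq : ¬ (q : ℤ) ∣ UU g := fun h => hnd (hsup.2 q hq h)
  have hd0 : ((c.d : ℕ) : ℤ) ≠ 0 := by exact_mod_cast c.d0
  have hq0 : ((q : ℕ) : ℤ) ≠ 0 := by exact_mod_cast hq.ne_zero
  have hz0 : UU g * (q : ℤ) ≠ 0 := mul_ne_zero (UU_ne c.hT g) hq0
  have eC : (c.A * c.d) ^ 2 - 4 * (c.B * (c.d : ℤ) ^ 2) = (c.A ^ 2 - 4 * c.B) * (c.d : ℤ) ^ 2 := by
    ring
  have key : ∀ (K : Type) [Field K], ((c.d : ℤ) : K) ≠ 0 →
      Loc K (c.A * c.d) (c.B * (c.d : ℤ) ^ 2) (UU g * q) →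
      Splits ((UU g * q : ℤ) : K) ((c.A ^ 2 - 4 * c.B : ℤ) : K) := by
    intro K _ hK h
    have h1 := orthC h
    have h2 : (((c.A ^ 2 - 4 * c.B) * (c.d : ℤ) ^ 2 : ℤ) : K) =
        ((c.A ^ 2 - 4 * c.B : ℤ) : K) * ((c.d : ℤ) : K) ^ 2 := by push_cast; ring
    rw [eC, h2, splits_comm, splits_sq hK, splits_comm] at h1
    exact h1
  have hev := par hz0 c.hC {q} (fun p hp => by rw [mem_singleton.1 hp]; exact hq)
    (key ℝ (by exact_mod_cast hd0) hL'.2) (fun p hp hpW => by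
      rw [mem_singleton] at hpW
      by_cases hbad : (p : ℤ) ∣ N2 c.A c.B
      · exact key ℚ_[p] (by exact_mod_cast hd0) (hL'.1 p hbad)
      · refine Sp_unit (nd_two hp hbad) (fun h => ?_) (nd_C hbad)
        rcases (Nat.prime_iff_prime_int.1 hp).dvd_or_dvd h with h | h
        · exact hbad (hsup.2 p hp h)
        · exact hpW ((Nat.prime_dvd_prime_iff_eq hp hq).1 (Int.natCast_dvd_natCast.1 h)))
  have hSp : Sp (UU g * q) (c.A ^ 2 - 4 * c.B) q := by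
    by_contra h
    rw [filter_singleton, if_pos h, card_singleton] at hev
    exact absurd hev (by decide)
  have h1 := @hSp _
  have e1 : UU g * (q : ℤ) = q * UU g := mul_comm _ _
  rw [e1] at h1
  have h2 := (Pool.Agent.W335.BMX.odd3 q (nd_two hq hnd) (UU g) _ hUq (nd_C hnd)).1 h1
  rw [legendreSym.eq_one_iff _ (nz_of (nd_C hnd))] at h2
  rw [← c.act_iff hq hqm]
  rcases ac_or_pa c.hs hq hnd with h3 | h3
  · exact h3
  · exact absurd h2 h3.nsC

section facts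

attribute [local instance] Classical.propDecidable

/-- a bad prime is prime -/
theorem fT (p : c.T) : Fact (p : ℕ).Prime := ⟨c.hT p p.2⟩

attribute [local instance] fT

/-- the product of the local images -/
abbrev PI : Type :=
  (∀ p : c.T, im ℚ_[(p : ℕ)] (c.A * c.d) (c.B * (c.d : ℤ) ^ 2)) ×
    im ℝ (c.A * c.d) (c.B * (c.d : ℤ) ^ 2)

/-- a prime in the class of a vector -/
noncomputable def pw (w : GG c.T × c.FA) : ℕ := (ex_pr c.hm.nz (w.2 : Fm c.m)).choose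
theorem pw_pr (w : GG c.T × c.FA) : (c.pw w).Prime := (ex_pr c.hm.nz (w.2 : Fm c.m)).choose_spec.1
theorem pw_cop (w : GG c.T × c.FA) : (c.pw w).Coprime c.m :=
  (ex_pr c.hm.nz (w.2 : Fm c.m)).choose_spec.2.1
theorem pw_hF (w : GG c.T × c.FA) : hF c.m (c.pw w) = w.2 :=
  (ex_pr c.hm.nz (w.2 : Fm c.m)).choose_spec.2.2

/-- the integer of a vector -/
noncomputable def zw (w : GG c.T × c.FA) : ℤ := UU w.1 * (c.pw w : ℤ)

theorem zw_ne (w : GG c.T × c.FA) : c.zw w ≠ 0 :=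
  mul_ne_zero (UU_ne c.hT _) (by exact_mod_cast (c.pw_pr w).ne_zero)

theorem zw_ne' (w : GG c.T × c.FA) (K : Type) [Field K] [CharZero K] : ((c.zw w : ℤ) : K) ≠ 0 := by
  exact_mod_cast c.zw_ne w

theorem zw_sqf (w : GG c.T × c.FA) : Squarefree (c.zw w) := by
  unfold zw
  rw [← Int.squarefree_natAbs, Int.natAbs_mul, Int.natAbs_natCast]
  refine (Nat.squarefree_mul ?_).2 ⟨Int.squarefree_natAbs.2 (UU_sqf c.hT _), (c.pw_pr w).squarefree⟩
  rw [Nat.coprime_comm, (c.pw_pr w).coprime_iff_not_dvd]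
  intro h
  have h1 := UU_dvd' c.hT w.1 (c.pw_pr w) (Int.natCast_dvd.2 h)
  exact (Nat.Prime.coprime_iff_not_dvd (c.pw_pr w)).1 (c.pw_cop w)
    (Nat.dvd_of_mem_primeFactors h1)

/-- the map to the local images -/
noncomputable def toPI (w : c.LL) : c.PI :=
  (fun p => ⟨QuotientGroup.mk (Units.mk0 ((c.zw w : ℤ) : ℚ_[(p : ℕ)]) (c.zw_ne' w _)),
    (mem_im _).2 (((c.mem_LL (c.pw_cop w) (c.pw_hF w)).1 w.2).1 p
      ((c.mem_T (c.hT p p.2)).1 p.2))⟩,
   ⟨QuotientGroup.mk (Units.mk0 ((c.zw w : ℤ) : ℝ) (c.zw_ne' w _)),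
    (mem_im _).2 ((c.mem_LL (c.pw_cop w) (c.pw_hF w)).1 w.2).2⟩)

theorem toPI_inj : Function.Injective c.toPI := by
  intro w w' h
  have h1 : ∀ p : c.T, (QuotientGroup.mk (Units.mk0 ((c.zw w : ℤ) : ℚ_[(p : ℕ)]) (c.zw_ne' w _)) :
      SQ ℚ_[(p : ℕ)]) = QuotientGroup.mk (Units.mk0 ((c.zw w' : ℤ) : ℚ_[(p : ℕ)]) (c.zw_ne' w' _)) :=
    fun p => congrArg Subtype.val (congrFun (Prod.mk.inj h).1 p)
  have h2 : (QuotientGroup.mk (Units.mk0 ((c.zw w : ℤ) : ℝ) (c.zw_ne' w _)) :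
      SQ ℝ) = QuotientGroup.mk (Units.mk0 ((c.zw w' : ℤ) : ℝ) (c.zw_ne' w' _)) :=
    congrArg Subtype.val (Prod.mk.inj h).2
  rw [mk_eq, Units.val_mk0, Units.val_mk0, real_sq, ← Int.cast_mul] at h2
  have h3 : 0 < c.zw w * c.zw w' :=
    lt_of_le_of_ne (by exact_mod_cast h2) (mul_ne_zero (c.zw_ne w) (c.zw_ne w')).symm
  obtain ⟨k1, k2⟩ := c.uniq_cls (c.pw_cop w) (c.pw_cop w') (c.zw_sqf w) (c.zw_sqf w') h3
    (fun p hp hpT => by
      have h4 := h1 ⟨p, hpT⟩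
      rw [mk_eq, Units.val_mk0, Units.val_mk0, ← Int.cast_mul] at h4
      exact h4)
  rw [c.pw_hF, c.pw_hF] at k2
  exact Subtype.ext (Prod.ext k1 (Subtype.ext k2))

theorem toPI_surj : Function.Surjective c.toPI := by
  rintro ⟨f, r⟩
  choose x y hxy using fun p : c.T => (f p).2
  obtain ⟨xr, yr, hr1, hr2⟩ := r.2
  obtain ⟨D, hD, hDr, hDp⟩ := weak c.hT
    (fun p _ => if h : p ∈ c.T then ((x ⟨p, h⟩ : ℚ_[p]ˣ) : ℚ_[p]) else 1)
    (fun p _ => by
      by_cases h : p ∈ c.T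
      · rw [dif_pos h]
        exact (x ⟨p, h⟩).ne_zero
      · rw [dif_neg h]
        exact one_ne_zero) (0 < (xr : ℝ))
  obtain ⟨g, n, hn, hnm, hDg⟩ := c.dec hD
  have hD0 := hD.ne_zero
  have hDp' : ∀ p : c.T, (f p : SQ ℚ_[(p : ℕ)]) =
      QuotientGroup.mk (Units.mk0 ((D : ℤ) : ℚ_[(p : ℕ)]) (by exact_mod_cast hD0)) := by
    intro p
    rw [(hxy p).2, mk_eq, Units.val_mk0]
    have h1 := hDp p p.2
    rw [dif_pos p.2] at h1
    exact h1
  have hDr' : (r : SQ ℝ) = QuotientGroup.mk (Units.mk0 ((D : ℤ) : ℝ) (by exact_mod_cast hD0)) := by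
    rw [hr2, mk_eq, Units.val_mk0, real_sq]
    by_cases h : 0 < (xr : ℝ)
    · have : (0 : ℝ) < D := by exact_mod_cast hDr.2 h
      positivity
    · have h1 : (D : ℝ) ≤ 0 := by exact_mod_cast not_lt.1 fun h2 => h (hDr.1 h2)
      exact mul_nonneg_of_nonpos_of_nonpos (not_lt.1 h) h1
  have hL : Lb c.A c.B c.d (UU g * n) := by
    refine ⟨fun p hp hd => ?_, ?_⟩
    · have hpT := (c.mem_T hp.out).2 hd
      rw [← hDg, ← mem_im (by exact_mod_cast hD0)]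
      have h1 := (f ⟨p, hpT⟩).2
      rw [hDp'] at h1
      exact h1
    · rw [← hDg, ← mem_im (by exact_mod_cast hD0)]
      have h1 := r.2
      rw [hDr'] at h1
      exact h1
  have hA := c.act_auto hnm hL
  have hw : ((g, ⟨hF c.m n, hA⟩) : GG c.T × c.FA) ∈ c.LL := ⟨n, hnm, rfl, hL⟩
  refine ⟨⟨_, hw⟩, ?_⟩
  set w : c.LL := ⟨(g, ⟨hF c.m n, hA⟩), hw⟩ with hwd
  have hpn : hF c.m (c.pw w) = hF c.m n := c.pw_hF w
  have hz : c.zw w = UU g * c.pw w := rfl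
  have hn0 : 0 < n := Nat.pos_of_ne_zero (ne_zero_of_cop c.hm.four hnm)
  have hq0 := (c.pw_pr w).pos
  refine Prod.ext (funext fun p => Subtype.ext ?_) (Subtype.ext ?_)
  · show (QuotientGroup.mk (Units.mk0 ((c.zw w : ℤ) : ℚ_[(p : ℕ)]) (c.zw_ne' w _)) :
      SQ ℚ_[(p : ℕ)]) = f p
    rw [hDp', mk_eq, Units.val_mk0, Units.val_mk0, hz, hDg]
    obtain ⟨s, hs⟩ := sq_of_hF c.hm.eight (c.pw_cop w) hnm hpn p (Nat.dvd_of_mem_primeFactors p.2)
    refine ⟨UU g * s, ?_⟩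
    push_cast at hs ⊢
    linear_combination ((UU g : ℤ) : ℚ_[(p : ℕ)]) ^ 2 * hs
  · show (QuotientGroup.mk (Units.mk0 ((c.zw w : ℤ) : ℝ) (c.zw_ne' w _)) : SQ ℝ) = r
    rw [hDr', mk_eq, Units.val_mk0, Units.val_mk0, hz, hDg, real_sq]
    push_cast
    have e1 : (UU g : ℝ) * (c.pw w : ℝ) * ((UU g : ℝ) * (n : ℝ)) =
      (UU g : ℝ) ^ 2 * ((c.pw w : ℝ) * n) := by ring
    rw [e1]
    positivity

theorem card_LLim : Nat.card c.LL =
    (∏ p : c.T, Nat.card (im ℚ_[(p : ℕ)] (c.A * c.d) (c.B * (c.d : ℤ) ^ 2))) *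
      Nat.card (im ℝ (c.A * c.d) (c.B * (c.d : ℤ) ^ 2)) := by
  rw [Nat.card_congr (Equiv.ofBijective c.toPI ⟨c.toPI_inj, c.toPI_surj⟩), Nat.card_prod,
    Nat.card_pi]

end facts

end Cq

end Q44.BS
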