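import Pool.Agent.Q44.BP.Lc

/-!
# The local images at `2`
-/

set_option autoImplicit false

open scoped Classical

namespace Q44.BS

open Finset
open Pool.Agent.W313.BMX (Splits splits_mul_sq splits_neg_mul)
open Pool.Agent.W928.BMX (splits_comm splits_sq splits_real)
open Pool.Agent.W108.BMX (to_zmod cast16)
open Q44.TI (Loc padic_sq padic_sq2 Loc_of_sq Loc_real nz_of)
open Q44.BN Q44.BP

/-- the search for the solutions modulo `16` -/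
def chk (a b : ℕ) : Bool := (List.range 16).any fun x => (List.range 16).any fun y =>
  Nat.beq ((x * x) % 16) ((a + b * (y * y)) % 16) || Nat.beq ((x * x) % 16) ((a * (y * y) + b) % 16) ||
    Nat.beq ((a * (x * x) + b * (y * y)) % 16) 1

theorem chk_of {a b : ℕ} (h : ∃ X Y Z : ZMod 16, (X = 1 ∨ Y = 1 ∨ Z = 1) ∧
    Z ^ 2 = (a : ZMod 16) * X ^ 2 + (b : ZMod 16) * Y ^ 2) : chk a b = true := by
  obtain ⟨X, Y, Z, h1, h2⟩ := h
  obtain ⟨x, hx, rfl⟩ : ∃ x : ℕ, x < 16 ∧ (x : ZMod 16) = X := ⟨X.val, X.val_lt, by simp⟩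
  obtain ⟨y, hy, rfl⟩ : ∃ x : ℕ, x < 16 ∧ (x : ZMod 16) = Y := ⟨Y.val, Y.val_lt, by simp⟩
  obtain ⟨z, hz, rfl⟩ : ∃ x : ℕ, x < 16 ∧ (x : ZMod 16) = Z := ⟨Z.val, Z.val_lt, by simp⟩
  unfold chk
  rw [List.any_eq_true]
  have h2' : ((z * z : ℕ) : ZMod 16) = ((a * (x * x) + b * (y * y) : ℕ) : ZMod 16) := by
    push_cast
    rw [← sq, ← sq, ← sq]
    exact h2
  rcases h1 with h | h | h
  · refine ⟨z, List.mem_range.2 hz, ?_⟩
    rw [List.any_eq_true]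
    refine ⟨y, List.mem_range.2 hy, ?_⟩
    have hx1 : x = 1 := by
      have h3 : ((x : ℕ) : ZMod 16) = ((1 : ℕ) : ZMod 16) := by rw [h, Nat.cast_one]
      rw [ZMod.natCast_eq_natCast_iff] at h3
      have h4 : x % 16 = 1 % 16 := h3
      omega
    subst hx1
    rw [ZMod.natCast_eq_natCast_iff] at h2'
    have h4 : (z * z) % 16 = (a * (1 * 1) + b * (y * y)) % 16 := h2'
    rw [mul_one, mul_one] at h4
    rw [h4]
    simp
  · refine ⟨z, List.mem_range.2 hz, ?_⟩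
    rw [List.any_eq_true]
    refine ⟨x, List.mem_range.2 hx, ?_⟩
    have hy1 : y = 1 := by
      have h3 : ((y : ℕ) : ZMod 16) = ((1 : ℕ) : ZMod 16) := by rw [h, Nat.cast_one]
      rw [ZMod.natCast_eq_natCast_iff] at h3
      have h4 : y % 16 = 1 % 16 := h3
      omega
    subst hy1
    rw [ZMod.natCast_eq_natCast_iff] at h2'
    have h4 : (z * z) % 16 = (a * (x * x) + b * (1 * 1)) % 16 := h2'
    rw [mul_one, mul_one] at h4
    rw [h4]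
    simp
  · refine ⟨x, List.mem_range.2 hx, ?_⟩
    rw [List.any_eq_true]
    refine ⟨y, List.mem_range.2 hy, ?_⟩
    have hz1 : z = 1 := by
      have h3 : ((z : ℕ) : ZMod 16) = ((1 : ℕ) : ZMod 16) := by rw [h, Nat.cast_one]
      rw [ZMod.natCast_eq_natCast_iff] at h3
      have h4 : z % 16 = 1 % 16 := h3
      omega
    subst hz1
    rw [ZMod.natCast_eq_natCast_iff] at h2'
    have h4 : (1 * 1) % 16 = (a * (x * x) + b * (y * y)) % 16 := h2'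
    rw [← h4]
    simp

theorem spl {a b : ℤ} {a' b' : ℕ} (ha : a % 16 = (a' : ℕ)) (hb : b % 16 = (b' : ℕ))
    (h : Splits ((a : ℤ) : ℚ_[2]) ((b : ℤ) : ℚ_[2])) : chk a' b' = true := by
  apply chk_of
  have h1 := to_zmod h
  rw [cast16 ha, cast16 hb] at h1
  exact h1

theorem k1 : ∀ m ∈ List.range 16, ∀ u ∈ List.range 8, m % 2 = 1 → u % 2 = 1 →
    chk m (16 - 2 * u) = true → chk m ((17 - 2 * u) % 16) = true → m % 8 = 1 := by
  decide +kernel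

theorem k2 : ∀ m ∈ List.range 16, ∀ u ∈ List.range 8, m % 2 = 1 → u % 2 = 1 →
    chk ((2 * m) % 16) (16 - 2 * u) = true → chk ((2 * m) % 16) ((17 - 2 * u) % 16) = true →
      (m * u) % 8 = 1 := by
  decide +kernel

theorem k3 : ∀ m ∈ List.range 16, ∀ u ∈ List.range 8, m % 2 = 1 → u % 2 = 1 →
    chk m (2 * u) = true → m % 8 = 1 ∨ (m * (17 - 2 * u)) % 8 = 1 := by
  decide +kernel

theorem k4 : ∀ m ∈ List.range 16, ∀ u ∈ List.range 8, m % 2 = 1 → u % 2 = 1 →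
    chk ((2 * m) % 16) (2 * u) = true → (m * (8 - u)) % 8 = 1 ∨ (m * (8 - u) * (17 - 2 * u)) % 8 = 1 := by
  decide +kernel

/-- the residues -/
theorem res16 (m : ℤ) (hm : m % 2 = 1) : ∃ m' : ℕ, m' ∈ List.range 16 ∧ m' % 2 = 1 ∧ m % 16 = (m' : ℕ) := by
  refine ⟨(m % 16).toNat, ?_, ?_, ?_⟩
  · rw [List.mem_range]
    omega
  · omega
  · omega

theorem res8 (m : ℤ) (hm : m % 2 = 1) : ∃ m' : ℕ, m' ∈ List.range 8 ∧ m' % 2 = 1 ∧ m % 8 = (m' : ℕ) := by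
  refine ⟨(m % 8).toNat, ?_, ?_, ?_⟩
  · rw [List.mem_range]
    omega
  · omega
  · omega

/-- the elements orthogonal to `-2 u` and to `1 - 2 u` -/
theorem perp_a {m u : ℤ} (hm : m % 2 = 1) (hu : u % 2 = 1)
    (h1 : Splits ((m : ℤ) : ℚ_[2]) ((-(2 * u) : ℤ) : ℚ_[2]))
    (h2 : Splits ((m : ℤ) : ℚ_[2]) ((1 - 2 * u : ℤ) : ℚ_[2])) : m % 8 = 1 := by
  obtain ⟨m', hm1, hm2, hm3⟩ := res16 m hm
  obtain ⟨u', hu1, hu2, hu3⟩ := res8 u hu
  rw [List.mem_range] at hm1 hu1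
  have g1 := spl (b' := 16 - 2 * u') hm3 (by omega) h1
  have g2 := spl (b' := (17 - 2 * u') % 16) hm3 (by omega) h2
  have g3 := k1 m' (List.mem_range.2 hm1) u' (List.mem_range.2 hu1) hm2 hu2 g1 g2
  omega

theorem mul_mod8 {m u : ℤ} {m' u' : ℕ} (hm : m % 16 = (m' : ℕ)) (hu : u % 8 = (u' : ℕ)) :
    (m * u) % 8 = ((m' * u' : ℕ) : ℤ) % 8 := by
  have hm' : m % 8 = (m' : ℤ) % 8 := by omega
  have hu' : u % 8 = (u' : ℤ) % 8 := by omega
  rw [Int.mul_emod, hm', hu', ← Int.mul_emod]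
  push_cast
  rfl

theorem perp_b {m u : ℤ} (hm : m % 2 = 1) (hu : u % 2 = 1)
    (h1 : Splits ((2 * m : ℤ) : ℚ_[2]) ((-(2 * u) : ℤ) : ℚ_[2]))
    (h2 : Splits ((2 * m : ℤ) : ℚ_[2]) ((1 - 2 * u : ℤ) : ℚ_[2])) : (m * u) % 8 = 1 := by
  obtain ⟨m', hm1, hm2, hm3⟩ := res16 m hm
  obtain ⟨u', hu1, hu2, hu3⟩ := res8 u hu
  rw [List.mem_range] at hm1 hu1
  have g1 := spl (a' := (2 * m') % 16) (b' := 16 - 2 * u') (by omega) (by omega) h1
  have g2 := spl (a' := (2 * m') % 16) (b' := (17 - 2 * u') % 16) (by omega) (by omega) h2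
  have g3 := k2 m' (List.mem_range.2 hm1) u' (List.mem_range.2 hu1) hm2 hu2 g1 g2
  rw [mul_mod8 hm3 hu3]
  omega

theorem perp_c {m u : ℤ} (hm : m % 2 = 1) (hu : u % 2 = 1)
    (h1 : Splits ((m : ℤ) : ℚ_[2]) ((2 * u : ℤ) : ℚ_[2])) :
    m % 8 = 1 ∨ (m * (1 - 2 * u)) % 8 = 1 := by
  obtain ⟨m', hm1, hm2, hm3⟩ := res16 m hm
  obtain ⟨u', hu1, hu2, hu3⟩ := res8 u hu
  rw [List.mem_range] at hm1 hu1
  have g1 := spl (b' := 2 * u') hm3 (by omega) h1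
  rcases k3 m' (List.mem_range.2 hm1) u' (List.mem_range.2 hu1) hm2 hu2 g1 with g3 | g3
  · left
    omega
  · right
    rw [Int.mul_emod, (by omega : m % 8 = (m' : ℤ) % 8),
      (by omega : (1 - 2 * u) % 8 = ((17 - 2 * u' : ℕ) : ℤ) % 8), ← Int.mul_emod, ← Nat.cast_mul]
    omega

theorem perp_d {m u : ℤ} (hm : m % 2 = 1) (hu : u % 2 = 1)
    (h1 : Splits ((2 * m : ℤ) : ℚ_[2]) ((2 * u : ℤ) : ℚ_[2])) :
    (m * -u) % 8 = 1 ∨ (m * -u * (1 - 2 * u)) % 8 = 1 := by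
  obtain ⟨m', hm1, hm2, hm3⟩ := res16 m hm
  obtain ⟨u', hu1, hu2, hu3⟩ := res8 u hu
  rw [List.mem_range] at hm1 hu1
  have g1 := spl (a' := (2 * m') % 16) (b' := 2 * u') (by omega) (by omega) h1
  have e1 : (m * -u) % 8 = ((m' * (8 - u') : ℕ) : ℤ) % 8 := by
    rw [Int.mul_emod, (by omega : m % 8 = (m' : ℤ) % 8),
      (by omega : (-u) % 8 = ((8 - u' : ℕ) : ℤ) % 8), ← Int.mul_emod, ← Nat.cast_mul]
  rcases k4 m' (List.mem_range.2 hm1) u' (List.mem_range.2 hu1) hm2 hu2 g1 with g3 | g3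
  · left
    rw [e1]
    omega
  · right
    rw [Int.mul_emod, e1, (by omega : (1 - 2 * u) % 8 = ((17 - 2 * u' : ℕ) : ℤ) % 8),
      ← Int.mul_emod, ← Nat.cast_mul]
    omega

theorem sq_mul_sq {x k : ℚ_[2]} (hk : k ≠ 0) (h : IsSquare (x * (k * k))) : IsSquare x := by
  obtain ⟨s, hs⟩ := h
  refine ⟨s / k, ?_⟩
  field_simp
  linear_combination hs

section curve

variable {ρ σ δ : ℤ}

/-- the nonsquares -/
theorem nsq_a (hδ : δ % 4 = 2) : ¬ IsSquare ((-δ : ℤ) : ℚ_[2]) := by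
  obtain ⟨u, rfl⟩ : ∃ u, δ = 2 * u := ⟨δ / 2, by omega⟩
  have h := nsq_p (p := 2) (m := -u) (by
    intro h
    have : (2 : ℤ) ∣ -u := h
    omega)
  have e : (((2 : ℕ) : ℤ) * -u : ℤ) = -(2 * u) := by push_cast; ring
  rw [e] at h
  exact h

theorem nsq_b (hδ : δ % 4 = 2) : ¬ IsSquare ((1 - δ : ℤ) : ℚ_[2]) := by
  intro h
  have := sq2 (n := 1 - δ) (by omega) h
  omega

theorem nsq_c (hδ : δ % 4 = 2) : ¬ IsSquare ((-δ * (1 - δ) : ℤ) : ℚ_[2]) := by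
  obtain ⟨u, rfl⟩ : ∃ u, δ = 2 * u := ⟨δ / 2, by omega⟩
  have h := nsq_p (p := 2) (m := -u * (1 - 2 * u)) (by
    intro h
    have h' : (2 : ℤ) ∣ -u * (1 - 2 * u) := h
    rcases Int.prime_two.dvd_or_dvd h' with h1 | h1
    · omega
    · omega)
  have e : (((2 : ℕ) : ℤ) * (-u * (1 - 2 * u)) : ℤ) = -(2 * u) * (1 - 2 * u) := by push_cast; ring
  rw [e] at h
  exact h

theorem nsq_d (hδ : δ % 4 = 2) : ¬ IsSquare ((δ : ℤ) : ℚ_[2]) := by
  have := nsq_a (δ := -δ) (by omega)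
  rwa [neg_neg] at this

/-- the coefficients -/
theorem ab_ne (hδ : δ % 4 = 2) (hpar : (ρ + σ) % 2 = 1) (hρ : ρ ≠ 0) (hσ : σ ≠ 0) :
    (ρ * σ * δ) ^ 2 ≠ 0 ∧ ((ρ ^ 2 + σ ^ 2) * δ) ^ 2 - 4 * (ρ * σ * δ) ^ 2 ≠ 0 := by
  have hδ0 : δ ≠ 0 := by
    rintro rfl
    norm_num at hδ
  refine ⟨pow_ne_zero 2 (mul_ne_zero (mul_ne_zero hρ hσ) hδ0), ?_⟩
  have e : ((ρ ^ 2 + σ ^ 2) * δ) ^ 2 - 4 * (ρ * σ * δ) ^ 2 = ((ρ + σ) * (ρ - σ) * δ) ^ 2 := by ring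
  rw [e]
  refine pow_ne_zero 2 (mul_ne_zero (mul_ne_zero ?_ ?_) hδ0)
  · intro h
    rw [h] at hpar
    norm_num at hpar
  · intro h
    have : ρ = σ := by linarith
    rw [this] at hpar
    omega

theorem loc_a {K : Type} [Field K] (hδ : (δ : K) ≠ 0) (hρ : (ρ : K) ≠ 0) :
    Loc K ((ρ ^ 2 + σ ^ 2) * δ) ((ρ * σ * δ) ^ 2) (-δ) := by
  refine ⟨-(ρ : K) ^ 2 * δ, 0, ρ, ?_, ?_, ?_⟩
  · exact mul_ne_zero (neg_ne_zero.2 (pow_ne_zero 2 hρ)) hδ
  · push_cast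
    ring
  · push_cast
    ring

theorem loc_d {K : Type} [Field K] (hδ : (δ : K) ≠ 0) (hρσ : ((ρ + σ : ℤ) : K) ≠ 0) :
    Loc K (-2 * ((ρ ^ 2 + σ ^ 2) * δ)) (((ρ ^ 2 + σ ^ 2) * δ) ^ 2 - 4 * (ρ * σ * δ) ^ 2) δ := by
  refine ⟨((ρ + σ : ℤ) : K) ^ 2 * δ, 0, ((ρ + σ : ℤ) : K), ?_, ?_, ?_⟩
  · exact mul_ne_zero (pow_ne_zero 2 hρσ) hδ
  · push_cast
    ring
  · ring

theorem loc_b (hδ : δ % 4 = 2) (hpar : (ρ + σ) % 2 = 1) :
    Loc ℚ_[2] ((ρ ^ 2 + σ ^ 2) * δ) ((ρ * σ * δ) ^ 2) (1 - δ) := by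
  have key : ∀ o e : ℤ, o % 2 = 1 → e % 2 = 0 →
      ((1 - δ) * (1 - δ + o ^ 2 * δ) * (1 - δ + e ^ 2 * δ)) % 8 = 1 := by
    intro o e ho he
    obtain ⟨l, rfl⟩ : ∃ l, e = 2 * l := ⟨e / 2, by omega⟩
    obtain ⟨k, rfl⟩ : ∃ k, δ = 4 * k + 2 := ⟨δ / 4, by omega⟩
    obtain ⟨j, hj⟩ : ∃ j, o ^ 2 = 8 * j + 1 := by
      obtain ⟨i, rfl⟩ : ∃ i, o = 2 * i + 1 := ⟨o / 2, by omega⟩
      obtain ⟨w, hw⟩ := Int.even_mul_succ_self i
      exact ⟨w, by linear_combination 4 * hw⟩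
    have e1 : (1 - (4 * k + 2)) * (1 - (4 * k + 2) + o ^ 2 * (4 * k + 2)) *
        (1 - (4 * k + 2) + (2 * l) ^ 2 * (4 * k + 2)) = 1 + 8 * ((2 * k ^ 2 + k) +
          (-(4 * k + 1)) * (1 + 8 * j * (4 * k + 2)) * (l ^ 2 * (2 * k + 1)) +
          (4 * k + 1) ^ 2 * j * (4 * k + 2)) := by
      rw [hj]
      ring
    rw [e1]
    omega
  have hN : ((1 - δ) * (1 - δ + ρ ^ 2 * δ) * (1 - δ + σ ^ 2 * δ)) % 8 = 1 := by
    rcases Int.emod_two_eq_zero_or_one ρ with h | h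
    · have hs : σ % 2 = 1 := by omega
      have := key σ ρ hs h
      have e : (1 - δ) * (1 - δ + ρ ^ 2 * δ) * (1 - δ + σ ^ 2 * δ) =
        (1 - δ) * (1 - δ + σ ^ 2 * δ) * (1 - δ + ρ ^ 2 * δ) := by ring
      rw [e]
      exact this
    · have hs : σ % 2 = 0 := by omega
      exact key ρ σ h hs
  obtain ⟨s, hs⟩ := padic_sq2 hN
  have h1 : ((1 - δ : ℤ) : ℚ_[2]) ≠ 0 := by
    have : (1 - δ) ≠ 0 := by omega
    exact_mod_cast this
  refine ⟨((1 - δ : ℤ) : ℚ_[2]), s, 1, h1, ?_, by ring⟩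
  push_cast at hs ⊢
  linear_combination -hs

/-- the image over `ℚ_2` -/
theorem im_two (hδ : δ % 4 = 2) (hpar : (ρ + σ) % 2 = 1) (hρ : ρ ≠ 0) (hσ : σ ≠ 0) :
    Nat.card (im ℚ_[2] ((ρ ^ 2 + σ ^ 2) * δ) ((ρ * σ * δ) ^ 2)) = 4 := by
  obtain ⟨hB, hC⟩ := ab_ne hδ hpar hρ hσ
  have n1 := nsq_a hδ
  have n2 := nsq_b hδ
  have n3 := nsq_c hδ
  have hδ0 : δ ≠ 0 := by
    rintro rfl
    norm_num at hδ
  have hδK : ((δ : ℤ) : ℚ_[2]) ≠ 0 := by exact_mod_cast hδ0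
  have hδK' : ((-δ : ℤ) : ℚ_[2]) ≠ 0 := by exact_mod_cast neg_ne_zero.2 hδ0
  have h1K : ((1 - δ : ℤ) : ℚ_[2]) ≠ 0 := by
    have : (1 - δ) ≠ 0 := by omega
    exact_mod_cast this
  have l1 : Loc ℚ_[2] ((ρ ^ 2 + σ ^ 2) * δ) ((ρ * σ * δ) ^ 2) (-δ) :=
    loc_a hδK (by exact_mod_cast hρ)
  have l2 : Loc ℚ_[2] ((ρ ^ 2 + σ ^ 2) * δ) ((ρ * σ * δ) ^ 2) (1 - δ) := loc_b hδ hpar
  have l3 := Loc_mul_p hB hC (neg_ne_zero.2 hδ0) (by omega : 1 - δ ≠ 0) 2 l1 l2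
  have ld : Loc ℚ_[2] (-2 * ((ρ ^ 2 + σ ^ 2) * δ))
      (((ρ ^ 2 + σ ^ 2) * δ) ^ 2 - 4 * (ρ * σ * δ) ^ 2) δ := loc_d hδK (by
    have : ρ + σ ≠ 0 := by
      intro h
      rw [h] at hpar
      norm_num at hpar
    exact_mod_cast this)
  rw [card_im_of {1, -δ, 1 - δ, -δ * (1 - δ)}]
  · rw [card_insert_of_notMem, card_insert_of_notMem, card_insert_of_notMem, card_singleton]
    · rw [mem_singleton]
      obtain ⟨w, hw⟩ : ∃ w, δ = 2 * w := ⟨δ / 2, by omega⟩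
      intro h
      have e : -δ * (1 - δ) = 2 * (-w * (1 - δ)) := by rw [hw]; ring
      rw [e] at h
      omega
    · simp only [mem_insert, mem_singleton, not_or]
      refine ⟨by omega, fun h => ?_⟩
      have h5 : -δ * δ = 0 := by linear_combination h
      rcases mul_eq_zero.1 h5 with h6 | h6
      · omega
      · omega
    · simp only [mem_insert, mem_singleton, not_or]
      refine ⟨by omega, by omega, fun h => ?_⟩
      obtain ⟨w, hw⟩ : ∃ w, δ = 2 * w := ⟨δ / 2, by omega⟩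
      have e : -δ * (1 - δ) = 2 * (-w * (1 - δ)) := by rw [hw]; ring
      rw [e] at h
      omega
  · intro z hz
    simp only [mem_insert, mem_singleton] at hz
    rcases hz with rfl | rfl | rfl | rfl
    · norm_num
    · exact hδK'
    · exact h1K
    · rw [Int.cast_mul]
      exact mul_ne_zero hδK' h1K
  · intro z hz
    simp only [mem_insert, mem_singleton] at hz
    rcases hz with rfl | rfl | rfl | rfl
    · exact Loc_of_sq hB hC (by norm_num) 2 (Or.inl ⟨1, by norm_num⟩)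
    · exact l1
    · exact l2
    · exact l3
  · refine rep_p fun t m ht hm hL => ?_
    have hm2 : m % 2 = 1 := by
      push_cast at hm
      omega
    obtain ⟨u, hu⟩ : ∃ u, δ = 2 * u := ⟨δ / 2, by omega⟩
    have hu2 : u % 2 = 1 := by omega
    have h1 := orth two_ne_zero hL ld
    interval_cases t
    · rw [pow_zero, one_mul] at h1 ⊢
      rw [hu] at h1
      rcases perp_c hm2 hu2 h1 with h | h
      · refine ⟨1, by simp, ?_⟩
        rw [mul_one]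
        exact padic_sq2 h
      · refine ⟨1 - δ, by simp, ?_⟩
        rw [hu]
        exact padic_sq2 h
    · have e0 : (((2 : ℕ) : ℤ) ^ 1 * m) = 2 * m := by push_cast; ring
      rw [e0] at h1 ⊢
      rw [hu] at h1
      rcases perp_d hm2 hu2 h1 with h | h
      · refine ⟨-δ, by simp, ?_⟩
        obtain ⟨s, hs⟩ := padic_sq2 h
        refine ⟨2 * s, ?_⟩
        rw [hu]
        push_cast at hs ⊢
        linear_combination 4 * hs
      · refine ⟨-δ * (1 - δ), by simp, ?_⟩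
        obtain ⟨s, hs⟩ := padic_sq2 h
        refine ⟨2 * s, ?_⟩
        rw [hu]
        push_cast at hs ⊢
        linear_combination 4 * hs
  · have sy : ∀ z z' : ℤ, IsSquare ((z : ℚ_[2]) * z') → IsSquare ((z' : ℚ_[2]) * z) := by
      intro z z' h
      rwa [mul_comm] at h
    have m1 : ¬ IsSquare (((1 : ℤ) : ℚ_[2]) * ((-δ : ℤ) : ℚ_[2])) := by
      rw [Int.cast_one, one_mul]
      exact n1
    have m2 : ¬ IsSquare (((1 : ℤ) : ℚ_[2]) * ((1 - δ : ℤ) : ℚ_[2])) := by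
      rw [Int.cast_one, one_mul]
      exact n2
    have m3 : ¬ IsSquare (((1 : ℤ) : ℚ_[2]) * ((-δ * (1 - δ) : ℤ) : ℚ_[2])) := by
      rw [Int.cast_one, one_mul]
      exact n3
    have m4 : ¬ IsSquare (((-δ : ℤ) : ℚ_[2]) * ((1 - δ : ℤ) : ℚ_[2])) := by
      rw [← Int.cast_mul]
      exact n3
    have m5 : ¬ IsSquare (((-δ : ℤ) : ℚ_[2]) * ((-δ * (1 - δ) : ℤ) : ℚ_[2])) := by
      intro h
      apply n2
      refine sq_mul_sq hδK' ?_
      rw [Int.cast_mul] at h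
      convert h using 1
      ring
    have m6 : ¬ IsSquare (((1 - δ : ℤ) : ℚ_[2]) * ((-δ * (1 - δ) : ℤ) : ℚ_[2])) := by
      intro h
      apply n1
      refine sq_mul_sq h1K ?_
      rw [Int.cast_mul] at h
      convert h using 1
      ring
    intro z hz z' hz' h
    simp only [mem_insert, mem_singleton] at hz hz'
    rcases hz with rfl | rfl | rfl | rfl <;> rcases hz' with rfl | rfl | rfl | rfl <;>
      first | rfl | exact absurd h m1 | exact absurd h m2 | exact absurd h m3 | exact absurd h m4 |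
        exact absurd h m5 | exact absurd h m6 | exact absurd (sy _ _ h) m1 |
        exact absurd (sy _ _ h) m2 | exact absurd (sy _ _ h) m3 | exact absurd (sy _ _ h) m4 |
        exact absurd (sy _ _ h) m5 | exact absurd (sy _ _ h) m6

/-- the dual image over `ℚ_2` -/
theorem im_two' (hδ : δ % 4 = 2) (hpar : (ρ + σ) % 2 = 1) (hρ : ρ ≠ 0) (hσ : σ ≠ 0) :
    Nat.card (im ℚ_[2] (-2 * ((ρ ^ 2 + σ ^ 2) * δ))
      (((ρ ^ 2 + σ ^ 2) * δ) ^ 2 - 4 * (ρ * σ * δ) ^ 2)) = 2 := by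
  obtain ⟨hB, hC⟩ := ab_ne hδ hpar hρ hσ
  have hC' : (-2 * ((ρ ^ 2 + σ ^ 2) * δ)) ^ 2 -
      4 * (((ρ ^ 2 + σ ^ 2) * δ) ^ 2 - 4 * (ρ * σ * δ) ^ 2) ≠ 0 := by
    have e : (-2 * ((ρ ^ 2 + σ ^ 2) * δ)) ^ 2 -
      4 * (((ρ ^ 2 + σ ^ 2) * δ) ^ 2 - 4 * (ρ * σ * δ) ^ 2) = 16 * (ρ * σ * δ) ^ 2 := by ring
    rw [e]
    exact mul_ne_zero (by norm_num) hB
  have n4 := nsq_d hδ
  have hδ0 : δ ≠ 0 := by
    rintro rfl
    norm_num at hδ
  have hδK : ((δ : ℤ) : ℚ_[2]) ≠ 0 := by exact_mod_cast hδ0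
  have l1 : Loc ℚ_[2] ((ρ ^ 2 + σ ^ 2) * δ) ((ρ * σ * δ) ^ 2) (-δ) :=
    loc_a hδK (by exact_mod_cast hρ)
  have l2 : Loc ℚ_[2] ((ρ ^ 2 + σ ^ 2) * δ) ((ρ * σ * δ) ^ 2) (1 - δ) := loc_b hδ hpar
  have ld : Loc ℚ_[2] (-2 * ((ρ ^ 2 + σ ^ 2) * δ))
      (((ρ ^ 2 + σ ^ 2) * δ) ^ 2 - 4 * (ρ * σ * δ) ^ 2) δ := loc_d hδK (by
    have : ρ + σ ≠ 0 := by
      intro h
      rw [h] at hpar
      norm_num at hpar
    exact_mod_cast this)
  rw [card_im_of {1, δ}]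
  · rw [card_insert_of_notMem, card_singleton]
    rw [mem_singleton]
    omega
  · intro z hz
    simp only [mem_insert, mem_singleton] at hz
    rcases hz with rfl | rfl
    · norm_num
    · exact hδK
  · intro z hz
    simp only [mem_insert, mem_singleton] at hz
    rcases hz with rfl | rfl
    · exact Loc_of_sq hC hC' (by norm_num) 2 (Or.inl ⟨1, by norm_num⟩)
    · exact ld
  · refine rep_p fun t m ht hm hL => ?_
    have hm2 : m % 2 = 1 := by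
      push_cast at hm
      omega
    obtain ⟨u, hu⟩ : ∃ u, δ = 2 * u := ⟨δ / 2, by omega⟩
    have hu2 : u % 2 = 1 := by omega
    have h1 := orth two_ne_zero l1 hL
    have h2 := orth two_ne_zero l2 hL
    rw [splits_comm] at h1 h2
    interval_cases t
    · rw [pow_zero, one_mul] at h1 h2 ⊢
      rw [hu] at h1 h2
      refine ⟨1, by simp, ?_⟩
      rw [mul_one]
      exact padic_sq2 (perp_a hm2 hu2 h1 h2)
    · have e0 : (((2 : ℕ) : ℤ) ^ 1 * m) = 2 * m := by push_cast; ring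
      rw [e0] at h1 h2 ⊢
      rw [hu] at h1 h2
      refine ⟨δ, by simp, ?_⟩
      obtain ⟨s, hs⟩ := padic_sq2 (perp_b hm2 hu2 h1 h2)
      refine ⟨2 * s, ?_⟩
      rw [hu]
      push_cast at hs ⊢
      linear_combination 4 * hs
  · intro z hz z' hz' h
    simp only [mem_insert, mem_singleton] at hz hz'
    rcases hz with rfl | rfl <;> rcases hz' with rfl | rfl
    · rfl
    · exfalso
      apply n4
      rw [Int.cast_one, one_mul] at h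
      exact h
    · exfalso
      apply n4
      rw [Int.cast_one, mul_one] at h
      exact h
    · rfl

end curve

end Q44.BS
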