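import Pool.Agent.Q44.BS.Tam
import Pool.Agent.Q44.BN.Zero

/-!
# If the Selmer group is as small as possible then so is the dual Selmer group
-/

set_option autoImplicit false
set_option linter.unusedSectionVars false
set_option linter.unusedVariables false

open scoped Classical

namespace Q44.BS

open Finset Module
open Pool.Agent.Y703.CQ (nr)
open Q44.BC (lm lm_apply)
open Q44.TK (Fm hF hF_pos hF_mul hF_sum hF_eq hF_one Fm_two)
open Q44.BM (vm Fam RC Sys)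
open Q44.TI (Loc SelS pd fd ch nr_ch ch_zero ch_mul ch_pd pd_erase pd_sdiff not_dvd_pd dvd_pd_iff
  pd_pos nz_of)
open Q44.BN

/-- linear algebra -/
theorem la_hyp {V W Y : Type} [AddCommGroup V] [Module (ZMod 2) V] [AddCommGroup W]
    [Module (ZMod 2) W] [AddCommGroup Y] [Module (ZMod 2) Y] [Module.Finite (ZMod 2) V]
    [Module.Finite (ZMod 2) W] [Module.Finite (ZMod 2) Y] (Ψ : V →ₗ[ZMod 2] W)
    (hΨ : Function.Surjective Ψ) (R : V →ₗ[ZMod 2] Y) (L : Submodule (ZMod 2) W)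
    (hf : finrank (ZMod 2) V + finrank (ZMod 2) L = finrank (ZMod 2) Y + finrank (ZMod 2) W)
    (s : Y →ₗ[ZMod 2] ZMod 2) {y₀ : Y} (hs : s y₀ = 1) (hR : ∀ v, Ψ v ∈ L → s (R v) = 0)
    (h0 : finrank (ZMod 2) (LinearMap.ker (R.domRestrict (L.comap Ψ))) ≤ 1)
    (y : Y) (hy : s y = 0) : ∃ v, Ψ v ∈ L ∧ R v = y := by
  have e1 := LinearMap.finrank_range_add_finrank_ker (L.mkQ ∘ₗ Ψ)
  have e2 : LinearMap.range (L.mkQ ∘ₗ Ψ) = ⊤ := by
    rw [LinearMap.range_eq_top]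
    exact (Submodule.mkQ_surjective L).comp hΨ
  have e3 : LinearMap.ker (L.mkQ ∘ₗ Ψ) = L.comap Ψ := by
    rw [LinearMap.ker_comp, Submodule.ker_mkQ]
  rw [e2, finrank_top, e3] at e1
  have e4 := Submodule.finrank_quotient_add_finrank L
  have e5 : finrank (ZMod 2) (L.comap Ψ) = finrank (ZMod 2) Y := by omega
  set R' : (L.comap Ψ) →ₗ[ZMod 2] Y := R.domRestrict (L.comap Ψ) with hR'
  have e6 := LinearMap.finrank_range_add_finrank_ker R'
  have e7 := LinearMap.finrank_range_add_finrank_ker s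
  have e8 : LinearMap.range s = ⊤ := by
    rw [LinearMap.range_eq_top]
    intro a
    exact ⟨a • y₀, by rw [map_smul, hs, smul_eq_mul, mul_one]⟩
  rw [e8, finrank_top, finrank_self] at e7
  have e9 : LinearMap.range R' ≤ LinearMap.ker s := by
    rintro _ ⟨v, rfl⟩
    exact hR v v.2
  have e10 : LinearMap.range R' = LinearMap.ker s :=
    Submodule.eq_of_le_of_finrank_le e9 (by omega)
  have e11 : y ∈ LinearMap.range R' := by
    rw [e10]
    exact hy
  obtain ⟨v, hv⟩ := e11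
  exact ⟨v, v.2, hv⟩

namespace Cq

variable (c : Cq)

/-- the set contains a prime of every residue class -/
def Full (S : Finset ℕ) : Prop := ∀ i : c.I, ∃ p ∈ S, c.cl i p

theorem rw0_add (S : Finset ℕ) (v w : (ℕ → ZMod 2) × GG c.T) (p : ℕ) :
    c.rw0 S (v + w) p = c.rw0 S v p + c.rw0 S w p := by
  unfold rw0
  have e : ∑ q ∈ S, nr p q * ((v + w).1 q + (v + w).1 p) =
      ∑ q ∈ S, nr p q * (v.1 q + v.1 p) + ∑ q ∈ S, nr p q * (w.1 q + w.1 p) := by
    rw [← sum_add_distrib]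
    refine sum_congr rfl fun q _ => ?_
    simp only [Prod.fst_add, Pi.add_apply]
    ring
  rw [e]
  simp only [Prod.fst_add, Prod.snd_add, Pi.add_apply, map_add, LinearMap.add_apply]
  ring

/-- the active primes of the set -/
noncomputable def AcS (S : Finset ℕ) : Finset ℕ := S.filter (Ac c.A c.B)

theorem mem_AcS {S : Finset ℕ} {p : ℕ} : p ∈ c.AcS S ↔ p ∈ S ∧ Ac c.A c.B p := mem_filter

/-- the unknowns -/
abbrev VV (S : Finset ℕ) : Type := (c.AcS S → ZMod 2) × GG c.T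

/-- the first map -/
noncomputable def Psi (S : Finset ℕ) : c.VV S →ₗ[ZMod 2] GG c.T × c.FA :=
  lm (fun v => (v.2, ∑ q : c.AcS S, v.1 q • c.hA q)) fun v w => by
    refine Prod.ext rfl ?_
    show ∑ q : c.AcS S, (v + w).1 q • c.hA q = _ + _
    rw [← sum_add_distrib]
    exact sum_congr rfl fun q _ => add_smul _ _ _

/-- the rows -/
noncomputable def Rw (S : Finset ℕ) : c.VV S →ₗ[ZMod 2] (c.AcS S → ZMod 2) :=
  lm (fun v p => c.rw0 S (ext v.1, v.2) p) fun v w => by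
    funext p
    show c.rw0 S (ext (v + w).1, (v + w).2) p = c.rw0 S (ext v.1, v.2) p + c.rw0 S (ext w.1, w.2) p
    rw [← c.rw0_add]
    congr 1
    exact Prod.ext (funext fun q => ext_add _ _ q) rfl

theorem Psi_surj {S : Finset ℕ} (hF : c.Full S) : Function.Surjective (c.Psi S) := by
  rintro ⟨g, y⟩
  obtain ⟨i, hi⟩ := ex_cl y
  obtain ⟨p, hp, hcl⟩ := hF i
  obtain ⟨h1, h2⟩ := hi p hcl
  have hpA : p ∈ c.AcS S := c.mem_AcS.2 ⟨hp, h1⟩
  refine ⟨(Pi.single ⟨p, hpA⟩ 1, g), ?_⟩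
  refine Prod.ext rfl ?_
  show ∑ q : c.AcS S, (Pi.single ⟨p, hpA⟩ 1 : c.AcS S → ZMod 2) q • c.hA q = y
  rw [sum_eq_single ⟨p, hpA⟩]
  · rw [Pi.single_eq_same, one_smul, h2]
  · intro q _ hq
    rw [Pi.single_eq_of_ne hq, zero_smul]
  · intro h
    exact absurd (mem_univ _) h

/-- the condition at the bad places -/
theorem Psi_mem {S : Finset ℕ} {v : c.VV S} :
    c.Psi S v = (v.2, ∑ q ∈ S, ext v.1 q • c.hA q) := by
  refine Prod.ext rfl ?_
  exact (ext_sum (filter_subset _ _) v.1 _).symm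

/-- the vectors with all conditions -/
theorem VV_Sel {S : Finset ℕ} {v : c.VV S} (h1 : c.Psi S v ∈ c.LL) (h2 : c.Rw S v = 0) :
    ((ext v.1, v.2) : (ℕ → ZMod 2) × GG c.T) ∈ (c.sy c.LL).Sel S := by
  refine Sys.mem_Sel.2 ⟨fun p hp => ext_out _ fun h => hp ?_, fun p hp ha => ?_, ?_⟩
  · obtain ⟨h3, h4⟩ := c.mem_AcS.1 h
    exact ⟨h3, (c.A_iff p).2 h4⟩
  · exact congrFun h2 ⟨p, c.mem_AcS.2 ⟨hp, (c.A_iff p).1 ha⟩⟩
  · rw [c.Psi_mem] at h1
    exact h1

theorem fr_pi {W : Finset ℕ} : finrank (ZMod 2) (W → ZMod 2) = W.card := by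
  rw [Module.finrank_fintype_fun_eq_card, Fintype.card_coe]

/-- the row of a small set -/
theorem AcS_all {S : Finset ℕ} (hS : ∀ p ∈ S, c.rc.Φ.P p) : c.AcS S = S :=
  filter_true_of_mem fun q hq => (c.act_all hS q hq).2

/-- the embedding -/
noncomputable def emb (S : Finset ℕ) : c.VV S →ₗ[ZMod 2] (ℕ → ZMod 2) × GG c.T :=
  lm (fun v => (ext v.1, v.2)) fun v w => Prod.ext (funext fun q => ext_add _ _ q) rfl

/-- the sum -/
noncomputable def sm (S : Finset ℕ) : (c.AcS S → ZMod 2) →ₗ[ZMod 2] ZMod 2 :=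
  lm (fun y => ∑ q, y q) fun y z => sum_add_distrib

theorem sm_apply {S : Finset ℕ} (y : c.AcS S → ZMod 2) : c.sm S y = ∑ q, y q := rfl

/-- **the rows take all the values of sum zero** -/
theorem rows_surj {S : Finset ℕ} (hS : ∀ p ∈ S, c.rc.Φ.P p)
    (hG : hF c.m (∏ p ∈ S, p) = hF c.m c.d) (hF : c.Full S) (ht : c.t = 1) (h0 : c.Dr 0 S)
    (hne : S.Nonempty) (y : c.AcS S → ZMod 2) (hy : ∑ q, y q = 0) :
    ∃ v : c.VV S, c.Psi S v ∈ c.LL ∧ c.Rw S v = y := by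
  have := c.finFA
  have hfin := c.fin_Sel S c.LL
  have hfm : Module.Finite (ZMod 2) ((c.sy c.LL).Sel S) := Module.Finite.of_finite
  have hFA : Module.Finite (ZMod 2) c.FA := Module.Finite.of_finite
  obtain ⟨p₀, hp₀⟩ := hne
  have hp₀' : p₀ ∈ c.AcS S := by rw [c.AcS_all hS]; exact hp₀
  refine la_hyp (c.Psi S) (c.Psi_surj hF) (c.Rw S) c.LL ?_ (c.sm S)
    (y₀ := Pi.single ⟨p₀, hp₀'⟩ 1) ?_ ?_ ?_ y hy
  · have h1 : Nat.card c.LL = Nat.card c.FA := by
      unfold Cq.t at ht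
      have h2 : (Nat.card c.FA : ℝ) ≠ 0 := by
        have : 0 < Nat.card c.FA := Nat.card_pos
        exact_mod_cast this.ne'
      rw [div_eq_one_iff_eq h2] at ht
      exact_mod_cast ht
    rw [Module.natCard_eq_pow_finrank (K := ZMod 2), Module.natCard_eq_pow_finrank (K := ZMod 2)
      (V := c.FA), Nat.card_eq_fintype_card, ZMod.card] at h1
    have h3 := Nat.pow_right_injective (le_refl 2) h1
    have h4 : finrank (ZMod 2) c.LL = finrank (ZMod 2) c.FA := h3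
    have e1 : finrank (ZMod 2) (c.VV S) =
        finrank (ZMod 2) (c.AcS S → ZMod 2) + finrank (ZMod 2) (GG c.T) := Module.finrank_prod
    have e2 : finrank (ZMod 2) (GG c.T × c.FA) =
        finrank (ZMod 2) (GG c.T) + finrank (ZMod 2) c.FA := Module.finrank_prod
    rw [h4, e1, e2]
    omega
  · rw [c.sm_apply, sum_eq_single ⟨p₀, hp₀'⟩]
    · rw [Pi.single_eq_same]
    · intro q _ hq
      rw [Pi.single_eq_of_ne hq]
    · intro h
      exact absurd (mem_univ _) h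
  · intro v hv
    have h1 := c.red hS hG (ext v.1, v.2) (fun q hq => ext_out _ fun h => hq (c.mem_AcS.1 h).1) (by
      rw [c.Psi_mem] at hv
      exact hv)
    rw [c.sm_apply]
    have h2 : ∀ w : (ℕ → ZMod 2) × GG c.T,
        ∑ q ∈ S, row (c.sy c.LL) S w q = ∑ q ∈ c.AcS S, c.rw0 S w q := by
      intro w
      rw [c.AcS_all hS]
      rfl
    rw [h2] at h1
    rw [← h1]
    exact sum_coe_sort (c.AcS S) fun q => c.rw0 S (ext v.1, v.2) q
  · have h3 : ∀ x : LinearMap.ker ((c.Rw S).domRestrict (c.LL.comap (c.Psi S))),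
        (((c.emb S).comp (c.LL.comap (c.Psi S)).subtype).comp
          (LinearMap.ker ((c.Rw S).domRestrict (c.LL.comap (c.Psi S)))).subtype) x ∈
          (c.sy c.LL).Sel S := by
      rintro ⟨⟨v, hv⟩, hx⟩
      exact c.VV_Sel hv hx
    have h4 : Function.Injective (LinearMap.codRestrict ((c.sy c.LL).Sel S) _ h3) := by
      rintro ⟨⟨v, hv⟩, hx⟩ ⟨⟨v', hv'⟩, hx'⟩ h
      have h5 : ((ext v.1, v.2) : (ℕ → ZMod 2) × GG c.T) = (ext v'.1, v'.2) :=
        congrArg Subtype.val h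
      refine Subtype.ext (Subtype.ext (Prod.ext (funext fun q => ?_) (Prod.mk.inj h5).2))
      show v.1 q = v'.1 q
      rw [← ext_coe v.1 q, ← ext_coe v'.1 q]
      exact congrFun (Prod.mk.inj h5).1 q
    refine (LinearMap.finrank_le_finrank_of_injective h4).trans (le_of_eq ?_)
    exact h0

/-- the dual Selmer group, all the rows -/
theorem dual_nec2 {S : Finset ℕ} (hS : ∀ p ∈ S, c.rc.Φ.P p) {z' : ℤ} (hz' : z' ∈ c.DS S) :
    ∃ (g' : GG c.T) (J' : Finset ℕ), (∀ q ∈ J', q ∈ S ∧ Ac c.A c.B q) ∧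
      (∀ i ∈ S, Ac c.A c.B i → i ∉ J' → ch ((UU g' : ℤ) : ZMod i) + ∑ j ∈ J', nr i j = 0) ∧
      (∀ i ∈ J', fd (-2 * c.A) (c.A ^ 2 - 4 * c.B) i + ch ((UU g' : ℤ) : ZMod i) +
        ∑ q ∈ S \ J', nr i q = 0) ∧ z' = UU g' * pd J' := by
  have hCl := c.cl_all hS
  have hCl' : Cl (-2 * c.A) (c.A ^ 2 - 4 * c.B) S := fun p hp => by
    rcases hCl p hp with h | h
    · exact Or.inl h.dual
    · exact Or.inr h.dual
  have e1 : -2 * (c.A * pd S) = -2 * c.A * pd S := by ring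
  have e2 : (c.A * pd S) ^ 2 - 4 * (c.B * pd S ^ 2) = (c.A ^ 2 - 4 * c.B) * pd S ^ 2 := by ring
  have hC' : (-2 * c.A) ^ 2 - 4 * (c.A ^ 2 - 4 * c.B) ≠ 0 := by
    have e : (-2 * c.A) ^ 2 - 4 * (c.A ^ 2 - 4 * c.B) = 16 * c.B := by ring
    rw [e]
    exact mul_ne_zero (by norm_num) c.B0
  unfold DS at hz'
  rw [e1, e2] at hz'
  obtain ⟨u, J, hu, hJ, hR, -, hz⟩ := nec c.hC hC' hCl' hz'
  have hu' : Sup c.A c.B u := ⟨hu.1, fun p hp h => N2_dual hp (hu.2 p hp h)⟩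
  obtain ⟨g', rfl⟩ := c.ex_UU hu'
  have hJ' : ∀ q ∈ J, q ∈ S ∧ Ac c.A c.B q := by
    intro q hq
    obtain ⟨h1, h2⟩ := hJ q hq
    refine ⟨h1, (hCl q h1).resolve_right fun h3 => ?_⟩
    exact h2.not_pa h3.dual
  exact ⟨g', J, hJ', fun i hi ha hiJ => hR.1 i hi ha.dual hiJ, hR.2, hz⟩

/-- all the primes of the set divide the element or none of them -/
theorem all_none {S : Finset ℕ} (hS : ∀ p ∈ S, c.rc.Φ.P p)
    (hG : hF c.m (∏ p ∈ S, p) = hF c.m c.d) (hFu : c.Full S) (ht : c.t = 1) (h0 : c.Dr 0 S)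
    {z' : ℤ} (hz' : z' ∈ c.DS S) {p q : ℕ} (hp : p ∈ S) (hq : q ∈ S) (hd : (p : ℤ) ∣ z') :
    (q : ℤ) ∣ z' := by
  by_cases hpq : p = q
  · rw [← hpq]
    exact hd
  by_contra hnd
  have hp' : p ∈ c.AcS S := by rw [c.AcS_all hS]; exact hp
  have hq' : q ∈ c.AcS S := by rw [c.AcS_all hS]; exact hq
  have hne : (⟨p, hp'⟩ : c.AcS S) ≠ ⟨q, hq'⟩ := fun h => hpq (congrArg Subtype.val h)
  obtain ⟨v, hv1, hv2⟩ := c.rows_surj hS hG hFu ht h0 ⟨p, hp⟩
    (Pi.single ⟨p, hp'⟩ 1 + Pi.single ⟨q, hq'⟩ 1) (by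
      have e : ∀ r : c.AcS S, ∑ x, (Pi.single r (1 : ZMod 2) : c.AcS S → ZMod 2) x = 1 := by
        intro r
        rw [sum_eq_single r]
        · rw [Pi.single_eq_same]
        · intro x _ hx
          rw [Pi.single_eq_of_ne hx]
        · intro h
          exact absurd (mem_univ _) h
      simp only [Pi.add_apply]
      rw [sum_add_distrib, e, e]
      decide)
  have hx : ∀ q, q ∉ S → ext v.1 q = 0 := fun q hq => ext_out _ fun h => hq (c.mem_AcS.1 h).1
  have hind := ind_filter hx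
  have hJ : ∀ q ∈ S.filter (fun p => ext v.1 p ≠ 0), q ∈ S ∧ Ac c.A c.B q := by
    intro q hq
    obtain ⟨h1, h2⟩ := mem_filter.1 hq
    by_contra h3
    exact h2 (ext_out _ fun h => h3 (c.mem_AcS.1 h))
  have hL : (v.2, ∑ q ∈ S, ind (S.filter fun p => ext v.1 p ≠ 0) q • c.hA q) ∈ c.LL := by
    rw [hind]
    rw [c.Psi_mem] at hv1
    exact hv1
  have h1 := c.parity hS hJ v.2 ((c.cls_iff hS hG hJ v.2).1 hL) hz'
  rw [hind] at h1
  have h2 : ∑ q ∈ S.filter (Ac c.A c.B), c.rw0 S (ext v.1, v.2) q *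
      (if (q : ℤ) ∣ z' then 1 else 0) = ∑ q : c.AcS S, (c.Rw S v) q *
      (if ((q : ℕ) : ℤ) ∣ z' then 1 else 0) :=
    (sum_coe_sort (c.AcS S) fun q => c.rw0 S (ext v.1, v.2) q *
      (if (q : ℤ) ∣ z' then 1 else 0)).symm
  rw [h2, hv2, Fintype.sum_eq_add ⟨p, hp'⟩ ⟨q, hq'⟩ hne] at h1
  · simp only [Pi.add_apply] at h1
    rw [Pi.single_eq_same, Pi.single_eq_same, Pi.single_eq_of_ne hne, Pi.single_eq_of_ne hne.symm,
      if_pos hd, if_neg hnd] at h1
    revert h1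
    decide
  · rintro x ⟨hx1, hx2⟩
    simp only [Pi.add_apply]
    rw [Pi.single_eq_of_ne hx1, Pi.single_eq_of_ne hx2, add_zero, zero_mul]

/-- **the dual Selmer group is as small as possible** -/
theorem dual_small {S : Finset ℕ} (hS : ∀ p ∈ S, c.rc.Φ.P p)
    (hG : hF c.m (∏ p ∈ S, p) = hF c.m c.d) (hFu : c.Full S) (ht : c.t = 1) (h0 : c.Dr 0 S) :
    ∃ z₀ : ℤ, c.DS S ⊆ {1, z₀} := by
  have hAc := c.act_all hS
  have hSp : ∀ l ∈ S, l.Prime := fun l hl => (hAc l hl).2.pr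
  -- the elements with the empty set
  have key : ∀ z' ∈ c.DS S, z' = 1 ∨ ∃ g' : GG c.T, z' = UU g' * pd S ∧
      ∀ i ∈ S, fd (-2 * c.A) (c.A ^ 2 - 4 * c.B) i + ch ((UU g' : ℤ) : ZMod i) = 0 := by
    intro z' hz'
    obtain ⟨g', J', hJ', hR1, hR2, hz⟩ := c.dual_nec2 hS hz'
    have hJp' : ∀ l ∈ J', l.Prime := fun l hl => hSp l (hJ' l hl).1
    by_cases hJe : J' = ∅
    · left
      subst hJe
      have hz1 : z' = UU g' := by
        rw [hz]
        unfold pd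
        simp
      have hχ : c.chi g' = 0 := by
        refine LinearMap.ext fun x => ?_
        obtain ⟨i, hi⟩ := ex_cl x
        obtain ⟨p, hp, hcl⟩ := hFu i
        obtain ⟨h1, h2⟩ := hi p hcl
        have h3 := hR1 p hp h1 (notMem_empty p)
        rw [sum_empty, add_zero, ← c.chi_hA g' h1, h2] at h3
        exact h3
      rw [hz1, c.chi_zero hχ, UU_zero]
    · right
      obtain ⟨p, hp⟩ := Finset.nonempty_iff_ne_empty.2 hJe
      have hJS : J' = S := by
        refine Subset.antisymm (fun q hq => (hJ' q hq).1) fun q hq => ?_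
        have h1 := c.all_none hS hG hFu ht h0 hz' (hJ' p hp).1 hq (by
          rw [hz]
          exact ((dvd_pd_iff (hJp' p hp) hJp').2 hp).mul_left _)
        rw [hz] at h1
        rcases (Nat.prime_iff_prime_int.1 (hSp q hq)).dvd_or_dvd h1 with h2 | h2
        · exact absurd ((c.Sup_UU g').2 q (hSp q hq) h2) (hAc q hq).2.nd
        · exact (dvd_pd_iff (hSp q hq) hJp').1 h2
      refine ⟨g', by rw [hz, hJS], fun i hi => ?_⟩
      have h3 := hR2 i (by rw [hJS]; exact hi)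
      rw [hJS, Finset.sdiff_self, sum_empty, add_zero] at h3
      exact h3
  by_cases hex : ∃ z' ∈ c.DS S, z' ≠ 1
  · obtain ⟨z₀, hz₀, hz1⟩ := hex
    refine ⟨z₀, fun z' hz' => ?_⟩
    rcases key z' hz' with h1 | ⟨g', h1, h2⟩
    · exact Or.inl h1
    · right
      obtain ⟨g₀, h3, h4⟩ := (key z₀ hz₀).resolve_left hz1
      have hχ : c.chi (g' + g₀) = 0 := by
        refine LinearMap.ext fun x => ?_
        obtain ⟨i, hi⟩ := ex_cl x
        obtain ⟨p, hp, hcl⟩ := hFu i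
        obtain ⟨k1, k2⟩ := hi p hcl
        have k3 := h2 p hp
        have k4 := h4 p hp
        rw [map_add, LinearMap.add_apply, ← k2, c.chi_hA g' k1, c.chi_hA g₀ k1]
        show _ = (0 : ZMod 2)
        have k5 : ∀ a b d : ZMod 2, a + b = 0 → a + d = 0 → b + d = 0 := by decide
        exact k5 _ _ _ k3 k4
      have h5 := c.chi_zero hχ
      have h6 : g' = g₀ := by
        have k6 : ∀ a : ZMod 2, a + a = 0 := by decide
        have h7 : g₀ + g₀ = 0 := Prod.ext (funext fun t => k6 _) (k6 _)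
        calc g' = g' + (g₀ + g₀) := by rw [h7, add_zero]
          _ = (g' + g₀) + g₀ := by rw [add_assoc]
          _ = g₀ := by rw [h5, zero_add]
      show z' = z₀
      rw [h1, h3, h6]
  · refine ⟨1, fun z' hz' => Or.inl ?_⟩
    by_contra h
    exact hex ⟨z', hz', h⟩

end Cq

end Q44.BS
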